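import Pool.Agent.H31.UE.Def

/-!
# The strip: few points are almost equidistant from two given points
-/

set_option autoImplicit false

namespace Pool.Agent.H31.UE

open Finset

namespace StripAux

theorem card_im {T : Finset (ℝ × ℝ)} {h : ℝ × ℝ → ℝ} {s L : ℝ} (hs : 0 < s)
    (hL : 0 ≤ L) (h0 : ∀ a ∈ T, 0 ≤ h a ∧ h a ≤ L) :
    ((T.image fun a => ⌊h a / s⌋).card : ℝ) ≤ L / s + 1 := by
  have h1 : (T.image fun a => ⌊h a / s⌋) ⊆ Finset.Icc 0 ⌊L / s⌋ := by
    intro z hz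
    obtain ⟨a, ha, rfl⟩ := Finset.mem_image.mp hz
    rw [Finset.mem_Icc]
    exact ⟨Int.floor_nonneg.mpr (div_nonneg (h0 a ha).1 hs.le),
      Int.floor_le_floor (div_le_div_of_nonneg_right (h0 a ha).2 hs.le)⟩
  have h2 := Finset.card_le_card h1
  rw [Int.card_Icc] at h2
  have h3 : (0 : ℤ) ≤ ⌊L / s⌋ := Int.floor_nonneg.mpr (div_nonneg hL hs.le)
  have h4 : ((⌊L / s⌋ + 1 - 0).toNat : ℤ) = ⌊L / s⌋ + 1 := by
    rw [Int.toNat_of_nonneg (by omega)]; ring
  have h5 : (((⌊L / s⌋ + 1 - 0).toNat : ℕ) : ℝ) = (⌊L / s⌋ : ℝ) + 1 := by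
    exact_mod_cast h4
  have h6 : ((T.image fun a => ⌊h a / s⌋).card : ℝ) ≤ (((⌊L / s⌋ + 1 - 0).toNat : ℕ) : ℝ) := by
    exact_mod_cast h2
  rw [h5] at h6
  have h7 := Int.floor_le (L / s)
  linarith

theorem card_fib {T : Finset (ℝ × ℝ)} (f : ℝ × ℝ → ℤ) (M : ℝ)
    (h : ∀ i : ℤ, ((T.filter fun a => f a = i).card : ℝ) ≤ M) :
    (T.card : ℝ) ≤ M * (T.image f).card := by
  rw [Finset.card_eq_sum_card_image f T]
  push_cast
  calc ∑ i ∈ T.image f, ((T.filter fun a => f a = i).card : ℝ) ≤ ∑ _i ∈ T.image f, M :=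
        Finset.sum_le_sum fun i _ => h i
    _ = M * (T.image f).card := by rw [Finset.sum_const, nsmul_eq_mul, mul_comm]

end StripAux

open Classical in
theorem strip : StripStmt := by
  intro C0
  refine ⟨16 * C0 + 1, by positivity, ?_⟩
  intro P hP hS b b' hne hw
  have hn1 : (1 : ℝ) ≤ P.card := by exact_mod_cast hP.card_pos
  have hn0 : (0 : ℝ) < P.card := by linarith
  set n : ℝ := (P.card : ℝ) with hn
  have hs0 : 0 < sc P := Real.rpow_pos_of_pos hn0 _
  have hs1 : sc P ≤ 1 := Real.rpow_le_one_of_one_le_of_nonpos hn1 (by norm_num)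
  have hss : n * (sc P * sc P) = 1 := by
    unfold sc
    rw [← hn, ← Real.rpow_add hn0]
    norm_num
    rw [Real.rpow_neg_one, mul_inv_cancel₀ hn0.ne']
  have hd0 : 0 < dc P := Real.rpow_pos_of_pos hn0 _
  set s : ℝ := sc P with hs
  set d : ℝ := dc P with hd
  have hW : 0 < |b'.2 - b.2| := abs_pos.mpr (sub_ne_zero.mpr (Ne.symm hne))
  set W : ℝ := |b'.2 - b.2| with hWd
  set l : ℝ := 4 * d / W + s with hl
  have hl0 : 0 ≤ l := by positivity
  set S : Finset (ℝ × ℝ) := P.filter fun a => sq a b ≤ 2 ∧ |sq a b - sq a b'| < d with hSd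
  have hSP : ∀ a ∈ S, a ∈ P := fun a ha => (Finset.mem_filter.mp ha).1
  -- two points of a column
  have hcol : ∀ a ∈ S, ∀ a' ∈ S, |a.1 - a'.1| ≤ s → a.2 - a'.2 ≤ l := by
    intro a ha a' ha' h
    obtain ⟨-, -, h1⟩ := Finset.mem_filter.mp ha
    obtain ⟨-, -, h2⟩ := Finset.mem_filter.mp ha'
    have e : 2 * ((b'.2 - b.2) * (a.2 - a'.2)) = (sq a b - sq a b') - (sq a' b - sq a' b') -
        2 * ((b'.1 - b.1) * (a.1 - a'.1)) := by unfold sq; ring
    have h3 : |(b'.1 - b.1) * (a.1 - a'.1)| ≤ (W + 3 * d) * s := by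
      rw [abs_mul]
      exact mul_le_mul hw h (abs_nonneg _) (by positivity)
    have h4 : |(b'.2 - b.2) * (a.2 - a'.2)| ≤ 4 * d + W * s := by
      rw [abs_lt] at h1 h2
      rw [abs_le] at h3 ⊢
      have h5 : (W + 3 * d) * s ≤ W * s + 3 * d := by nlinarith
      constructor
      · linarith [h1.1, h1.2, h2.1, h2.2, h3.1, h3.2]
      · linarith [h1.1, h1.2, h2.1, h2.2, h3.1, h3.2]
    rw [abs_mul] at h4
    have h6 : a.2 - a'.2 ≤ |a.2 - a'.2| := le_abs_self _
    have h7 : |a.2 - a'.2| ≤ (4 * d + W * s) / W := by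
      rw [le_div_iff₀ hW, mul_comm]
      exact h4
    have h8 : (4 * d + W * s) / W = l := by
      rw [hl]
      field_simp
    linarith
  -- the columns
  set h : ℝ × ℝ → ℝ := fun a => a.1 - b.1 + 3 / 2 with hh
  have hh0 : ∀ a ∈ S, 0 ≤ h a ∧ h a ≤ 3 := by
    intro a ha
    obtain ⟨-, h1, -⟩ := Finset.mem_filter.mp ha
    unfold sq at h1
    have h2 : |a.1 - b.1| ≤ 3 / 2 := by
      apply abs_le_of_sq_le_sq _ (by norm_num)
      nlinarith [sq_nonneg (a.2 - b.2)]
    rw [abs_le] at h2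
    rw [hh]
    constructor
    · change 0 ≤ a.1 - b.1 + 3 / 2
      linarith [h2.1]
    · change a.1 - b.1 + 3 / 2 ≤ 3
      linarith [h2.2]
  have hcols := StripAux.card_im hs0 (by norm_num : (0 : ℝ) ≤ 3) hh0
  have hcolcard : ∀ i : ℤ, ((S.filter fun a => ⌊h a / s⌋ = i).card : ℝ) ≤ C0 * (l / s + 1) := by
    intro i
    set Si := S.filter fun a => ⌊h a / s⌋ = i with hSi
    rcases Si.eq_empty_or_nonempty with hE | hN
    · rw [hE, Finset.card_empty]
      push_cast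
      positivity
    · obtain ⟨a0, ha0, hmin⟩ := Finset.exists_min_image Si (fun a => a.2) hN
      have hclose : ∀ a ∈ Si, |a.1 - a0.1| ≤ s := by
        intro a ha
        have h1 := (Finset.mem_filter.mp ha).2
        have h2 := (Finset.mem_filter.mp ha0).2
        rw [Int.floor_eq_iff] at h1 h2
        obtain ⟨h1a, h1b⟩ := h1
        obtain ⟨h2a, h2b⟩ := h2
        rw [le_div_iff₀ hs0] at h1a h2a
        rw [div_lt_iff₀ hs0] at h1b h2b
        have e1 : h a = a.1 - b.1 + 3 / 2 := rfl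
        have e2 : h a0 = a0.1 - b.1 + 3 / 2 := rfl
        rw [abs_le]
        constructor
        · nlinarith
        · nlinarith
      have hg0 : ∀ a ∈ Si, 0 ≤ a.2 - a0.2 ∧ a.2 - a0.2 ≤ l := by
        intro a ha
        refine ⟨by linarith [hmin a ha], ?_⟩
        exact hcol a (Finset.mem_filter.mp ha).1 a0 (Finset.mem_filter.mp ha0).1 (hclose a ha)
      have hrows := StripAux.card_im (h := fun a => a.2 - a0.2) hs0 hl0 hg0
      have hcell : ∀ j : ℤ, ((Si.filter fun a => ⌊(a.2 - a0.2) / s⌋ = j).card : ℝ) ≤ C0 := by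
        intro j
        have h1 := hS (b.1 - 3 / 2 + s * i) (a0.2 + s * j)
        have h2 : (Si.filter fun a => ⌊(a.2 - a0.2) / s⌋ = j) ⊆
            P.filter fun p => b.1 - 3 / 2 + s * i ≤ p.1 ∧ p.1 ≤ b.1 - 3 / 2 + s * i + sc P ∧
              a0.2 + s * j ≤ p.2 ∧ p.2 ≤ a0.2 + s * j + sc P := by
          intro a ha
          obtain ⟨h3, h4⟩ := Finset.mem_filter.mp ha
          obtain ⟨h5, h6⟩ := Finset.mem_filter.mp h3
          rw [Int.floor_eq_iff] at h4 h6
          obtain ⟨h4a, h4b⟩ := h4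
          obtain ⟨h6a, h6b⟩ := h6
          rw [le_div_iff₀ hs0] at h4a h6a
          rw [div_lt_iff₀ hs0] at h4b h6b
          have e1 : h a = a.1 - b.1 + 3 / 2 := rfl
          rw [e1] at h6a h6b
          rw [Finset.mem_filter, ← hs]
          refine ⟨hSP a h5, ?_, ?_, ?_, ?_⟩ <;> nlinarith
        have h3 := (Finset.card_le_card h2).trans h1
        exact_mod_cast h3
      have h1 := StripAux.card_fib (T := Si) (fun a => ⌊(a.2 - a0.2) / s⌋) C0 hcell
      refine h1.trans ?_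
      exact mul_le_mul_of_nonneg_left hrows (Nat.cast_nonneg _)
  have htot := StripAux.card_fib (T := S) (fun a => ⌊h a / s⌋) _ hcolcard
  have hM : 0 ≤ (C0 : ℝ) * (l / s + 1) := by positivity
  have h1 : (S.card : ℝ) ≤ C0 * (l / s + 1) * (3 / s + 1) :=
    htot.trans (mul_le_mul_of_nonneg_left hcols hM)
  have h2 : 3 / s + 1 ≤ 4 / s := by
    rw [div_add_one hs0.ne', div_le_div_iff_of_pos_right hs0]
    linarith
  have h3 : (S.card : ℝ) ≤ C0 * (l / s + 1) * (4 / s) :=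
    h1.trans (mul_le_mul_of_nonneg_left h2 hM)
  have hinv : 1 / s = n * s := by
    rw [div_eq_iff hs0.ne', mul_assoc]
    exact hss.symm
  have h4 : (C0 : ℝ) * (l / s + 1) * (4 / s) = C0 * (16 * n * (d / W) + 8 * n * s) := by
    have e1 : l / s = l * (1 / s) := by ring
    have e2 : 4 / s = 4 * (1 / s) := by ring
    rw [e1, e2, hinv, hl]
    have e3 : (C0 : ℝ) * ((4 * d / W + s) * (n * s) + 1) * (4 * (n * s)) =
        C0 * (16 * n * (d / W) * (n * (s * s)) + 4 * n * s * (n * (s * s)) + 4 * n * s) := by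
      ring
    rw [e3, hss]
    ring
  have h5 : 0 ≤ n * (d / W) := by positivity
  have h6 : 0 ≤ n * s := by positivity
  have h7 : (0 : ℝ) ≤ C0 := Nat.cast_nonneg _
  calc (S.card : ℝ) ≤ C0 * (16 * n * (d / W) + 8 * n * s) := by rw [← h4]; exact h3
    _ ≤ (16 * C0 + 1) * n * (d / W + s) := by
      have h8 : 0 ≤ (C0 : ℝ) * (n * s) := mul_nonneg h7 h6
      nlinarith

end Pool.Agent.H31.UE
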