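import Pool.Agent.H31.UE.Loc
import Pool.Agent.H31.UE.Strip

/-!
# Ann: few points of the set at a distance in a short interval from a given point
-/

set_option autoImplicit false

namespace Pool.Agent.H31.UE

open Finset

open Classical in
theorem ann : AnnStmt := by
  intro C0
  refine ⟨12 * C0 + 1, by positivity, ?_⟩
  intro P hP hS α β hα hβ hl b
  have hn1 : (1 : ℝ) ≤ P.card := by exact_mod_cast hP.card_pos
  have hn0 : (0 : ℝ) < P.card := by linarith
  set n : ℝ := (P.card : ℝ) with hn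
  have hs0 : 0 < sc P := Real.rpow_pos_of_pos hn0 _
  have hs1 : sc P ≤ 1 := Real.rpow_le_one_of_one_le_of_nonpos hn1 (by norm_num)
  have hss : n * (sc P * sc P) = 1 := by
    unfold sc
    rw [← hn, ← Real.rpow_add hn0]
    norm_num
    rw [Real.rpow_neg_one, mul_inv_cancel₀ hn0.ne']
  set s : ℝ := sc P with hs
  set l : ℝ := β - α with hld
  have hl0 : 0 < l := lt_of_lt_of_le hs0 hl
  set S : Finset (ℝ × ℝ) := P.filter fun a => Hp a b ∧ α ≤ sq a b ∧ sq a b ≤ β with hSd
  have hSP : ∀ a ∈ S, a ∈ P := fun a ha => (Finset.mem_filter.mp ha).1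
  -- the first coordinate
  have hbase : ∀ a ∈ S, 7 / 20 ≤ b.1 - a.1 ∧ |b.2 - a.2| ≤ b.1 - a.1 ∧ |a.2 - b.2| ≤ 1 := by
    intro a ha
    obtain ⟨-, h1, h2, h3⟩ := Finset.mem_filter.mp ha
    unfold Hp at h1
    unfold sq at h2 h3
    have h4 : 0 ≤ b.1 - a.1 := (abs_nonneg _).trans h1
    have h5 : (b.2 - a.2) ^ 2 ≤ (b.1 - a.1) ^ 2 := sq_le_sq' (by linarith [(abs_le.mp h1).1]) (abs_le.mp h1).2
    refine ⟨?_, h1, ?_⟩
    · by_contra hcon
      push Not at hcon
      have h6 : (b.1 - a.1) ^ 2 < (7 / 20) ^ 2 := by nlinarith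
      nlinarith
    · apply abs_le_of_sq_le_sq _ (by norm_num)
      nlinarith [sq_nonneg (a.1 - b.1)]
  -- two points of a row
  have hrow : ∀ a ∈ S, ∀ a' ∈ S, |a.2 - a'.2| ≤ s → a.1 - a'.1 ≤ 10 / 7 * l + s := by
    intro a ha a' ha' h
    obtain ⟨b1, b2, -⟩ := hbase a ha
    obtain ⟨b1', b2', -⟩ := hbase a' ha'
    obtain ⟨-, -, h2, h3⟩ := Finset.mem_filter.mp ha
    obtain ⟨-, -, h2', h3'⟩ := Finset.mem_filter.mp ha'
    by_contra hcon
    push Not at hcon
    have e : (a.1 - a'.1) * ((b.1 - a.1) + (b.1 - a'.1)) = (sq a' b - sq a b) +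
        ((b.2 - a.2) + (b.2 - a'.2)) * (a'.2 - a.2) := by unfold sq; ring
    have h4 : |((b.2 - a.2) + (b.2 - a'.2)) * (a'.2 - a.2)| ≤ ((b.1 - a.1) + (b.1 - a'.1)) * s := by
      rw [abs_mul]
      refine mul_le_mul ?_ ?_ (abs_nonneg _) (by linarith)
      · exact (abs_add_le _ _).trans (add_le_add b2 b2')
      · rw [abs_sub_comm]; exact h
    have h5 := (abs_le.mp h4).2
    have h6 : sq a' b - sq a b ≤ l := by rw [hld]; linarith
    set T : ℝ := (b.1 - a.1) + (b.1 - a'.1) with hT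
    have hT0 : 7 / 10 ≤ T := by rw [hT]; linarith
    have h7 : (10 / 7 * l + s) * T < (a.1 - a'.1) * T := mul_lt_mul_of_pos_right hcon (by linarith)
    have h8 : l ≤ 10 / 7 * l * T := by nlinarith
    nlinarith
  -- the rows
  set h : ℝ × ℝ → ℝ := fun a => a.2 - b.2 + 1 with hh
  have hh0 : ∀ a ∈ S, 0 ≤ h a ∧ h a ≤ 2 := by
    intro a ha
    obtain ⟨-, -, h2⟩ := hbase a ha
    rw [abs_le] at h2
    rw [hh]
    constructor
    · change 0 ≤ a.2 - b.2 + 1
      linarith [h2.1]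
    · change a.2 - b.2 + 1 ≤ 2
      linarith [h2.2]
  have hrows := StripAux.card_im hs0 (by norm_num : (0 : ℝ) ≤ 2) hh0
  have hls : 1 ≤ l / s := by rw [le_div_iff₀ hs0, one_mul]; exact hl
  have hL0 : 0 ≤ 10 / 7 * l + s := by positivity
  have hrowcard : ∀ i : ℤ, ((S.filter fun a => ⌊h a / s⌋ = i).card : ℝ) ≤ C0 * (4 * (l / s)) := by
    intro i
    set Si := S.filter fun a => ⌊h a / s⌋ = i with hSi
    rcases Si.eq_empty_or_nonempty with hE | hN
    · rw [hE, Finset.card_empty]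
      push_cast
      positivity
    · obtain ⟨a0, ha0, hmin⟩ := Finset.exists_min_image Si (fun a => a.1) hN
      have hclose : ∀ a ∈ Si, |a.2 - a0.2| ≤ s := by
        intro a ha
        have h1 := (Finset.mem_filter.mp ha).2
        have h2 := (Finset.mem_filter.mp ha0).2
        rw [Int.floor_eq_iff] at h1 h2
        obtain ⟨h1a, h1b⟩ := h1
        obtain ⟨h2a, h2b⟩ := h2
        rw [le_div_iff₀ hs0] at h1a h2a
        rw [div_lt_iff₀ hs0] at h1b h2b
        have e1 : h a = a.2 - b.2 + 1 := rfl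
        have e2 : h a0 = a0.2 - b.2 + 1 := rfl
        rw [abs_le]
        constructor
        · nlinarith
        · nlinarith
      have hg0 : ∀ a ∈ Si, 0 ≤ a.1 - a0.1 ∧ a.1 - a0.1 ≤ 10 / 7 * l + s := by
        intro a ha
        refine ⟨by linarith [hmin a ha], ?_⟩
        exact hrow a (Finset.mem_filter.mp ha).1 a0 (Finset.mem_filter.mp ha0).1 (hclose a ha)
      have hcells := StripAux.card_im (h := fun a => a.1 - a0.1) hs0 hL0 hg0
      have hcell : ∀ j : ℤ, ((Si.filter fun a => ⌊(a.1 - a0.1) / s⌋ = j).card : ℝ) ≤ C0 := by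
        intro j
        have h1 := hS (a0.1 + s * j) (b.2 - 1 + s * i)
        have h2 : (Si.filter fun a => ⌊(a.1 - a0.1) / s⌋ = j) ⊆
            P.filter fun p => a0.1 + s * j ≤ p.1 ∧ p.1 ≤ a0.1 + s * j + sc P ∧
              b.2 - 1 + s * i ≤ p.2 ∧ p.2 ≤ b.2 - 1 + s * i + sc P := by
          intro a ha
          obtain ⟨h3, h4⟩ := Finset.mem_filter.mp ha
          obtain ⟨h5, h6⟩ := Finset.mem_filter.mp h3
          rw [Int.floor_eq_iff] at h4 h6
          obtain ⟨h4a, h4b⟩ := h4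
          obtain ⟨h6a, h6b⟩ := h6
          rw [le_div_iff₀ hs0] at h4a h6a
          rw [div_lt_iff₀ hs0] at h4b h6b
          have e1 : h a = a.2 - b.2 + 1 := rfl
          rw [e1] at h6a h6b
          rw [Finset.mem_filter, ← hs]
          refine ⟨hSP a h5, ?_, ?_, ?_, ?_⟩ <;> nlinarith
        have h3 := (Finset.card_le_card h2).trans h1
        exact_mod_cast h3
      have h1 := StripAux.card_fib (T := Si) (fun a => ⌊(a.1 - a0.1) / s⌋) C0 hcell
      refine h1.trans ?_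
      refine mul_le_mul_of_nonneg_left (hcells.trans ?_) (Nat.cast_nonneg _)
      have e : (10 / 7 * l + s) / s = 10 / 7 * (l / s) + 1 := by field_simp
      rw [e]
      linarith
  have htot := StripAux.card_fib (T := S) (fun a => ⌊h a / s⌋) _ hrowcard
  have hM : 0 ≤ (C0 : ℝ) * (4 * (l / s)) := by positivity
  have h1 : (S.card : ℝ) ≤ C0 * (4 * (l / s)) * (2 / s + 1) :=
    htot.trans (mul_le_mul_of_nonneg_left hrows hM)
  have h2 : 2 / s + 1 ≤ 3 / s := by
    rw [div_add_one hs0.ne', div_le_div_iff_of_pos_right hs0]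
    linarith
  have h3 : (S.card : ℝ) ≤ C0 * (4 * (l / s)) * (3 / s) :=
    h1.trans (mul_le_mul_of_nonneg_left h2 hM)
  have hinv : 1 / s = n * s := by
    rw [div_eq_iff hs0.ne', mul_assoc]
    exact hss.symm
  have h4 : (C0 : ℝ) * (4 * (l / s)) * (3 / s) = 12 * C0 * n * l := by
    have e1 : l / s = l * (1 / s) := by ring
    have e2 : 3 / s = 3 * (1 / s) := by ring
    rw [e1, e2, hinv]
    have e3 : (C0 : ℝ) * (4 * (l * (n * s))) * (3 * (n * s)) = 12 * C0 * n * l * (n * (s * s)) := by ring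
    rw [e3, hss, mul_one]
  have h7 : (0 : ℝ) ≤ C0 := Nat.cast_nonneg _
  calc (S.card : ℝ) ≤ 12 * C0 * n * l := by rw [← h4]; exact h3
    _ ≤ (12 * C0 + 1) * n * l := by
      have h8 : 0 ≤ n * l := by positivity
      nlinarith

end Pool.Agent.H31.UE
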