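import Pool.Agent.H31.UE.Def

/-!
# The choice of the scale
-/

set_option autoImplicit false

namespace Pool.Agent.H31.UE

open Finset

namespace AvgM

open Classical in
theorem count1 {α : Type*} (B : Finset (α × α)) (T : Finset (α × α × α)) (K : ℕ)
    (h : ∀ z ∈ B, ∃ F : Finset α, K ≤ F.card ∧ ∀ x ∈ F, (z.1, z.2, x) ∈ T) :
    K * B.card ≤ T.card := by
  have h1 : K * B.card ≤ (T.filter fun z => (z.1, z.2.1) ∈ B).card := by
    refine Finset.mul_card_image_le_card_of_maps_to (f := fun z : α × α × α => (z.1, z.2.1))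
      (fun z hz => (mem_filter.1 hz).2) K ?_
    rintro ⟨a, b⟩ hab
    obtain ⟨F, hF, hFT⟩ := h _ hab
    calc K ≤ F.card := hF
      _ = (F.image fun x => (a, b, x)).card :=
        (card_image_of_injective _ (fun x y hxy => by simpa using hxy)).symm
      _ ≤ _ := by
        refine card_le_card ?_
        intro z hz
        obtain ⟨x, hx, rfl⟩ := mem_image.1 hz
        simp only [mem_filter]
        exact ⟨⟨hFT x hx, hab⟩, trivial⟩
  exact h1.trans (card_le_card (filter_subset _ _))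

open Classical in
theorem count2 {α : Type*} (B : Finset (α × α)) (T : Finset (α × α × α)) (K : ℕ)
    (h : ∀ z ∈ B, ∃ F : Finset α, K ≤ F.card ∧ ∀ x ∈ F, (z.2, z.1, x) ∈ T) :
    K * B.card ≤ T.card := by
  have h1 := count1 (B.image Prod.swap) T K (by
    intro z hz
    obtain ⟨w, hw, rfl⟩ := mem_image.1 hz
    exact h w hw)
  rwa [card_image_of_injective _ Prod.swap_injective] at h1

theorem card_bound {δ C N : ℝ} (hδ : 0 < δ) (hC : 0 < C) {K b T : ℕ} (hK : 4 * C / δ ≤ (K : ℝ))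
    (h1 : (K + 1) * b ≤ T) (h2 : (T : ℝ) ≤ C * N) : (b : ℝ) ≤ δ / 4 * N := by
  have h3 : ((K : ℝ) + 1) * b ≤ C * N := by
    refine le_trans ?_ h2
    exact_mod_cast h1
  have h4 : 4 * C / δ * (b : ℝ) ≤ C * N := by
    refine le_trans ?_ h3
    exact mul_le_mul_of_nonneg_right (by linarith) (Nat.cast_nonneg b)
  have h5 : C * (4 / δ * (b : ℝ)) ≤ C * N := by
    calc C * (4 / δ * (b : ℝ)) = 4 * C / δ * (b : ℝ) := by ring
      _ ≤ _ := h4
  have h6 : 4 / δ * (b : ℝ) ≤ N := le_of_mul_le_mul_left h5 hC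
  calc (b : ℝ) = δ / 4 * (4 / δ * (b : ℝ)) := by field_simp
    _ ≤ δ / 4 * N := mul_le_mul_of_nonneg_left h6 (by positivity)

end AvgM

open AvgM

open Classical in
theorem avg : AvgStmt := by
  intro δ C hδ hC
  obtain ⟨K, hK⟩ := exists_nat_ge (4 * C / δ)
  refine ⟨δ / 2, K, by positivity, ?_⟩
  intro P hP h1 h2 h3
  by_contra hcon
  push Not at hcon
  have hn : (300 : ℝ) ≤ (P.card : ℝ) := by exact_mod_cast hP
  have hn0 : (0 : ℝ) < (P.card : ℝ) := by linarith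
  have hd0 : 0 < dc P := Real.rpow_pos_of_pos hn0 _
  have hd4 : dc P ≤ 1 / 4 := by
    have h8 : (8 : ℝ) ^ (-(2 / 3) : ℝ) = 1 / 4 := by
      rw [show (8 : ℝ) = (2 : ℝ) ^ (3 : ℝ) by norm_num, ← Real.rpow_mul (by norm_num),
        show (3 : ℝ) * -(2 / 3) = -(2 : ℝ) by norm_num, Real.rpow_neg (by norm_num)]
      norm_num
    calc dc P = (P.card : ℝ) ^ (-(2 / 3) : ℝ) := rfl
      _ ≤ (8 : ℝ) ^ (-(2 / 3) : ℝ) :=
        Real.rpow_le_rpow_of_nonpos (by norm_num) (by linarith) (by norm_num)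
      _ = 1 / 4 := h8
  have hdn : (P.card : ℝ) ^ (4 / 3 : ℝ) = dc P * (P.card : ℝ) ^ 2 := by
    unfold dc
    rw [← Real.rpow_natCast, ← Real.rpow_add hn0]
    norm_num
  generalize dc P = d at *
  generalize ec P = e at *
  rw [hdn] at hcon
  -- the scales
  let J : ℕ := ⌊(3 / 4) / d⌋₊
  let r : ℕ → ℝ := fun j => 1 / 4 + (j : ℝ) * d
  let ix : (ℝ × ℝ) × (ℝ × ℝ) → ℕ := fun z => ⌊(sq z.1 z.2 - 1 / 4) / d⌋₊
  have hix1 : ∀ z : (ℝ × ℝ) × (ℝ × ℝ), 1 / 4 ≤ sq z.1 z.2 → NearR (r (ix z)) d z.1 z.2 := by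
    intro z hz
    have ha : (ix z : ℝ) ≤ (sq z.1 z.2 - 1 / 4) / d :=
      Nat.floor_le (div_nonneg (by linarith) hd0.le)
    have hb : (sq z.1 z.2 - 1 / 4) / d < (ix z : ℝ) + 1 := Nat.lt_floor_add_one _
    rw [le_div_iff₀ hd0] at ha
    rw [div_lt_iff₀ hd0] at hb
    refine ⟨?_, ?_⟩
    · show 1 / 4 + (ix z : ℝ) * d ≤ _
      linarith
    · show _ < 1 / 4 + (ix z : ℝ) * d + d
      linarith
  have hixJ : ∀ z : (ℝ × ℝ) × (ℝ × ℝ), sq z.1 z.2 ≤ 1 → ix z ≤ J := by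
    intro z hz
    exact Nat.floor_le_floor (div_le_div_of_nonneg_right (by linarith) hd0.le)
  have hJ : (J : ℝ) * d ≤ 3 / 4 := by
    have := Nat.floor_le (a := (3 / 4) / d) (by positivity)
    rwa [le_div_iff₀ hd0] at this
  -- the sets
  let S : Finset ((ℝ × ℝ) × (ℝ × ℝ)) := (P ×ˢ P).filter fun z => Hp z.1 z.2 ∧
    1 / 4 ≤ sq z.1 z.2 ∧ sq z.1 z.2 ≤ 1
  let F1 : (ℝ × ℝ) × (ℝ × ℝ) → Finset (ℝ × ℝ) := fun z =>
    P.filter fun b' => NearR (r (ix z)) d z.1 b' ∧ Hp z.1 b' ∧ |b'.2 - z.2.2| < e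
  let F2 : (ℝ × ℝ) × (ℝ × ℝ) → Finset (ℝ × ℝ) := fun z =>
    P.filter fun a' => NearR (r (ix z)) d a' z.2 ∧ Hp a' z.2 ∧ |a'.2 - z.1.2| < e
  have hSc : δ * (P.card : ℝ) ^ 2 ≤ (S.card : ℝ) := by
    exact h3
  -- the bad pairs
  have hB1 : ((S.filter fun z => K < (F1 z).card).card : ℝ) ≤ δ / 4 * (P.card : ℝ) ^ 2 := by
    refine card_bound hδ hC hK (count1 _ _ (K + 1) ?_) h1
    intro z hz
    rw [mem_filter] at hz
    obtain ⟨hz1, hz2⟩ := hz
    rw [mem_filter] at hz1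
    obtain ⟨hzP, hzH, hz4, hz5⟩ := hz1
    rw [mem_product] at hzP
    refine ⟨F1 z, hz2, fun x hx => ?_⟩
    rw [mem_filter] at hx
    obtain ⟨hxP, hx1, hx2, hx3⟩ := hx
    rw [mem_filter, mem_product, mem_product]
    have hq := hix1 z hz4
    refine ⟨⟨hzP.1, hzP.2, hxP⟩, hzH, hx2, hz4, by show sq z.1 z.2 ≤ 2; linarith, ?_, hx3⟩
    show |sq z.1 z.2 - sq z.1 x| < d
    obtain ⟨hq1, hq2⟩ := hq
    obtain ⟨hy1, hy2⟩ := hx1
    rw [abs_lt]
    constructor <;> linarith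
  have hB2 : ((S.filter fun z => K < (F2 z).card).card : ℝ) ≤ δ / 4 * (P.card : ℝ) ^ 2 := by
    refine card_bound hδ hC hK (count2 _ _ (K + 1) ?_) h2
    intro z hz
    rw [mem_filter] at hz
    obtain ⟨hz1, hz2⟩ := hz
    rw [mem_filter] at hz1
    obtain ⟨hzP, hzH, hz4, hz5⟩ := hz1
    rw [mem_product] at hzP
    refine ⟨F2 z, hz2, fun x hx => ?_⟩
    rw [mem_filter] at hx
    obtain ⟨hxP, hx1, hx2, hx3⟩ := hx
    rw [mem_filter, mem_product, mem_product]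
    have hq := hix1 z hz4
    refine ⟨⟨hzP.2, hzP.1, hxP⟩, hzH, hx2, hz4, by show sq z.1 z.2 ≤ 2; linarith, ?_, hx3⟩
    show |sq z.1 z.2 - sq x z.2| < d
    obtain ⟨hq1, hq2⟩ := hq
    obtain ⟨hy1, hy2⟩ := hx1
    rw [abs_lt]
    constructor <;> linarith
  -- the good pairs
  let S0 : Finset ((ℝ × ℝ) × (ℝ × ℝ)) := S.filter fun z => (F1 z).card ≤ K ∧ (F2 z).card ≤ K
  have hcov : S ⊆ (S.filter fun z => K < (F1 z).card) ∪ (S.filter fun z => K < (F2 z).card) ∪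
      S0 := by
    intro z hz
    by_cases ha : K < (F1 z).card
    · exact mem_union_left _ (mem_union_left _ (mem_filter.2 ⟨hz, ha⟩))
    · by_cases hb : K < (F2 z).card
      · exact mem_union_left _ (mem_union_right _ (mem_filter.2 ⟨hz, hb⟩))
      · exact mem_union_right _ (mem_filter.2 ⟨hz, not_lt.1 ha, not_lt.1 hb⟩)
  have hSle : (S.card : ℝ) ≤ ((S.filter fun z => K < (F1 z).card).card : ℝ) +
      ((S.filter fun z => K < (F2 z).card).card : ℝ) + (S0.card : ℝ) := by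
    have h4 := (card_le_card hcov).trans ((card_union_le _ _).trans
      (Nat.add_le_add_right (card_union_le _ _) _))
    exact_mod_cast h4
  have hS0 : S0.card = ∑ j ∈ range (J + 1), (S0.filter fun z => ix z = j).card := by
    refine card_eq_sum_card_fiberwise fun z hz => ?_
    have hz' := (mem_filter.1 (Finset.mem_coe.1 hz)).1
    have hz2 := (mem_filter.1 hz').2.2.2
    exact Finset.mem_coe.2 (mem_range.2 (Nat.lt_succ_of_le (hixJ z hz2)))
  have hfib : ∀ j ∈ range (J + 1), ((S0.filter fun z => ix z = j).card : ℝ) <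
      δ / 2 * (d * (P.card : ℝ) ^ 2) := by
    intro j hj
    have hjJ : j ≤ J := Nat.lt_succ_iff.1 (mem_range.1 hj)
    have hr1 : 1 / 4 ≤ r j := by
      show (1 : ℝ) / 4 ≤ 1 / 4 + (j : ℝ) * d
      have : 0 ≤ (j : ℝ) * d := by positivity
      linarith
    have hr2 : r j ≤ 1 := by
      show (1 : ℝ) / 4 + (j : ℝ) * d ≤ 1
      have h5 : (j : ℝ) * d ≤ (J : ℝ) * d :=
        mul_le_mul_of_nonneg_right (by exact_mod_cast hjJ) hd0.le
      linarith
    refine lt_of_le_of_lt ?_ (hcon (r j) hr1 hr2)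
    norm_cast
    refine card_le_card fun z hz => ?_
    rw [mem_filter] at hz
    obtain ⟨hz0, hzj⟩ := hz
    rw [mem_filter] at hz0
    obtain ⟨hzS, hzK1, hzK2⟩ := hz0
    rw [mem_filter] at hzS
    obtain ⟨hzP, hzH, hz4, hz5⟩ := hzS
    rw [mem_filter]
    have hq := hix1 z hz4
    rw [hzj] at hq
    refine ⟨hzP, hq, hzH, ?_, ?_⟩
    · refine le_trans (card_le_card fun x hx => ?_) hzK1
      rw [mem_filter] at hx ⊢
      rw [hzj]
      exact hx
    · refine le_trans (card_le_card fun x hx => ?_) hzK2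
      rw [mem_filter] at hx ⊢
      rw [hzj]
      exact hx
  have hsum : (S0.card : ℝ) < ((J : ℝ) + 1) * (δ / 2 * (d * (P.card : ℝ) ^ 2)) := by
    rw [hS0]
    push_cast
    calc ∑ j ∈ range (J + 1), ((S0.filter fun z => ix z = j).card : ℝ)
        < ∑ _j ∈ range (J + 1), δ / 2 * (d * (P.card : ℝ) ^ 2) :=
          sum_lt_sum_of_nonempty ⟨0, mem_range.2 (Nat.succ_pos _)⟩ hfib
      _ = ((J : ℝ) + 1) * (δ / 2 * (d * (P.card : ℝ) ^ 2)) := by
          rw [sum_const, card_range, nsmul_eq_mul]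
          push_cast
          ring
  have hlast : ((J : ℝ) + 1) * (δ / 2 * (d * (P.card : ℝ) ^ 2)) ≤ δ / 2 * (P.card : ℝ) ^ 2 := by
    have h6 : ((J : ℝ) + 1) * d ≤ 1 := by linarith
    have h7 : 0 ≤ δ / 2 * (P.card : ℝ) ^ 2 := by positivity
    calc ((J : ℝ) + 1) * (δ / 2 * (d * (P.card : ℝ) ^ 2))
        = (((J : ℝ) + 1) * d) * (δ / 2 * (P.card : ℝ) ^ 2) := by ring
      _ ≤ 1 * (δ / 2 * (P.card : ℝ) ^ 2) := mul_le_mul_of_nonneg_right h6 h7
      _ = _ := one_mul _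
  linarith

end Pool.Agent.H31.UE
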