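import Pool.Agent.H31.UE.Fou

/-!
# Loc: every interval of scales (statements)

The interval `[α, β]` of squared distances, `1/4 ≤ α`, `β ≤ 1`, of length at least `n^(-1/2)`, contains
at least `δ (β - α) n^2` squared distances of pairs. Then at least `c (β - α) n^(2/3)` of the scales
`α + j n^(-2/3) ≤ β` are hard.

Notation: `q = n^(-1/6)`, `sc P = q^3`, `dc P = q^4`, `ec P = 6 q^2`, `l = β - α`.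
-/

set_option autoImplicit false

namespace Pool.Agent.H31.UE

open Finset

/-- module `Geo`: two points of an annulus and of a strip; `v = b - a`, `v' = b - a'`, `w = b' - b` -/
def GeoStmt : Prop := ∀ (q l : ℝ) (v v' w : ℝ × ℝ), 0 < q → q ≤ 1 / 10 → 0 ≤ l →
  |v.2| ≤ v.1 → |v'.2| ≤ v'.1 → 1 / 4 ≤ v.1 ^ 2 + v.2 ^ 2 → 1 / 4 ≤ v'.1 ^ 2 + v'.2 ^ 2 →
  |(v.1 ^ 2 + v.2 ^ 2) - (v'.1 ^ 2 + v'.2 ^ 2)| ≤ l →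
  q ^ 3 < |w.2| → |w.2| < 6 * q ^ 2 → |w.1| ≤ |w.2| + 3 * q ^ 4 →
  |2 * (v.1 * w.1 + v.2 * w.2) + (w.1 ^ 2 + w.2 ^ 2)| < q ^ 4 →
  |2 * (v'.1 * w.1 + v'.2 * w.2) + (w.1 ^ 2 + w.2 ^ 2)| < q ^ 4 →
  |v.1 - v'.1| ≤ 2 * (l + q ^ 4 / |w.2|) ∧ |v.2 - v'.2| ≤ 3 * (l + q ^ 4 / |w.2|)

open Classical in
/-- module `Ann` -/
def AnnStmt : Prop := ∀ C0 : ℕ, ∃ C : ℝ, 0 < C ∧ ∀ P : Finset (ℝ × ℝ), P.Nonempty →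
  Spread C0 P → ∀ α β : ℝ, 1 / 4 ≤ α → β ≤ 1 → sc P ≤ β - α → ∀ b : ℝ × ℝ,
  ((P.filter fun a => Hp a b ∧ α ≤ sq a b ∧ sq a b ≤ β).card : ℝ) ≤ C * P.card * (β - α)

open Classical in
/-- module `Sln` (uses `Geo`) -/
def SlnStmt : Prop := ∀ C0 : ℕ, ∃ C : ℝ, 0 < C ∧ ∀ P : Finset (ℝ × ℝ), P.Nonempty →
  Spread C0 P → ∀ α β : ℝ, 1 / 4 ≤ α → β ≤ 1 → sc P ≤ β - α →
  ∀ b b' : ℝ × ℝ, sc P < |b'.2 - b.2| → |b'.2 - b.2| < ec P →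
  |b'.1 - b.1| ≤ |b'.2 - b.2| + 3 * dc P →
  ((P.filter fun a => Hp a b ∧ α ≤ sq a b ∧ sq a b ≤ β ∧ |sq a b - sq a b'| < dc P).card : ℝ) ≤
    C * P.card * (β - α) * (dc P / |b'.2 - b.2| + sc P)

open Classical in
/-- module `Trl` (uses `Ann`, `Sln`, `Sum`); `z = (a, b, b')` -/
def TrlStmt : Prop := ∀ C0 : ℕ, ∃ C : ℝ, 0 < C ∧ ∀ P : Finset (ℝ × ℝ), P.Nonempty →
  Spread C0 P → ∀ α β : ℝ, 1 / 4 ≤ α → β ≤ 1 → sc P ≤ β - α →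
  (((P ×ˢ P ×ˢ P).filter fun z => Hp z.1 z.2.1 ∧ Hp z.1 z.2.2 ∧ α ≤ sq z.1 z.2.1 ∧
    sq z.1 z.2.1 ≤ β ∧ |sq z.1 z.2.1 - sq z.1 z.2.2| < dc P ∧
    |z.2.2.2 - z.2.1.2| < ec P).card : ℝ) ≤ C * (β - α) * (P.card : ℝ) ^ 2

open Classical in
/-- module `Mil` (uses `Trl`): the mirror image; `z = (b, a, a')` -/
def MilStmt : Prop := ∀ C0 : ℕ, ∃ C : ℝ, 0 < C ∧ ∀ P : Finset (ℝ × ℝ), P.Nonempty →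
  Spread C0 P → ∀ α β : ℝ, 1 / 4 ≤ α → β ≤ 1 → sc P ≤ β - α →
  (((P ×ˢ P ×ˢ P).filter fun z => Hp z.2.1 z.1 ∧ Hp z.2.2 z.1 ∧ α ≤ sq z.2.1 z.1 ∧
    sq z.2.1 z.1 ≤ β ∧ |sq z.2.1 z.1 - sq z.2.2 z.1| < dc P ∧
    |z.2.2.2 - z.2.1.2| < ec P).card : ℝ) ≤ C * (β - α) * (P.card : ℝ) ^ 2

open Classical in
/-- module `Avl` (uses `Upp`) -/
def AvlStmt : Prop := ∀ δ C : ℝ, 0 < δ → 0 < C → ∃ (c : ℝ) (K : ℕ), 0 < c ∧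
  ∀ P : Finset (ℝ × ℝ), 300 ≤ P.card → ∀ α β : ℝ, 1 / 4 ≤ α → β ≤ 1 → sc P ≤ β - α →
  (((P ×ˢ P ×ˢ P).filter fun z => Hp z.1 z.2.1 ∧ Hp z.1 z.2.2 ∧ α ≤ sq z.1 z.2.1 ∧
    sq z.1 z.2.1 ≤ β ∧ |sq z.1 z.2.1 - sq z.1 z.2.2| < dc P ∧
    |z.2.2.2 - z.2.1.2| < ec P).card : ℝ) ≤ C * (β - α) * (P.card : ℝ) ^ 2 →
  (((P ×ˢ P ×ˢ P).filter fun z => Hp z.2.1 z.1 ∧ Hp z.2.2 z.1 ∧ α ≤ sq z.2.1 z.1 ∧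
    sq z.2.1 z.1 ≤ β ∧ |sq z.2.1 z.1 - sq z.2.2 z.1| < dc P ∧
    |z.2.2.2 - z.2.1.2| < ec P).card : ℝ) ≤ C * (β - α) * (P.card : ℝ) ^ 2 →
  δ * (β - α) * (P.card : ℝ) ^ 2 ≤ ((P ×ˢ P).filter fun z => Hp z.1 z.2 ∧ α ≤ sq z.1 z.2 ∧
    sq z.1 z.2 ≤ β).card →
  ∃ J : Finset ℕ, c * (β - α) * (P.card : ℝ) ^ (2 / 3 : ℝ) ≤ J.card ∧
    ∀ j ∈ J, α + j * dc P ≤ β ∧ c * (P.card : ℝ) ^ (4 / 3 : ℝ) ≤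
      ((P ×ˢ P).filter fun z => NearR (α + j * dc P) (dc P) z.1 z.2 ∧ Hp z.1 z.2 ∧
        Good P (α + j * dc P) (dc P) (ec P) K z.1 z.2).card

open Classical in
/-- the theorem for horizontal pairs -/
def MainHw : Prop := ∀ (C0 : ℕ) (δ : ℝ), 0 < δ → ∃ c : ℝ, 0 < c ∧ ∀ P : Finset (ℝ × ℝ),
  300 ≤ P.card → Spread C0 P → ∀ α β : ℝ, 1 / 4 ≤ α → β ≤ 1 → sc P ≤ β - α →
  δ * (β - α) * (P.card : ℝ) ^ 2 ≤ ((P ×ˢ P).filter fun z => Hp z.1 z.2 ∧ α ≤ sq z.1 z.2 ∧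
    sq z.1 z.2 ≤ β).card →
  ∃ J : Finset ℕ, c * (β - α) * (P.card : ℝ) ^ (2 / 3 : ℝ) ≤ J.card ∧
    ∀ j ∈ J, α + j * dc P ≤ β ∧
    ∀ (m : ℕ) (t d : Fin m → ℕ) (A B : Fin m → Finset (ℝ × ℝ)),
    (∀ i, ConjT (α + j * dc P) (t i) (d i) (A i) (B i)) →
    (∀ p ∈ P, ∀ q ∈ P, NearR (α + j * dc P) (dc P) p q →
      ∃ i, (p ∈ A i ∧ q ∈ B i) ∨ (q ∈ A i ∧ p ∈ B i)) →
    c * (P.card : ℝ) ^ (4 / 3 : ℝ) ≤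
      ∑ i, (t i : ℝ) * (5 * Real.log P.card) ^ (d i) * (((A i).card : ℝ) + ((B i).card : ℝ))

open Classical in
/-- the theorem -/
def MainW : Prop := ∀ (C0 : ℕ) (δ : ℝ), 0 < δ → ∃ c : ℝ, 0 < c ∧ ∀ P : Finset (ℝ × ℝ),
  300 ≤ P.card → Spread C0 P → ∀ α β : ℝ, 1 / 4 ≤ α → β ≤ 1 → sc P ≤ β - α →
  δ * (β - α) * (P.card : ℝ) ^ 2 ≤
    ((P ×ˢ P).filter fun z => α ≤ sq z.1 z.2 ∧ sq z.1 z.2 ≤ β).card →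
  ∃ J : Finset ℕ, c * (β - α) * (P.card : ℝ) ^ (2 / 3 : ℝ) ≤ J.card ∧
    ∀ j ∈ J, α + j * dc P ≤ β ∧
    ∀ (m : ℕ) (t d : Fin m → ℕ) (A B : Fin m → Finset (ℝ × ℝ)),
    (∀ i, ConjT (α + j * dc P) (t i) (d i) (A i) (B i)) →
    (∀ p ∈ P, ∀ q ∈ P, NearR (α + j * dc P) (dc P) p q →
      ∃ i, (p ∈ A i ∧ q ∈ B i) ∨ (q ∈ A i ∧ p ∈ B i)) →
    c * (P.card : ℝ) ^ (4 / 3 : ℝ) ≤
      ∑ i, (t i : ℝ) * (5 * Real.log P.card) ^ (d i) * (((A i).card : ℝ) + ((B i).card : ℝ))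

end Pool.Agent.H31.UE
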