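import Pool.Agent.H31.UE.Def

/-!
# Two: a positive proportion of the scales (statements)

`Upp`: at every scale there are at most `K n^(4/3)` good near pairs (for every `a` the good `b` are at
most `K` in every interval of heights of length `e`). Hence (`Avt`) a positive proportion of the
scales `r = 1/4 + j d` have at least `c n^(4/3)` good near pairs.
-/

set_option autoImplicit false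

namespace Pool.Agent.H31.UE

open Finset

open Classical in
/-- module `Upp` -/
def UppStmt : Prop := ∀ P : Finset (ℝ × ℝ), 300 ≤ P.card → ∀ (r : ℝ) (K : ℕ), r ≤ 1 →
  (((P ×ˢ P).filter fun z => NearR r (dc P) z.1 z.2 ∧ Hp z.1 z.2 ∧
      Good P r (dc P) (ec P) K z.1 z.2).card : ℝ) ≤ K * (P.card : ℝ) ^ (4 / 3 : ℝ)

open Classical in
/-- module `Avt` (uses `Upp`) -/
def AvtStmt : Prop := ∀ δ C : ℝ, 0 < δ → 0 < C → ∃ (c : ℝ) (K : ℕ), 0 < c ∧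
  ∀ P : Finset (ℝ × ℝ), 300 ≤ P.card →
  (((P ×ˢ P ×ˢ P).filter fun z => Hp z.1 z.2.1 ∧ Hp z.1 z.2.2 ∧ 1 / 4 ≤ sq z.1 z.2.1 ∧
    sq z.1 z.2.1 ≤ 2 ∧ |sq z.1 z.2.1 - sq z.1 z.2.2| < dc P ∧
    |z.2.2.2 - z.2.1.2| < ec P).card : ℝ) ≤ C * (P.card : ℝ) ^ 2 →
  (((P ×ˢ P ×ˢ P).filter fun z => Hp z.2.1 z.1 ∧ Hp z.2.2 z.1 ∧ 1 / 4 ≤ sq z.2.1 z.1 ∧
    sq z.2.1 z.1 ≤ 2 ∧ |sq z.2.1 z.1 - sq z.2.2 z.1| < dc P ∧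
    |z.2.2.2 - z.2.1.2| < ec P).card : ℝ) ≤ C * (P.card : ℝ) ^ 2 →
  δ * (P.card : ℝ) ^ 2 ≤ ((P ×ˢ P).filter fun z => Hp z.1 z.2 ∧ 1 / 4 ≤ sq z.1 z.2 ∧
    sq z.1 z.2 ≤ 1).card →
  ∃ J : Finset ℕ, c * (P.card : ℝ) ^ (2 / 3 : ℝ) ≤ J.card ∧
    ∀ j ∈ J, 1 / 4 + j * dc P ≤ 1 ∧ c * (P.card : ℝ) ^ (4 / 3 : ℝ) ≤
      ((P ×ˢ P).filter fun z => NearR (1 / 4 + j * dc P) (dc P) z.1 z.2 ∧ Hp z.1 z.2 ∧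
        Good P (1 / 4 + j * dc P) (dc P) (ec P) K z.1 z.2).card

open Classical in
/-- the theorem for horizontal pairs -/
def MainHt : Prop := ∀ (C0 : ℕ) (δ : ℝ), 0 < δ → ∃ c : ℝ, 0 < c ∧ ∀ P : Finset (ℝ × ℝ),
  300 ≤ P.card → Spread C0 P →
  δ * (P.card : ℝ) ^ 2 ≤ ((P ×ˢ P).filter fun z => Hp z.1 z.2 ∧ 1 / 4 ≤ sq z.1 z.2 ∧
    sq z.1 z.2 ≤ 1).card →
  ∃ J : Finset ℕ, c * (P.card : ℝ) ^ (2 / 3 : ℝ) ≤ J.card ∧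
    ∀ j ∈ J, 1 / 4 + j * dc P ≤ 1 ∧
    ∀ (m : ℕ) (t : Fin m → ℕ) (A B : Fin m → Finset (ℝ × ℝ)),
    (∀ i, ConjR (1 / 4 + j * dc P) (t i) (A i) (B i)) →
    (∀ p ∈ P, ∀ q ∈ P, p ≠ q → ∃ i, (p ∈ A i ∧ q ∈ B i) ∨ (q ∈ A i ∧ p ∈ B i)) →
    c * (P.card : ℝ) ^ (4 / 3 : ℝ) ≤ ∑ i, (t i : ℝ) * (((A i).card : ℝ) + ((B i).card : ℝ))

open Classical in
/-- module `Swt`: `MainHt → MainT` -/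
def MainT : Prop := ∀ (C0 : ℕ) (δ : ℝ), 0 < δ → ∃ c : ℝ, 0 < c ∧ ∀ P : Finset (ℝ × ℝ),
  300 ≤ P.card → Spread C0 P →
  δ * (P.card : ℝ) ^ 2 ≤ ((P ×ˢ P).filter fun z => 1 / 4 ≤ sq z.1 z.2 ∧ sq z.1 z.2 ≤ 1).card →
  ∃ J : Finset ℕ, c * (P.card : ℝ) ^ (2 / 3 : ℝ) ≤ J.card ∧
    ∀ j ∈ J, 1 / 4 + j * dc P ≤ 1 ∧
    ∀ (m : ℕ) (t : Fin m → ℕ) (A B : Fin m → Finset (ℝ × ℝ)),
    (∀ i, ConjR (1 / 4 + j * dc P) (t i) (A i) (B i)) →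
    (∀ p ∈ P, ∀ q ∈ P, p ≠ q → ∃ i, (p ∈ A i ∧ q ∈ B i) ∨ (q ∈ A i ∧ p ∈ B i)) →
    c * (P.card : ℝ) ^ (4 / 3 : ℝ) ≤ ∑ i, (t i : ℝ) * (((A i).card : ℝ) + ((B i).card : ℝ))

end Pool.Agent.H31.UE
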