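import Pool.Agent.H31.UE.Avg
import Pool.Agent.H31.UE.Two

/-!
# A positive proportion of the scales
-/

set_option autoImplicit false

namespace Pool.Agent.H31.UE

open Finset AvgM

open Classical in
theorem avt (h : UppStmt) : AvtStmt := by
  intro δ C hδ hC
  obtain ⟨K, hK⟩ := exists_nat_ge (4 * C / δ)
  refine ⟨δ / (4 * ((K : ℝ) + 1)), K, by positivity, ?_⟩
  intro P hP h1 h2 h3
  have hU : ∀ r : ℝ, r ≤ 1 → (((P ×ˢ P).filter fun z => NearR r (dc P) z.1 z.2 ∧ Hp z.1 z.2 ∧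
      Good P r (dc P) (ec P) K z.1 z.2).card : ℝ) ≤ K * (P.card : ℝ) ^ (4 / 3 : ℝ) :=
    fun r hr => h P hP r K hr
  have hn : (300 : ℝ) ≤ (P.card : ℝ) := by exact_mod_cast hP
  have hn0 : (0 : ℝ) < (P.card : ℝ) := by linarith
  have hd0 : 0 < dc P := Real.rpow_pos_of_pos hn0 _
  have hd4 : dc P ≤ 1 / 4 := by
    have h8 : (8 : ℝ) ^ (-(2 / 3) : ℝ) = 1 / 4 := by
      rw [show (8 : ℝ) = (2 : ℝ) ^ (3 : ℝ) by norm_num, ← Real.rpow_mul (by norm_num),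
        show (3 : ℝ) * -(2 / 3) = -(2 : ℝ) by norm_num, Real.rpow_neg (by norm_num)]
      norm_num
    calc dc P = (P.card : ℝ) ^ (-(2 / 3) : ℝ) := rfl
      _ ≤ (8 : ℝ) ^ (-(2 / 3) : ℝ) :=
        Real.rpow_le_rpow_of_nonpos (by norm_num) (by linarith) (by norm_num)
      _ = 1 / 4 := h8
  have hdn : (P.card : ℝ) ^ (4 / 3 : ℝ) = dc P * (P.card : ℝ) ^ 2 := by
    unfold dc
    rw [← Real.rpow_natCast, ← Real.rpow_add hn0]
    norm_num
  have hdm : (P.card : ℝ) ^ (2 / 3 : ℝ) * dc P = 1 := by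
    unfold dc
    rw [← Real.rpow_add hn0]
    norm_num
  generalize dc P = d at *
  generalize ec P = e at *
  rw [hdn] at hU ⊢
  -- the scales
  let J : ℕ := ⌊(3 / 4) / d⌋₊
  let r : ℕ → ℝ := fun j => 1 / 4 + (j : ℝ) * d
  let ix : (ℝ × ℝ) × (ℝ × ℝ) → ℕ := fun z => ⌊(sq z.1 z.2 - 1 / 4) / d⌋₊
  have hix1 : ∀ z : (ℝ × ℝ) × (ℝ × ℝ), 1 / 4 ≤ sq z.1 z.2 → NearR (r (ix z)) d z.1 z.2 := by
    intro z hz
    have ha : (ix z : ℝ) ≤ (sq z.1 z.2 - 1 / 4) / d :=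
      Nat.floor_le (div_nonneg (by linarith) hd0.le)
    have hb : (sq z.1 z.2 - 1 / 4) / d < (ix z : ℝ) + 1 := Nat.lt_floor_add_one _
    rw [le_div_iff₀ hd0] at ha
    rw [div_lt_iff₀ hd0] at hb
    refine ⟨?_, ?_⟩
    · show 1 / 4 + (ix z : ℝ) * d ≤ _
      linarith
    · show _ < 1 / 4 + (ix z : ℝ) * d + d
      linarith
  have hixJ : ∀ z : (ℝ × ℝ) × (ℝ × ℝ), sq z.1 z.2 ≤ 1 → ix z ≤ J := by
    intro z hz
    exact Nat.floor_le_floor (div_le_div_of_nonneg_right (by linarith) hd0.le)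
  have hJ : (J : ℝ) * d ≤ 3 / 4 := by
    have := Nat.floor_le (a := (3 / 4) / d) (by positivity)
    rwa [le_div_iff₀ hd0] at this
  -- the sets
  let S : Finset ((ℝ × ℝ) × (ℝ × ℝ)) := (P ×ˢ P).filter fun z => Hp z.1 z.2 ∧
    1 / 4 ≤ sq z.1 z.2 ∧ sq z.1 z.2 ≤ 1
  let F1 : (ℝ × ℝ) × (ℝ × ℝ) → Finset (ℝ × ℝ) := fun z =>
    P.filter fun b' => NearR (r (ix z)) d z.1 b' ∧ Hp z.1 b' ∧ |b'.2 - z.2.2| < e
  let F2 : (ℝ × ℝ) × (ℝ × ℝ) → Finset (ℝ × ℝ) := fun z =>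
    P.filter fun a' => NearR (r (ix z)) d a' z.2 ∧ Hp a' z.2 ∧ |a'.2 - z.1.2| < e
  have hSc : δ * (P.card : ℝ) ^ 2 ≤ (S.card : ℝ) := by
    exact h3
  -- the bad pairs
  have hB1 : ((S.filter fun z => K < (F1 z).card).card : ℝ) ≤ δ / 4 * (P.card : ℝ) ^ 2 := by
    refine card_bound hδ hC hK (count1 _ _ (K + 1) ?_) h1
    intro z hz
    rw [mem_filter] at hz
    obtain ⟨hz1, hz2⟩ := hz
    rw [mem_filter] at hz1
    obtain ⟨hzP, hzH, hz4, hz5⟩ := hz1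
    rw [mem_product] at hzP
    refine ⟨F1 z, hz2, fun x hx => ?_⟩
    rw [mem_filter] at hx
    obtain ⟨hxP, hx1, hx2, hx3⟩ := hx
    rw [mem_filter, mem_product, mem_product]
    have hq := hix1 z hz4
    refine ⟨⟨hzP.1, hzP.2, hxP⟩, hzH, hx2, hz4, by show sq z.1 z.2 ≤ 2; linarith, ?_, hx3⟩
    show |sq z.1 z.2 - sq z.1 x| < d
    obtain ⟨hq1, hq2⟩ := hq
    obtain ⟨hy1, hy2⟩ := hx1
    rw [abs_lt]
    constructor <;> linarith
  have hB2 : ((S.filter fun z => K < (F2 z).card).card : ℝ) ≤ δ / 4 * (P.card : ℝ) ^ 2 := by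
    refine card_bound hδ hC hK (count2 _ _ (K + 1) ?_) h2
    intro z hz
    rw [mem_filter] at hz
    obtain ⟨hz1, hz2⟩ := hz
    rw [mem_filter] at hz1
    obtain ⟨hzP, hzH, hz4, hz5⟩ := hz1
    rw [mem_product] at hzP
    refine ⟨F2 z, hz2, fun x hx => ?_⟩
    rw [mem_filter] at hx
    obtain ⟨hxP, hx1, hx2, hx3⟩ := hx
    rw [mem_filter, mem_product, mem_product]
    have hq := hix1 z hz4
    refine ⟨⟨hzP.2, hzP.1, hxP⟩, hzH, hx2, hz4, by show sq z.1 z.2 ≤ 2; linarith, ?_, hx3⟩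
    show |sq z.1 z.2 - sq x z.2| < d
    obtain ⟨hq1, hq2⟩ := hq
    obtain ⟨hy1, hy2⟩ := hx1
    rw [abs_lt]
    constructor <;> linarith
  -- the good pairs
  let S0 : Finset ((ℝ × ℝ) × (ℝ × ℝ)) := S.filter fun z => (F1 z).card ≤ K ∧ (F2 z).card ≤ K
  have hcov : S ⊆ (S.filter fun z => K < (F1 z).card) ∪ (S.filter fun z => K < (F2 z).card) ∪
      S0 := by
    intro z hz
    by_cases ha : K < (F1 z).card
    · exact mem_union_left _ (mem_union_left _ (mem_filter.2 ⟨hz, ha⟩))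
    · by_cases hb : K < (F2 z).card
      · exact mem_union_left _ (mem_union_right _ (mem_filter.2 ⟨hz, hb⟩))
      · exact mem_union_right _ (mem_filter.2 ⟨hz, not_lt.1 ha, not_lt.1 hb⟩)
  have hSle : (S.card : ℝ) ≤ ((S.filter fun z => K < (F1 z).card).card : ℝ) +
      ((S.filter fun z => K < (F2 z).card).card : ℝ) + (S0.card : ℝ) := by
    have h4 := (card_le_card hcov).trans ((card_union_le _ _).trans
      (Nat.add_le_add_right (card_union_le _ _) _))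
    exact_mod_cast h4
  have hS0 : S0.card = ∑ j ∈ range (J + 1), (S0.filter fun z => ix z = j).card := by
    refine card_eq_sum_card_fiberwise fun z hz => ?_
    have hz' := (mem_filter.1 (Finset.mem_coe.1 hz)).1
    have hz2 := (mem_filter.1 hz').2.2.2
    exact Finset.mem_coe.2 (mem_range.2 (Nat.lt_succ_of_le (hixJ z hz2)))
  -- the number of good near pairs at the scale `j`
  let N : ℕ → ℕ := fun j => ((P ×ˢ P).filter fun z => NearR (1 / 4 + (j : ℝ) * d) d z.1 z.2 ∧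
    Hp z.1 z.2 ∧ Good P (1 / 4 + (j : ℝ) * d) d e K z.1 z.2).card
  have hr2 : ∀ j ∈ range (J + 1), 1 / 4 + (j : ℝ) * d ≤ 1 := by
    intro j hj
    have hjJ : j ≤ J := Nat.lt_succ_iff.1 (mem_range.1 hj)
    have h5 : (j : ℝ) * d ≤ (J : ℝ) * d :=
      mul_le_mul_of_nonneg_right (by exact_mod_cast hjJ) hd0.le
    linarith
  have hfib : ∀ j ∈ range (J + 1), (S0.filter fun z => ix z = j).card ≤ N j := by
    intro j hj
    refine card_le_card fun z hz => ?_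
    rw [mem_filter] at hz
    obtain ⟨hz0, hzj⟩ := hz
    rw [mem_filter] at hz0
    obtain ⟨hzS, hzK1, hzK2⟩ := hz0
    rw [mem_filter] at hzS
    obtain ⟨hzP, hzH, hz4, hz5⟩ := hzS
    rw [mem_filter]
    have hq := hix1 z hz4
    rw [hzj] at hq
    refine ⟨hzP, hq, hzH, ?_, ?_⟩
    · refine le_trans (card_le_card fun x hx => ?_) hzK1
      rw [mem_filter] at hx ⊢
      rw [hzj]
      exact hx
    · refine le_trans (card_le_card fun x hx => ?_) hzK2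
      rw [mem_filter] at hx ⊢
      rw [hzj]
      exact hx
  let c : ℝ := δ / (4 * ((K : ℝ) + 1))
  let G : Finset ℕ := (range (J + 1)).filter fun j => c * (d * (P.card : ℝ) ^ 2) ≤ (N j : ℝ)
  have hK0 : (0 : ℝ) < (K : ℝ) + 1 := by positivity
  have hc0 : 0 < c := by
    show 0 < δ / (4 * ((K : ℝ) + 1))
    positivity
  have hcK : c * ((K : ℝ) + 1) = δ / 4 := by
    show δ / (4 * ((K : ℝ) + 1)) * ((K : ℝ) + 1) = δ / 4
    field_simp
  have hc4 : c ≤ δ / 4 := by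
    rw [← hcK]
    have : (0 : ℝ) ≤ (K : ℝ) := Nat.cast_nonneg K
    nlinarith
  have hX : (0 : ℝ) < d * (P.card : ℝ) ^ 2 := by positivity
  have hsum : (S0.card : ℝ) ≤ (G.card : ℝ) * (((K : ℝ) + 1) * (d * (P.card : ℝ) ^ 2)) +
      ((J : ℝ) + 1) * (c * (d * (P.card : ℝ) ^ 2)) := by
    have a1 : (S0.card : ℝ) ≤ ∑ j ∈ range (J + 1), (N j : ℝ) := by
      rw [hS0]
      push_cast
      exact sum_le_sum fun j hj => by exact_mod_cast hfib j hj
    have a2 : ∀ j ∈ range (J + 1), (N j : ℝ) ≤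
        (if c * (d * (P.card : ℝ) ^ 2) ≤ (N j : ℝ) then
          ((K : ℝ) + 1) * (d * (P.card : ℝ) ^ 2) else 0) + c * (d * (P.card : ℝ) ^ 2) := by
      intro j hj
      have hp : 0 ≤ c * (d * (P.card : ℝ) ^ 2) := by positivity
      split_ifs with hif
      · have a3 : (N j : ℝ) ≤ K * (d * (P.card : ℝ) ^ 2) := hU _ (hr2 j hj)
        nlinarith
      · rw [not_le] at hif
        linarith
    refine a1.trans ((sum_le_sum a2).trans (le_of_eq ?_))
    rw [sum_add_distrib, ← sum_filter, sum_const, sum_const, card_range, nsmul_eq_mul,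
      nsmul_eq_mul]
    push_cast
    rfl
  have hlast : ((J : ℝ) + 1) * (c * (d * (P.card : ℝ) ^ 2)) ≤ δ / 4 * (P.card : ℝ) ^ 2 := by
    have h6 : ((J : ℝ) + 1) * d ≤ 1 := by linarith
    have h7 : 0 ≤ c * (P.card : ℝ) ^ 2 := by positivity
    calc ((J : ℝ) + 1) * (c * (d * (P.card : ℝ) ^ 2))
        = (((J : ℝ) + 1) * d) * (c * (P.card : ℝ) ^ 2) := by ring
      _ ≤ 1 * (c * (P.card : ℝ) ^ 2) := mul_le_mul_of_nonneg_right h6 h7
      _ = c * (P.card : ℝ) ^ 2 := one_mul _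
      _ ≤ _ := mul_le_mul_of_nonneg_right hc4 (by positivity)
  refine ⟨G, ?_, ?_⟩
  · show c * (P.card : ℝ) ^ (2 / 3 : ℝ) ≤ (G.card : ℝ)
    have b1 : δ / 4 * (P.card : ℝ) ^ 2 ≤
        (G.card : ℝ) * (((K : ℝ) + 1) * (d * (P.card : ℝ) ^ 2)) := by linarith
    have b2 : c * (P.card : ℝ) ^ 2 * ((K : ℝ) + 1) ≤
        (G.card : ℝ) * d * (P.card : ℝ) ^ 2 * ((K : ℝ) + 1) := by
      calc c * (P.card : ℝ) ^ 2 * ((K : ℝ) + 1) = c * ((K : ℝ) + 1) * (P.card : ℝ) ^ 2 := by ring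
        _ = δ / 4 * (P.card : ℝ) ^ 2 := by rw [hcK]
        _ ≤ _ := b1
        _ = _ := by ring
    have b3 := le_of_mul_le_mul_right b2 hK0
    have b4 : c ≤ (G.card : ℝ) * d := le_of_mul_le_mul_right b3 (by positivity)
    calc c * (P.card : ℝ) ^ (2 / 3 : ℝ) ≤ (G.card : ℝ) * d * (P.card : ℝ) ^ (2 / 3 : ℝ) :=
          mul_le_mul_of_nonneg_right b4 (by positivity)
      _ = (G.card : ℝ) * ((P.card : ℝ) ^ (2 / 3 : ℝ) * d) := by ring
      _ = (G.card : ℝ) := by rw [hdm, mul_one]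
  · intro j hj
    have hj' := mem_filter.1 hj
    exact ⟨hr2 j hj'.1, hj'.2⟩

end Pool.Agent.H31.UE
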