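import Pool.Agent.H31.UE.Key

/-!
# Few good near pairs in a block given by a conjunction of comparisons (module `Conj`: the name `Con` is reserved)

The edges `(a, b)` of the block which violate the comparison `f a < g b`: those with at most `K`
edges `(a', b)` at the height of `a` or above are at most `K |B|` in number, the same for below. For
any other edge there are `a'` and `a''` with edges to `b`, at least `e` above resp. below `a`. If `a`
had more than `K` partners `b` of this kind, then two of them, `b1` and `b2`, would differ by at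
least `e` in height; `keyR` gives `|a' - b2|^2 < r` and `|a'' - b1|^2 < r`, so
`g b1 ≤ f a' < g b2 ≤ f a'' < g b1`.
-/

set_option autoImplicit false

namespace Pool.Agent.H31.UE

namespace ConAux

open Finset

variable {r d e : ℝ}

/-- the contradiction -/
theorem cross (hr : 1 / 4 ≤ r) (hr1 : r ≤ 1) (hd : 0 < d) (hd' : d ≤ 1 / 40) (he : 0 < e)
    (hde : 36 * d ≤ e ^ 2) {a a1 a2 b1 b2 : ℝ × ℝ} {f g : ℝ × ℝ → ℝ}
    (n1 : NearR r d a b1) (h1 : Hp a b1) (n2 : NearR r d a b2) (h2 : Hp a b2)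
    (n3 : NearR r d a1 b1) (h3 : Hp a1 b1) (n4 : NearR r d a2 b2) (h4 : Hp a2 b2)
    (hb : b1.2 + e ≤ b2.2) (ha1 : a.2 + e ≤ a1.2) (ha2 : a2.2 + e ≤ a.2)
    (c1 : sq a1 b2 < r → f a1 < g b2) (c2 : sq a2 b1 < r → f a2 < g b1)
    (d1 : ¬ f a1 < g b1) (d2 : ¬ f a2 < g b2) : False := by
  have sqe : ∀ x y : ℝ × ℝ, (y.1 - x.1) ^ 2 + (y.2 - x.2) ^ 2 = sq x y := by
    intro x y
    unfold sq
    ring
  have k1 := keyR r d e hr hr1 hd hd' he hde (b1.1 - a.1, b1.2 - a.2) (b2.1 - a.1, b2.2 - a.2)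
    (b1.1 - a1.1, b1.2 - a1.2) h1 h2 h3
    (by rw [sqe]; exact n1.1) (by rw [sqe]; exact n1.2.le)
    (by rw [sqe]; exact n2.1) (by rw [sqe]; exact n2.2.le)
    (by rw [sqe]; exact n3.1) (by rw [sqe]; exact n3.2.le)
    (by simp only; linarith) (by simp only; linarith)
  have k2 := keyR r d e hr hr1 hd hd' he hde (b2.1 - a.1, b2.2 - a.2) (b2.1 - a2.1, b2.2 - a2.2)
    (b1.1 - a.1, b1.2 - a.2) h2 h4 h1
    (by rw [sqe]; exact n2.1) (by rw [sqe]; exact n2.2.le)
    (by rw [sqe]; exact n4.1) (by rw [sqe]; exact n4.2.le)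
    (by rw [sqe]; exact n1.1) (by rw [sqe]; exact n1.2.le)
    (by simp only; linarith) (by simp only; linarith)
  have e1 : sq a1 b2 < r := by
    refine lt_of_eq_of_lt ?_ k1
    unfold sq
    simp only
    ring
  have e2 : sq a2 b1 < r := by
    refine lt_of_eq_of_lt ?_ k2
    unfold sq
    simp only
    ring
  have i1 := c1 e1
  have i2 := c2 e2
  linarith

open Classical in
/-- a set of edges, each of which has at most `K` edges at the same `b`, at least as large in the
order `w` -/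
theorem extreme (E U : Finset ((ℝ × ℝ) × (ℝ × ℝ))) (P B : Finset (ℝ × ℝ)) (w : ℝ × ℝ → ℝ) (K : ℕ)
    (hB : ∀ z ∈ U, z.2 ∈ B) (hP : ∀ z ∈ U, z.1 ∈ P) (hUE : U ⊆ E)
    (hU : ∀ z ∈ U, (P.filter fun a' => (a', z.2) ∈ E ∧ w z.1 ≤ w a').card ≤ K) :
    U.card ≤ K * B.card := by
  refine card_le_mul_card_image_of_maps_to (f := fun z : (ℝ × ℝ) × (ℝ × ℝ) => z.2) hB K ?_
  intro b _
  rcases (U.filter fun z => z.2 = b).eq_empty_or_nonempty with h0 | h0
  · rw [h0]
    exact Nat.zero_le _
  · obtain ⟨z0, hz0, hmin⟩ := exists_min_image (U.filter fun z => z.2 = b) (fun z => w z.1) h0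
    rw [mem_filter] at hz0
    refine le_trans ?_ (hU z0 hz0.1)
    refine card_le_card_of_injOn (fun z => z.1) ?_ ?_
    · intro z hz
      have hz1 : z ∈ U.filter fun z => z.2 = b := hz
      have hz2 := hmin z hz1
      rw [mem_filter] at hz1
      rw [mem_coe, mem_filter]
      refine ⟨hP z hz1.1, ?_, hz2⟩
      rw [hz0.2, ← hz1.2]
      exact hUE hz1.1
    · intro z hz z' hz' hzz
      have hz1 : z ∈ U.filter fun z => z.2 = b := hz
      have hz2 : z' ∈ U.filter fun z => z.2 = b := hz'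
      rw [mem_filter] at hz1 hz2
      exact Prod.ext hzz (hz1.2.trans hz2.2.symm)

end ConAux

open Finset ConAux

open Classical in
theorem con : ConStmt := by
  intro r d e K hr hr1 hd hd' he hde P A B hA hB f g hfg
  obtain ⟨E, hE⟩ : ∃ E, E = (A ×ˢ B).filter fun z => NearR r d z.1 z.2 ∧ Hp z.1 z.2 ∧
    Good P r d e K z.1 z.2 ∧ ¬ f z.1 < g z.2 := ⟨_, rfl⟩
  rw [← hE]
  have mE : ∀ a b : ℝ × ℝ, (a, b) ∈ E → (a ∈ A ∧ b ∈ B) ∧ NearR r d a b ∧ Hp a b ∧
      Good P r d e K a b ∧ ¬ f a < g b := by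
    intro a b h
    rw [hE, mem_filter, mem_product] at h
    exact h
  obtain ⟨U1, hU1⟩ : ∃ U1, U1 = E.filter fun z =>
    (P.filter fun a' => (a', z.2) ∈ E ∧ z.1.2 ≤ a'.2).card ≤ K := ⟨_, rfl⟩
  obtain ⟨U2, hU2⟩ : ∃ U2, U2 = E.filter fun z =>
    (P.filter fun a' => (a', z.2) ∈ E ∧ -z.1.2 ≤ -a'.2).card ≤ K := ⟨_, rfl⟩
  obtain ⟨W, hW⟩ : ∃ W, W = E.filter fun z => z ∉ U1 ∧ z ∉ U2 := ⟨_, rfl⟩
  have h1 : U1.card ≤ K * B.card := by
    refine extreme E U1 P B (fun p => p.2) K ?_ ?_ ?_ ?_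
    · rintro ⟨a, b⟩ hz
      rw [hU1, mem_filter] at hz
      exact (mE a b hz.1).1.2
    · rintro ⟨a, b⟩ hz
      rw [hU1, mem_filter] at hz
      exact hA (mE a b hz.1).1.1
    · rw [hU1]
      exact filter_subset _ _
    · intro z hz
      rw [hU1, mem_filter] at hz
      exact hz.2
  have h2 : U2.card ≤ K * B.card := by
    refine extreme E U2 P B (fun p => -p.2) K ?_ ?_ ?_ ?_
    · rintro ⟨a, b⟩ hz
      rw [hU2, mem_filter] at hz
      exact (mE a b hz.1).1.2
    · rintro ⟨a, b⟩ hz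
      rw [hU2, mem_filter] at hz
      exact hA (mE a b hz.1).1.1
    · rw [hU2]
      exact filter_subset _ _
    · intro z hz
      rw [hU2, mem_filter] at hz
      exact hz.2
  -- above and below every edge of `W`
  have above : ∀ a b : ℝ × ℝ, (a, b) ∈ W → ∃ a', (a', b) ∈ E ∧ a.2 + e ≤ a'.2 := by
    intro a b h
    rw [hW, mem_filter] at h
    obtain ⟨hzE, hn1, -⟩ := h
    by_contra hno
    push Not at hno
    apply hn1
    rw [hU1, mem_filter]
    refine ⟨hzE, le_trans (card_le_card ?_) (mE a b hzE).2.2.2.1.2⟩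
    intro a' ha'
    rw [mem_filter] at ha' ⊢
    obtain ⟨hP', hE', hle⟩ := ha'
    simp only at hE' hle
    have hlt := hno a' hE'
    refine ⟨hP', (mE a' b hE').2.1, (mE a' b hE').2.2.1, ?_⟩
    rw [abs_lt]
    constructor <;> linarith
  have below : ∀ a b : ℝ × ℝ, (a, b) ∈ W → ∃ a', (a', b) ∈ E ∧ a'.2 + e ≤ a.2 := by
    intro a b h
    rw [hW, mem_filter] at h
    obtain ⟨hzE, -, hn1⟩ := h
    by_contra hno
    push Not at hno
    apply hn1
    rw [hU2, mem_filter]
    refine ⟨hzE, le_trans (card_le_card ?_) (mE a b hzE).2.2.2.1.2⟩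
    intro a' ha'
    rw [mem_filter] at ha' ⊢
    obtain ⟨hP', hE', hle⟩ := ha'
    simp only at hE' hle
    have hlt := hno a' hE'
    refine ⟨hP', (mE a' b hE').2.1, (mE a' b hE').2.2.1, ?_⟩
    rw [abs_lt]
    constructor <;> linarith
  have hWE : W ⊆ E := by
    rw [hW]
    exact filter_subset _ _
  have h3 : W.card ≤ K * A.card := by
    refine card_le_mul_card_image_of_maps_to (f := fun z : (ℝ × ℝ) × (ℝ × ℝ) => z.1) ?_ K ?_
    · rintro ⟨a, b⟩ hz
      exact (mE a b (hWE hz)).1.1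
    · intro a _
      by_contra hcon
      push Not at hcon
      have hne : (W.filter fun z => z.1 = a).Nonempty := by
        rw [← card_pos]
        omega
      obtain ⟨⟨a0, b1⟩, hz0, hmin⟩ := exists_min_image (W.filter fun z => z.1 = a)
        (fun z => z.2.2) hne
      rw [mem_filter] at hz0
      obtain ⟨hz1, hz2⟩ := hz0
      simp only at hz2
      subst hz2
      have hg := (mE a0 b1 (hWE hz1)).2.2.2.1.1
      obtain ⟨b2, hb2, hb3⟩ : ∃ b2, (a0, b2) ∈ W ∧ b1.2 + e ≤ b2.2 := by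
        by_contra hno
        push Not at hno
        have h4 : (W.filter fun z => z.1 = a0).card ≤
            (P.filter fun b' => NearR r d a0 b' ∧ Hp a0 b' ∧ |b'.2 - b1.2| < e).card := by
          refine card_le_card_of_injOn (fun z => z.2) ?_ ?_
          · rintro ⟨x, y⟩ hz
            have hz3 : (x, y) ∈ W.filter fun z => z.1 = a0 := hz
            have hz4 := hmin _ hz3
            rw [mem_filter] at hz3
            obtain ⟨hz5, hz6⟩ := hz3
            simp only at hz6 hz4
            subst hz6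
            have hz7 := mE x y (hWE hz5)
            have hz8 := hno y hz5
            rw [mem_coe, mem_filter]
            refine ⟨hB hz7.1.2, hz7.2.1, hz7.2.2.1, ?_⟩
            simp only
            rw [abs_lt]
            constructor <;> linarith
          · intro z hz z' hz' hzz
            have hz3 : z ∈ W.filter fun z => z.1 = a0 := hz
            have hz4 : z' ∈ W.filter fun z => z.1 = a0 := hz'
            rw [mem_filter] at hz3 hz4
            exact Prod.ext (hz3.2.trans hz4.2.symm) hzz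
        omega
      obtain ⟨a1, ha1, ha1'⟩ := above a0 b1 hz1
      obtain ⟨a2, ha2, ha2'⟩ := below a0 b2 hb2
      have m1 := mE _ _ (hWE hz1)
      have m2 := mE _ _ (hWE hb2)
      have m3 := mE _ _ ha1
      have m4 := mE _ _ ha2
      exact cross hr hr1 hd hd' he hde (f := f) (g := g) m1.2.1 m1.2.2.1 m2.2.1 m2.2.2.1
        m3.2.1 m3.2.2.1 m4.2.1 m4.2.2.1 hb3 ha1' ha2'
        (hfg a1 m3.1.1 b2 m2.1.2) (hfg a2 m4.1.1 b1 m1.1.2) m3.2.2.2.2 m4.2.2.2.2
  have h4 : E ⊆ U1 ∪ U2 ∪ W := by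
    intro z hz
    by_cases c1 : z ∈ U1
    · exact mem_union_left _ (mem_union_left _ c1)
    · by_cases c2 : z ∈ U2
      · exact mem_union_left _ (mem_union_right _ c2)
      · refine mem_union_right _ ?_
        rw [hW, mem_filter]
        exact ⟨hz, c1, c2⟩
  calc E.card ≤ (U1 ∪ U2 ∪ W).card := card_le_card h4
    _ ≤ U1.card + U2.card + W.card := (card_union_le _ _).trans
        (Nat.add_le_add_right (card_union_le _ _) _)
    _ ≤ K * B.card + K * B.card + K * A.card := Nat.add_le_add (Nat.add_le_add h1 h2) h3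
    _ = K * (A.card + 2 * B.card) := by ring

end Pool.Agent.H31.UE
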