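import Mathlib

/-!
# Every evenly distributed set is hard at some distance (MP_31a0d1_lc)

`P` is a set of `n` points of the plane, at most `C0` in every square of side `n^(-1/2)`, with at least
`δ n^2` pairs at distance between `1/2` and `1`. Then for some distance `√r` between `1/2` and `1` the
relation `dist < √r` on `P` has no cheap cover by blocks on which it is a conjunction of comparisons:
the cost is at least `c n^(4/3)`.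

PROOF. `s = n^(-1/2)`, `d = n^(-2/3)`, `e = 6 n^(-1/3)`. `NearR r d a b`: `r ≤ |a-b|^2 < r+d`.
`Hp a b`: `|b.2-a.2| ≤ b.1-a.1`. The scales are `r = 1/4 + j d`.
(`Strip`, `Sum`, `Tri`) the number of triples `a, b, b'` with `Hp a b`, `Hp a b'`, `|a-b|^2` and
`|a-b'|^2` nearer than `d` and `|b.2-b'.2| < e` is at most `C n^2`. (`Avg`) so at some scale there are
`c n^2 d` near pairs which are `Good`. (`Con`) a block on which `dist < √r` is a conjunction of `t`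
comparisons has at most `3 K t (|A|+|B|)` good near pairs.
-/

set_option autoImplicit false

namespace Pool.Agent.H31.UE

open Finset

/-- the squared distance -/
def sq (a b : ℝ × ℝ) : ℝ := (a.1 - b.1) ^ 2 + (a.2 - b.2) ^ 2

/-- `b - a` is in the direction of the positive first axis, up to 45 degrees -/
def Hp (a b : ℝ × ℝ) : Prop := |b.2 - a.2| ≤ b.1 - a.1

/-- the squared distance is in `[r, r+d)` -/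
def NearR (r d : ℝ) (a b : ℝ × ℝ) : Prop := r ≤ sq a b ∧ sq a b < r + d

noncomputable def sc (P : Finset (ℝ × ℝ)) : ℝ := (P.card : ℝ) ^ (-(1 / 2) : ℝ)
noncomputable def dc (P : Finset (ℝ × ℝ)) : ℝ := (P.card : ℝ) ^ (-(2 / 3) : ℝ)
noncomputable def ec (P : Finset (ℝ × ℝ)) : ℝ := 6 * (P.card : ℝ) ^ (-(1 / 3) : ℝ)

open Classical in
/-- At most `C0` points of `P` in every square with sides parallel to the axes, of side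
`n ^ (-1/2)`, where `n` is the number of points of `P`. -/
def Spread (C0 : ℕ) (P : Finset (ℝ × ℝ)) : Prop := ∀ x y : ℝ,
  (P.filter fun p => x ≤ p.1 ∧ p.1 ≤ x + sc P ∧ y ≤ p.2 ∧ p.2 ≤ y + sc P).card ≤ C0

open Classical in
/-- few near points at almost the same height, seen from `a` and from `b` -/
def Good (P : Finset (ℝ × ℝ)) (r d e : ℝ) (K : ℕ) (a b : ℝ × ℝ) : Prop :=
  (P.filter fun b' => NearR r d a b' ∧ Hp a b' ∧ |b'.2 - b.2| < e).card ≤ K ∧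
  (P.filter fun a' => NearR r d a' b ∧ Hp a' b ∧ |a'.2 - a.2| < e).card ≤ K

/-- On `A × B` the relation `dist < √r` is a conjunction of `t` comparisons. -/
def ConjR (r : ℝ) (t : ℕ) (A B : Finset (ℝ × ℝ)) : Prop :=
  ∃ f g : Fin t → ℝ × ℝ → ℝ, ∀ a ∈ A, ∀ b ∈ B, (sq a b < r ↔ ∀ k, f k a < g k b)

open Classical in
/-- module `Con` (uses `keyR`) -/
def ConStmt : Prop := ∀ (r d e : ℝ) (K : ℕ), 1 / 4 ≤ r → r ≤ 1 → 0 < d → d ≤ 1 / 40 → 0 < e →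
  36 * d ≤ e ^ 2 → ∀ P A B : Finset (ℝ × ℝ), A ⊆ P → B ⊆ P → ∀ f g : ℝ × ℝ → ℝ,
  (∀ a ∈ A, ∀ b ∈ B, sq a b < r → f a < g b) →
  ((A ×ˢ B).filter fun z => NearR r d z.1 z.2 ∧ Hp z.1 z.2 ∧ Good P r d e K z.1 z.2 ∧
    ¬ f z.1 < g z.2).card ≤ K * (A.card + 2 * B.card)

open Classical in
/-- module `Strip` -/
def StripStmt : Prop := ∀ C0 : ℕ, ∃ C : ℝ, 0 < C ∧ ∀ P : Finset (ℝ × ℝ), P.Nonempty →
  Spread C0 P → ∀ b b' : ℝ × ℝ, b.2 ≠ b'.2 → |b'.1 - b.1| ≤ |b'.2 - b.2| + 3 * dc P →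
  ((P.filter fun a => sq a b ≤ 2 ∧ |sq a b - sq a b'| < dc P).card : ℝ) ≤
    C * P.card * (dc P / |b'.2 - b.2| + sc P)

open Classical in
/-- module `Sum` -/
def SumStmt : Prop := ∀ C0 : ℕ, ∃ C : ℝ, 0 < C ∧ ∀ P : Finset (ℝ × ℝ), P.Nonempty →
  Spread C0 P → ∀ b : ℝ × ℝ,
  ∑ b' ∈ P.filter (fun b' => |b'.2 - b.2| < ec P ∧ |b'.1 - b.1| ≤ |b'.2 - b.2| + 3 * dc P),
    (if |b'.2 - b.2| ≤ sc P then (1 : ℝ) else dc P / |b'.2 - b.2| + sc P) ≤ C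

open Classical in
/-- module `Tri` (uses `Strip`, `Sum`); `z = (a, b, b')` -/
def TriStmt : Prop := ∀ C0 : ℕ, ∃ C : ℝ, 0 < C ∧ ∀ P : Finset (ℝ × ℝ), P.Nonempty →
  Spread C0 P →
  (((P ×ˢ P ×ˢ P).filter fun z => Hp z.1 z.2.1 ∧ Hp z.1 z.2.2 ∧ 1 / 4 ≤ sq z.1 z.2.1 ∧
    sq z.1 z.2.1 ≤ 2 ∧ |sq z.1 z.2.1 - sq z.1 z.2.2| < dc P ∧
    |z.2.2.2 - z.2.1.2| < ec P).card : ℝ) ≤ C * (P.card : ℝ) ^ 2

open Classical in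
/-- module `Avg`: the choice of the scale; the two hypotheses on triples are `TriStmt` for `P` and
for its mirror image; `z = (a, b, b')` resp. `z = (b, a, a')` -/
def AvgStmt : Prop := ∀ δ C : ℝ, 0 < δ → 0 < C → ∃ (c : ℝ) (K : ℕ), 0 < c ∧
  ∀ P : Finset (ℝ × ℝ), 300 ≤ P.card →
  (((P ×ˢ P ×ˢ P).filter fun z => Hp z.1 z.2.1 ∧ Hp z.1 z.2.2 ∧ 1 / 4 ≤ sq z.1 z.2.1 ∧
    sq z.1 z.2.1 ≤ 2 ∧ |sq z.1 z.2.1 - sq z.1 z.2.2| < dc P ∧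
    |z.2.2.2 - z.2.1.2| < ec P).card : ℝ) ≤ C * (P.card : ℝ) ^ 2 →
  (((P ×ˢ P ×ˢ P).filter fun z => Hp z.2.1 z.1 ∧ Hp z.2.2 z.1 ∧ 1 / 4 ≤ sq z.2.1 z.1 ∧
    sq z.2.1 z.1 ≤ 2 ∧ |sq z.2.1 z.1 - sq z.2.2 z.1| < dc P ∧
    |z.2.2.2 - z.2.1.2| < ec P).card : ℝ) ≤ C * (P.card : ℝ) ^ 2 →
  δ * (P.card : ℝ) ^ 2 ≤ ((P ×ˢ P).filter fun z => Hp z.1 z.2 ∧ 1 / 4 ≤ sq z.1 z.2 ∧
    sq z.1 z.2 ≤ 1).card →
  ∃ r : ℝ, 1 / 4 ≤ r ∧ r ≤ 1 ∧ c * (P.card : ℝ) ^ (4 / 3 : ℝ) ≤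
    ((P ×ˢ P).filter fun z => NearR r (dc P) z.1 z.2 ∧ Hp z.1 z.2 ∧
      Good P r (dc P) (ec P) K z.1 z.2).card

open Classical in
/-- module `Mir` (uses `Tri`): the mirror image; `z = (b, a, a')` -/
def Tri2Stmt : Prop := ∀ C0 : ℕ, ∃ C : ℝ, 0 < C ∧ ∀ P : Finset (ℝ × ℝ), P.Nonempty →
  Spread C0 P →
  (((P ×ˢ P ×ˢ P).filter fun z => Hp z.2.1 z.1 ∧ Hp z.2.2 z.1 ∧ 1 / 4 ≤ sq z.2.1 z.1 ∧
    sq z.2.1 z.1 ≤ 2 ∧ |sq z.2.1 z.1 - sq z.2.2 z.1| < dc P ∧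
    |z.2.2.2 - z.2.1.2| < ec P).card : ℝ) ≤ C * (P.card : ℝ) ^ 2

open Classical in
/-- the theorem for horizontal pairs -/
def MainH : Prop := ∀ (C0 : ℕ) (δ : ℝ), 0 < δ → ∃ c : ℝ, 0 < c ∧ ∀ P : Finset (ℝ × ℝ),
  300 ≤ P.card → Spread C0 P →
  δ * (P.card : ℝ) ^ 2 ≤ ((P ×ˢ P).filter fun z => Hp z.1 z.2 ∧ 1 / 4 ≤ sq z.1 z.2 ∧
    sq z.1 z.2 ≤ 1).card →
  ∃ r : ℝ, 1 / 4 ≤ r ∧ r ≤ 1 ∧ ∀ (m : ℕ) (t : Fin m → ℕ) (A B : Fin m → Finset (ℝ × ℝ)),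
    (∀ i, ConjR r (t i) (A i) (B i)) →
    (∀ p ∈ P, ∀ q ∈ P, p ≠ q → ∃ i, (p ∈ A i ∧ q ∈ B i) ∨ (q ∈ A i ∧ p ∈ B i)) →
    c * (P.card : ℝ) ^ (4 / 3 : ℝ) ≤ ∑ i, (t i : ℝ) * (((A i).card : ℝ) + ((B i).card : ℝ))

open Classical in
/-- the theorem -/
def MainStmt : Prop := ∀ (C0 : ℕ) (δ : ℝ), 0 < δ → ∃ c : ℝ, 0 < c ∧ ∀ P : Finset (ℝ × ℝ),
  300 ≤ P.card → Spread C0 P →
  δ * (P.card : ℝ) ^ 2 ≤ ((P ×ˢ P).filter fun z => 1 / 4 ≤ sq z.1 z.2 ∧ sq z.1 z.2 ≤ 1).card →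
  ∃ r : ℝ, 1 / 4 ≤ r ∧ r ≤ 1 ∧ ∀ (m : ℕ) (t : Fin m → ℕ) (A B : Fin m → Finset (ℝ × ℝ)),
    (∀ i, ConjR r (t i) (A i) (B i)) →
    (∀ p ∈ P, ∀ q ∈ P, p ≠ q → ∃ i, (p ∈ A i ∧ q ∈ B i) ∨ (q ∈ A i ∧ p ∈ B i)) →
    c * (P.card : ℝ) ^ (4 / 3 : ℝ) ≤ ∑ i, (t i : ℝ) * (((A i).card : ℝ) + ((B i).card : ℝ))

end Pool.Agent.H31.UE
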