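import Pool.Agent.H31.UE.Def

/-!
# Fin: the theorem for horizontal pairs from the modules
-/

set_option autoImplicit false

namespace Pool.Agent.H31.UE

open Finset

theorem sq_comm (a b : ℝ × ℝ) : sq a b = sq b a := by
  unfold sq
  ring

open Classical in
theorem block_bound (hcon : ConStmt) (r d e : ℝ) (K : ℕ) (hr : 1 / 4 ≤ r) (hr1 : r ≤ 1)
    (hd : 0 < d) (hd' : d ≤ 1 / 40) (he : 0 < e) (hde : 36 * d ≤ e ^ 2)
    (P : Finset (ℝ × ℝ)) (t : ℕ) (A B : Finset (ℝ × ℝ)) (hC : ConjR r t A B) :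
    ((((P.filter (· ∈ A)) ×ˢ (P.filter (· ∈ B))).filter fun z => NearR r d z.1 z.2 ∧ Hp z.1 z.2 ∧
      Good P r d e K z.1 z.2).card ≤ t * (K * (A.card + 2 * B.card))) ∧
    ((((P.filter (· ∈ B)) ×ˢ (P.filter (· ∈ A))).filter fun z => NearR r d z.1 z.2 ∧ Hp z.1 z.2 ∧
      Good P r d e K z.1 z.2).card ≤ t * (K * (B.card + 2 * A.card))) := by
  obtain ⟨f, g, hfg⟩ := hC
  have hA : (P.filter (· ∈ A)).card ≤ A.card :=
    card_le_card fun x hx => (mem_filter.1 hx).2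
  have hB : (P.filter (· ∈ B)).card ≤ B.card :=
    card_le_card fun x hx => (mem_filter.1 hx).2
  constructor
  · have h1 : (((P.filter (· ∈ A)) ×ˢ (P.filter (· ∈ B))).filter fun z => NearR r d z.1 z.2 ∧
        Hp z.1 z.2 ∧ Good P r d e K z.1 z.2) ⊆ (univ : Finset (Fin t)).biUnion fun k =>
        ((P.filter (· ∈ A)) ×ˢ (P.filter (· ∈ B))).filter fun z => NearR r d z.1 z.2 ∧
        Hp z.1 z.2 ∧ Good P r d e K z.1 z.2 ∧ ¬ f k z.1 < g k z.2 := by
      intro z hz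
      obtain ⟨hz1, hn, hh, hg⟩ := mem_filter.1 hz
      obtain ⟨ha, hb⟩ := mem_product.1 hz1
      have h2 : ¬ sq z.1 z.2 < r := not_lt.2 hn.1
      rw [hfg _ (mem_filter.1 ha).2 _ (mem_filter.1 hb).2] at h2
      push Not at h2
      obtain ⟨k, hk⟩ := h2
      rw [mem_biUnion]
      exact ⟨k, mem_univ k, mem_filter.2 ⟨hz1, hn, hh, hg, not_lt.2 hk⟩⟩
    refine (card_le_card h1).trans (card_biUnion_le.trans ?_)
    calc _ ≤ ∑ _k : Fin t, K * (A.card + 2 * B.card) := by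
          refine sum_le_sum fun k _ => ?_
          refine (hcon r d e K hr hr1 hd hd' he hde P _ _ (filter_subset _ _) (filter_subset _ _)
            (f k) (g k) ?_).trans (Nat.mul_le_mul_left _ (by omega))
          intro a ha b hb hab
          exact (hfg _ (mem_filter.1 ha).2 _ (mem_filter.1 hb).2).1 hab k
      _ = _ := by rw [sum_const, card_univ, Fintype.card_fin, smul_eq_mul]
  · have h1 : (((P.filter (· ∈ B)) ×ˢ (P.filter (· ∈ A))).filter fun z => NearR r d z.1 z.2 ∧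
        Hp z.1 z.2 ∧ Good P r d e K z.1 z.2) ⊆ (univ : Finset (Fin t)).biUnion fun k =>
        ((P.filter (· ∈ B)) ×ˢ (P.filter (· ∈ A))).filter fun z => NearR r d z.1 z.2 ∧
        Hp z.1 z.2 ∧ Good P r d e K z.1 z.2 ∧ ¬ -(g k z.1) < -(f k z.2) := by
      intro z hz
      obtain ⟨hz1, hn, hh, hg⟩ := mem_filter.1 hz
      obtain ⟨ha, hb⟩ := mem_product.1 hz1
      have h2 : ¬ sq z.2 z.1 < r := by
        rw [sq_comm]
        exact not_lt.2 hn.1
      rw [hfg _ (mem_filter.1 hb).2 _ (mem_filter.1 ha).2] at h2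
      push Not at h2
      obtain ⟨k, hk⟩ := h2
      rw [mem_biUnion]
      exact ⟨k, mem_univ k, mem_filter.2 ⟨hz1, hn, hh, hg, by
        rw [neg_lt_neg_iff]; exact not_lt.2 hk⟩⟩
    refine (card_le_card h1).trans (card_biUnion_le.trans ?_)
    calc _ ≤ ∑ _k : Fin t, K * (B.card + 2 * A.card) := by
          refine sum_le_sum fun k _ => ?_
          refine (hcon r d e K hr hr1 hd hd' he hde P _ _ (filter_subset _ _) (filter_subset _ _)
            (fun x => -(g k x)) (fun x => -(f k x)) ?_).trans (Nat.mul_le_mul_left _ (by omega))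
          intro a ha b hb hab
          rw [sq_comm] at hab
          exact neg_lt_neg ((hfg _ (mem_filter.1 hb).2 _ (mem_filter.1 ha).2).1 hab k)
      _ = _ := by rw [sum_const, card_univ, Fintype.card_fin, smul_eq_mul]

theorem numb (P : Finset (ℝ × ℝ)) (h : 300 ≤ P.card) : 0 < dc P ∧ dc P ≤ 1 / 40 ∧ 0 < ec P ∧
    36 * dc P ≤ ec P ^ 2 := by
  have hn : (300 : ℝ) ≤ P.card := by exact_mod_cast h
  have hn0 : (0 : ℝ) < P.card := by linarith
  have h1 : 0 < (P.card : ℝ) ^ (-(1 / 3) : ℝ) := Real.rpow_pos_of_pos hn0 _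
  have h2 : dc P = ((P.card : ℝ) ^ (-(1 / 3) : ℝ)) ^ 2 := by
    unfold dc
    rw [← Real.rpow_natCast ((P.card : ℝ) ^ (-(1 / 3) : ℝ)) 2, ← Real.rpow_mul hn0.le]
    norm_num
  refine ⟨Real.rpow_pos_of_pos hn0 _, ?_, by unfold ec; positivity, ?_⟩
  · have h3 : (40 : ℝ) ≤ (P.card : ℝ) ^ (2 / 3 : ℝ) := by
      have h4 : ((40 : ℝ) ^ (3 / 2 : ℝ)) ^ (2 / 3 : ℝ) = 40 := by
        rw [← Real.rpow_mul (by norm_num)]
        norm_num
      have h5 : (40 : ℝ) ^ (3 / 2 : ℝ) ≤ 300 := by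
        have h6 : ((40 : ℝ) ^ (3 / 2 : ℝ)) ^ 2 = 64000 := by
          rw [← Real.rpow_natCast, ← Real.rpow_mul (by norm_num)]
          norm_num
        have h7 : 0 < (40 : ℝ) ^ (3 / 2 : ℝ) := by positivity
        by_contra hc
        push Not at hc
        nlinarith
      calc (40 : ℝ) = ((40 : ℝ) ^ (3 / 2 : ℝ)) ^ (2 / 3 : ℝ) := h4.symm
        _ ≤ (P.card : ℝ) ^ (2 / 3 : ℝ) :=
          Real.rpow_le_rpow (by positivity) (by linarith) (by norm_num)
    unfold dc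
    rw [Real.rpow_neg hn0.le, one_div]
    exact inv_anti₀ (by norm_num) h3
  · unfold ec
    rw [h2, mul_pow]
    norm_num

open Classical in
theorem finH (hcon : ConStmt) (htri : TriStmt) (hmir : Tri2Stmt) (havg : AvgStmt) : MainH := by
  intro C0 δ hδ
  obtain ⟨C1, hC1, h1⟩ := htri C0
  obtain ⟨C2, hC2, h2⟩ := hmir C0
  obtain ⟨c, K, hc, h3⟩ := havg δ (C1 + C2) hδ (by linarith)
  refine ⟨c / (3 * K + 3), by positivity, ?_⟩
  intro P hP hS hpairs
  have hne : P.Nonempty := by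
    rw [← card_pos]
    omega
  have hsq : (0 : ℝ) ≤ (P.card : ℝ) ^ 2 := by positivity
  obtain ⟨r, hr, hr1, hcount⟩ := h3 P hP
    ((h1 P hne hS).trans (mul_le_mul_of_nonneg_right (by linarith) hsq))
    ((h2 P hne hS).trans (mul_le_mul_of_nonneg_right (by linarith) hsq)) hpairs
  refine ⟨r, hr, hr1, ?_⟩
  intro m t A B hE hcov
  obtain ⟨hd, hd', he, hde⟩ := numb P hP
  have hsub : ((P ×ˢ P).filter fun z => NearR r (dc P) z.1 z.2 ∧ Hp z.1 z.2 ∧
      Good P r (dc P) (ec P) K z.1 z.2) ⊆ (univ : Finset (Fin m)).biUnion fun i =>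
      (((P.filter (· ∈ A i)) ×ˢ (P.filter (· ∈ B i))).filter fun z => NearR r (dc P) z.1 z.2 ∧
        Hp z.1 z.2 ∧ Good P r (dc P) (ec P) K z.1 z.2) ∪
      (((P.filter (· ∈ B i)) ×ˢ (P.filter (· ∈ A i))).filter fun z => NearR r (dc P) z.1 z.2 ∧
        Hp z.1 z.2 ∧ Good P r (dc P) (ec P) K z.1 z.2) := by
    intro z hz
    obtain ⟨hz1, hz2⟩ := mem_filter.1 hz
    obtain ⟨ha, hb⟩ := mem_product.1 hz1
    have hne : z.1 ≠ z.2 := by
      intro h
      have h4 := hz2.1.1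
      rw [h] at h4
      unfold sq at h4
      simp only [sub_self] at h4
      norm_num at h4
      linarith
    obtain ⟨i, hi⟩ := hcov z.1 ha z.2 hb hne
    rw [mem_biUnion]
    refine ⟨i, mem_univ i, ?_⟩
    rcases hi with ⟨h5, h6⟩ | ⟨h5, h6⟩
    · exact mem_union_left _ (mem_filter.2 ⟨mem_product.2 ⟨mem_filter.2 ⟨ha, h5⟩,
        mem_filter.2 ⟨hb, h6⟩⟩, hz2⟩)
    · exact mem_union_right _ (mem_filter.2 ⟨mem_product.2 ⟨mem_filter.2 ⟨ha, h6⟩,
        mem_filter.2 ⟨hb, h5⟩⟩, hz2⟩)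
  have hbound : ((P ×ˢ P).filter fun z => NearR r (dc P) z.1 z.2 ∧ Hp z.1 z.2 ∧
      Good P r (dc P) (ec P) K z.1 z.2).card ≤
      ∑ i, t i * (3 * K * ((A i).card + (B i).card)) := by
    refine (card_le_card hsub).trans (card_biUnion_le.trans (sum_le_sum fun i _ => ?_))
    refine (card_union_le _ _).trans ?_
    obtain ⟨b1, b2⟩ := block_bound hcon r (dc P) (ec P) K hr hr1 hd hd' he hde P (t i) (A i) (B i)
      (hE i)
    refine (Nat.add_le_add b1 b2).trans (le_of_eq ?_)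
    ring
  have hb2 : (((P ×ˢ P).filter fun z => NearR r (dc P) z.1 z.2 ∧ Hp z.1 z.2 ∧
      Good P r (dc P) (ec P) K z.1 z.2).card : ℝ) ≤
      3 * K * ∑ i, (t i : ℝ) * (((A i).card : ℝ) + ((B i).card : ℝ)) := by
    have h4 : (((P ×ˢ P).filter fun z => NearR r (dc P) z.1 z.2 ∧ Hp z.1 z.2 ∧
      Good P r (dc P) (ec P) K z.1 z.2).card : ℝ) ≤
      ((∑ i, t i * (3 * K * ((A i).card + (B i).card)) : ℕ) : ℝ) := by exact_mod_cast hbound
    refine h4.trans (le_of_eq ?_)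
    push_cast
    rw [mul_sum]
    refine sum_congr rfl fun i _ => by ring
  have hS0 : 0 ≤ ∑ i, (t i : ℝ) * (((A i).card : ℝ) + ((B i).card : ℝ)) :=
    sum_nonneg fun i _ => by positivity
  rw [div_mul_eq_mul_div, div_le_iff₀ (by positivity)]
  calc c * (P.card : ℝ) ^ (4 / 3 : ℝ) ≤ _ := hcount
    _ ≤ 3 * K * ∑ i, (t i : ℝ) * (((A i).card : ℝ) + ((B i).card : ℝ)) := hb2
    _ ≤ (∑ i, (t i : ℝ) * (((A i).card : ℝ) + ((B i).card : ℝ))) * (3 * K + 3) := by linarith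

end Pool.Agent.H31.UE
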