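import Pool.Agent.H31.UE.Thr
import Pool.Agent.H31.UE.Fin
import Pool.Agent.H90.UD.Count

/-!
# Fit: conjunctions of decision trees, horizontal pairs
-/

set_option autoImplicit false

namespace Pool.Agent.H31.UE

open Finset

theorem dec_mono (Q : ℝ × ℝ → ℝ × ℝ → Prop) (D : ℕ) : ∀ S S' : Set ((ℝ × ℝ) × (ℝ × ℝ)),
    S' ⊆ S → Dec D Q S → Dec D Q S' := by
  induction D with
  | zero =>
    intro S S' hS h z hz z' hz'
    exact h z (hS hz) z' (hS hz')
  | succ D ih =>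
    rintro S S' hS ⟨f, g, h1, h2⟩
    exact ⟨f, g, ih _ _ (by rintro z ⟨hz, hz'⟩; exact ⟨hS hz, hz'⟩) h1,
      ih _ _ (by rintro z ⟨hz, hz'⟩; exact ⟨hS hz, hz'⟩) h2⟩

theorem dec_flip (Q : ℝ × ℝ → ℝ × ℝ → Prop) (D : ℕ) : ∀ S : Set ((ℝ × ℝ) × (ℝ × ℝ)),
    Dec D Q S → Dec D (fun a b => Q b a) {z | (z.2, z.1) ∈ S} := by
  induction D with
  | zero =>
    intro S h z hz z' hz'
    exact h _ hz _ hz'
  | succ D ih =>
    rintro S ⟨f, g, h1, h2⟩
    refine ⟨fun b => -(g b), fun a => -(f a), ?_, ?_⟩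
    · refine dec_mono _ _ _ _ ?_ (ih _ h1)
      rintro z ⟨hz, hz'⟩
      exact ⟨hz, neg_lt_neg_iff.1 hz'⟩
    · refine dec_mono _ _ _ _ ?_ (ih _ h2)
      rintro z ⟨hz, hz'⟩
      exact ⟨hz, fun h => hz' (neg_lt_neg_iff.2 h)⟩

open Classical in
theorem block_tree (htre : TreStmt) (r d e : ℝ) (K : ℕ) (hr : 1 / 4 ≤ r) (hr1 : r ≤ 1)
    (hd : 0 < d) (hd' : d ≤ 1 / 40) (he : 0 < e) (hde : 36 * d ≤ e ^ 2)
    (P : Finset (ℝ × ℝ)) (t D : ℕ) (A B : Finset (ℝ × ℝ)) (hC : ConjT r t D A B) :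
    ((((P.filter (· ∈ A)) ×ˢ (P.filter (· ∈ B))).filter fun z => NearR r d z.1 z.2 ∧ Hp z.1 z.2 ∧
      Good P r d e K z.1 z.2).card ≤
        t * ((A.card + B.card) * (2 * K * (Nat.clog 2 P.card + 2) ^ D))) ∧
    ((((P.filter (· ∈ B)) ×ˢ (P.filter (· ∈ A))).filter fun z => NearR r d z.1 z.2 ∧ Hp z.1 z.2 ∧
      Good P r d e K z.1 z.2).card ≤
        t * ((A.card + B.card) * (2 * K * (Nat.clog 2 P.card + 2) ^ D))) := by
  obtain ⟨Q, hQ, hfg⟩ := hC
  have hA : (P.filter (· ∈ A)).card ≤ A.card :=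
    card_le_card fun x hx => (mem_filter.1 hx).2
  have hB : (P.filter (· ∈ B)).card ≤ B.card :=
    card_le_card fun x hx => (mem_filter.1 hx).2
  constructor
  · have h1 : (((P.filter (· ∈ A)) ×ˢ (P.filter (· ∈ B))).filter fun z => NearR r d z.1 z.2 ∧
        Hp z.1 z.2 ∧ Good P r d e K z.1 z.2) ⊆ (univ : Finset (Fin t)).biUnion fun k =>
        ((P.filter (· ∈ A)) ×ˢ (P.filter (· ∈ B))).filter fun z => NearR r d z.1 z.2 ∧
        Hp z.1 z.2 ∧ Good P r d e K z.1 z.2 ∧ ¬ Q k z.1 z.2 := by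
      intro z hz
      obtain ⟨hz1, hn, hh, hg⟩ := mem_filter.1 hz
      obtain ⟨ha, hb⟩ := mem_product.1 hz1
      have h2 : ¬ sq z.1 z.2 < r := not_lt.2 hn.1
      rw [hfg _ (mem_filter.1 ha).2 _ (mem_filter.1 hb).2] at h2
      push Not at h2
      obtain ⟨k, hk⟩ := h2
      rw [mem_biUnion]
      exact ⟨k, mem_univ k, mem_filter.2 ⟨hz1, hn, hh, hg, hk⟩⟩
    refine (card_le_card h1).trans (card_biUnion_le.trans ?_)
    calc _ ≤ ∑ _k : Fin t, (A.card + B.card) * (2 * K * (Nat.clog 2 P.card + 2) ^ D) := by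
          refine sum_le_sum fun k _ => ?_
          refine (htre r d e K D hr hr1 hd hd' he hde P _ _ (filter_subset _ _)
            (filter_subset _ _) (Q k) (dec_mono _ _ _ _ ?_ (hQ k)) ?_).trans
            (Nat.mul_le_mul_right _ (by omega))
          · rintro z ⟨hz1, hz2⟩
            exact ⟨(mem_filter.1 hz1).2, (mem_filter.1 hz2).2⟩
          · intro a ha b hb hab
            exact (hfg _ (mem_filter.1 ha).2 _ (mem_filter.1 hb).2).1 hab k
      _ = _ := by rw [sum_const, card_univ, Fintype.card_fin, smul_eq_mul]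
  · have h1 : (((P.filter (· ∈ B)) ×ˢ (P.filter (· ∈ A))).filter fun z => NearR r d z.1 z.2 ∧
        Hp z.1 z.2 ∧ Good P r d e K z.1 z.2) ⊆ (univ : Finset (Fin t)).biUnion fun k =>
        ((P.filter (· ∈ B)) ×ˢ (P.filter (· ∈ A))).filter fun z => NearR r d z.1 z.2 ∧
        Hp z.1 z.2 ∧ Good P r d e K z.1 z.2 ∧ ¬ (fun a b => Q k b a) z.1 z.2 := by
      intro z hz
      obtain ⟨hz1, hn, hh, hg⟩ := mem_filter.1 hz
      obtain ⟨ha, hb⟩ := mem_product.1 hz1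
      have h2 : ¬ sq z.2 z.1 < r := by
        rw [sq_comm]
        exact not_lt.2 hn.1
      rw [hfg _ (mem_filter.1 hb).2 _ (mem_filter.1 ha).2] at h2
      push Not at h2
      obtain ⟨k, hk⟩ := h2
      rw [mem_biUnion]
      exact ⟨k, mem_univ k, mem_filter.2 ⟨hz1, hn, hh, hg, hk⟩⟩
    refine (card_le_card h1).trans (card_biUnion_le.trans ?_)
    calc _ ≤ ∑ _k : Fin t, (A.card + B.card) * (2 * K * (Nat.clog 2 P.card + 2) ^ D) := by
          refine sum_le_sum fun k _ => ?_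
          refine (htre r d e K D hr hr1 hd hd' he hde P _ _ (filter_subset _ _)
            (filter_subset _ _) (fun a b => Q k b a)
            (dec_mono _ _ _ _ ?_ (dec_flip _ _ _ (hQ k))) ?_).trans
            (Nat.mul_le_mul_right _ (by omega))
          · rintro z ⟨hz1, hz2⟩
            exact ⟨(mem_filter.1 hz2).2, (mem_filter.1 hz1).2⟩
          · intro a ha b hb hab
            rw [sq_comm] at hab
            exact (hfg _ (mem_filter.1 hb).2 _ (mem_filter.1 ha).2).1 hab k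
      _ = _ := by rw [sum_const, card_univ, Fintype.card_fin, smul_eq_mul]

open Classical in
theorem fit (htre : TreStmt) (htri : TriStmt) (hmir : Tri2Stmt) (havt : AvtStmt) : MainHu := by
  intro C0 δ hδ
  obtain ⟨C1, hC1, h1⟩ := htri C0
  obtain ⟨C2, hC2, h2⟩ := hmir C0
  obtain ⟨c, K, hc, h3⟩ := havt δ (C1 + C2) hδ (by linarith)
  refine ⟨c / (4 * K + 4), by positivity, ?_⟩
  intro P hP hS hpairs
  have hne : P.Nonempty := by
    rw [← card_pos]
    omega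
  have hsq : (0 : ℝ) ≤ (P.card : ℝ) ^ 2 := by positivity
  obtain ⟨J, hJ, hJ2⟩ := h3 P hP
    ((h1 P hne hS).trans (mul_le_mul_of_nonneg_right (by linarith) hsq))
    ((h2 P hne hS).trans (mul_le_mul_of_nonneg_right (by linarith) hsq)) hpairs
  have hcle : c / (4 * K + 4) ≤ c := div_le_self hc.le (by
    have : (0 : ℝ) ≤ K := by positivity
    linarith)
  refine ⟨J, (mul_le_mul_of_nonneg_right hcle (by positivity)).trans hJ, ?_⟩
  intro j hj
  obtain ⟨hr1, hcount⟩ := hJ2 j hj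
  refine ⟨hr1, ?_⟩
  intro m t D A B hE hcov
  obtain ⟨hd, hd', he, hde⟩ := numb P hP
  have hr : 1 / 4 ≤ 1 / 4 + (j : ℝ) * dc P := by
    have : (0 : ℝ) ≤ (j : ℝ) * dc P := by positivity
    linarith
  generalize 1 / 4 + (j : ℝ) * dc P = r at *
  have hsub : ((P ×ˢ P).filter fun z => NearR r (dc P) z.1 z.2 ∧ Hp z.1 z.2 ∧
      Good P r (dc P) (ec P) K z.1 z.2) ⊆ (univ : Finset (Fin m)).biUnion fun i =>
      (((P.filter (· ∈ A i)) ×ˢ (P.filter (· ∈ B i))).filter fun z => NearR r (dc P) z.1 z.2 ∧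
        Hp z.1 z.2 ∧ Good P r (dc P) (ec P) K z.1 z.2) ∪
      (((P.filter (· ∈ B i)) ×ˢ (P.filter (· ∈ A i))).filter fun z => NearR r (dc P) z.1 z.2 ∧
        Hp z.1 z.2 ∧ Good P r (dc P) (ec P) K z.1 z.2) := by
    intro z hz
    obtain ⟨hz1, hz2⟩ := mem_filter.1 hz
    obtain ⟨ha, hb⟩ := mem_product.1 hz1
    have hne : z.1 ≠ z.2 := by
      intro h
      have h4 := hz2.1.1
      rw [h] at h4
      unfold sq at h4
      simp only [sub_self] at h4
      norm_num at h4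
      linarith
    obtain ⟨i, hi⟩ := hcov z.1 ha z.2 hb hne
    rw [mem_biUnion]
    refine ⟨i, mem_univ i, ?_⟩
    rcases hi with ⟨h5, h6⟩ | ⟨h5, h6⟩
    · exact mem_union_left _ (mem_filter.2 ⟨mem_product.2 ⟨mem_filter.2 ⟨ha, h5⟩,
        mem_filter.2 ⟨hb, h6⟩⟩, hz2⟩)
    · exact mem_union_right _ (mem_filter.2 ⟨mem_product.2 ⟨mem_filter.2 ⟨ha, h6⟩,
        mem_filter.2 ⟨hb, h5⟩⟩, hz2⟩)
  have hbound : ((P ×ˢ P).filter fun z => NearR r (dc P) z.1 z.2 ∧ Hp z.1 z.2 ∧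
      Good P r (dc P) (ec P) K z.1 z.2).card ≤
      ∑ i, t i * (((A i).card + (B i).card) * (4 * K * (Nat.clog 2 P.card + 2) ^ (D i))) := by
    refine (card_le_card hsub).trans (card_biUnion_le.trans (sum_le_sum fun i _ => ?_))
    refine (card_union_le _ _).trans ?_
    obtain ⟨b1, b2⟩ := block_tree htre r (dc P) (ec P) K hr hr1 hd hd' he hde P (t i) (D i)
      (A i) (B i) (hE i)
    refine (Nat.add_le_add b1 b2).trans (le_of_eq ?_)
    ring
  have hn3 : 3 ≤ P.card := by omega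
  have hlog := Pool.Agent.H90.UD.clog_le hn3
  have hb2 : (((P ×ˢ P).filter fun z => NearR r (dc P) z.1 z.2 ∧ Hp z.1 z.2 ∧
      Good P r (dc P) (ec P) K z.1 z.2).card : ℝ) ≤
      4 * K * ∑ i, (t i : ℝ) * (5 * Real.log P.card) ^ (D i) *
        (((A i).card : ℝ) + ((B i).card : ℝ)) := by
    have h4 : (((P ×ˢ P).filter fun z => NearR r (dc P) z.1 z.2 ∧ Hp z.1 z.2 ∧
      Good P r (dc P) (ec P) K z.1 z.2).card : ℝ) ≤
      ((∑ i, t i * (((A i).card + (B i).card) * (4 * K * (Nat.clog 2 P.card + 2) ^ (D i))) : ℕ) :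
        ℝ) := by exact_mod_cast hbound
    refine h4.trans ?_
    push_cast
    rw [mul_sum]
    refine sum_le_sum fun i _ => ?_
    have h5 : ((Nat.clog 2 P.card : ℝ) + 2) ^ (D i) ≤ (5 * Real.log P.card) ^ (D i) :=
      pow_le_pow_left₀ (by positivity) hlog _
    calc (t i : ℝ) * ((((A i).card : ℝ) + (B i).card) * (4 * K *
          ((Nat.clog 2 P.card : ℝ) + 2) ^ (D i)))
        = (4 * K * (t i : ℝ) * (((A i).card : ℝ) + (B i).card)) *
          ((Nat.clog 2 P.card : ℝ) + 2) ^ (D i) := by ring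
      _ ≤ (4 * K * (t i : ℝ) * (((A i).card : ℝ) + (B i).card)) *
          (5 * Real.log P.card) ^ (D i) := mul_le_mul_of_nonneg_left h5 (by positivity)
      _ = _ := by ring
  have hlog0 : 0 ≤ 5 * Real.log P.card := le_trans (by positivity) hlog
  have hS0 : 0 ≤ ∑ i, (t i : ℝ) * (5 * Real.log P.card) ^ (D i) *
      (((A i).card : ℝ) + ((B i).card : ℝ)) :=
    sum_nonneg fun i _ => by positivity
  rw [div_mul_eq_mul_div, div_le_iff₀ (by positivity)]
  calc c * (P.card : ℝ) ^ (4 / 3 : ℝ) ≤ _ := hcount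
    _ ≤ 4 * K * ∑ i, (t i : ℝ) * (5 * Real.log P.card) ^ (D i) *
        (((A i).card : ℝ) + ((B i).card : ℝ)) := hb2
    _ ≤ (∑ i, (t i : ℝ) * (5 * Real.log P.card) ^ (D i) *
        (((A i).card : ℝ) + ((B i).card : ℝ))) * (4 * K + 4) := by linarith

end Pool.Agent.H31.UE
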