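import Pool.Agent.H31.UE.Fou
import Pool.Agent.H31.UE.Fit

/-!
# Fiv: conjunctions of decision trees, critical pairs only, horizontal pairs
-/

set_option autoImplicit false

namespace Pool.Agent.H31.UE

open Finset

open Classical in
theorem fiv (htre : TreStmt) (htri : TriStmt) (hmir : Tri2Stmt) (havt : AvtStmt) : MainHv := by
  intro C0 δ hδ
  obtain ⟨C1, hC1, h1⟩ := htri C0
  obtain ⟨C2, hC2, h2⟩ := hmir C0
  obtain ⟨c, K, hc, h3⟩ := havt δ (C1 + C2) hδ (by linarith)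
  refine ⟨c / (4 * K + 4), by positivity, ?_⟩
  intro P hP hS hpairs
  have hne : P.Nonempty := by
    rw [← card_pos]
    omega
  have hsq : (0 : ℝ) ≤ (P.card : ℝ) ^ 2 := by positivity
  obtain ⟨J, hJ, hJ2⟩ := h3 P hP
    ((h1 P hne hS).trans (mul_le_mul_of_nonneg_right (by linarith) hsq))
    ((h2 P hne hS).trans (mul_le_mul_of_nonneg_right (by linarith) hsq)) hpairs
  have hcle : c / (4 * K + 4) ≤ c := div_le_self hc.le (by
    have : (0 : ℝ) ≤ K := by positivity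
    linarith)
  refine ⟨J, (mul_le_mul_of_nonneg_right hcle (by positivity)).trans hJ, ?_⟩
  intro j hj
  obtain ⟨hr1, hcount⟩ := hJ2 j hj
  refine ⟨hr1, ?_⟩
  intro m t D A B hE hcov
  obtain ⟨hd, hd', he, hde⟩ := numb P hP
  have hr : 1 / 4 ≤ 1 / 4 + (j : ℝ) * dc P := by
    have : (0 : ℝ) ≤ (j : ℝ) * dc P := by positivity
    linarith
  generalize 1 / 4 + (j : ℝ) * dc P = r at *
  have hsub : ((P ×ˢ P).filter fun z => NearR r (dc P) z.1 z.2 ∧ Hp z.1 z.2 ∧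
      Good P r (dc P) (ec P) K z.1 z.2) ⊆ (univ : Finset (Fin m)).biUnion fun i =>
      (((P.filter (· ∈ A i)) ×ˢ (P.filter (· ∈ B i))).filter fun z => NearR r (dc P) z.1 z.2 ∧
        Hp z.1 z.2 ∧ Good P r (dc P) (ec P) K z.1 z.2) ∪
      (((P.filter (· ∈ B i)) ×ˢ (P.filter (· ∈ A i))).filter fun z => NearR r (dc P) z.1 z.2 ∧
        Hp z.1 z.2 ∧ Good P r (dc P) (ec P) K z.1 z.2) := by
    intro z hz
    obtain ⟨hz1, hz2⟩ := mem_filter.1 hz
    obtain ⟨ha, hb⟩ := mem_product.1 hz1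
    obtain ⟨i, hi⟩ := hcov z.1 ha z.2 hb hz2.1
    rw [mem_biUnion]
    refine ⟨i, mem_univ i, ?_⟩
    rcases hi with ⟨h5, h6⟩ | ⟨h5, h6⟩
    · exact mem_union_left _ (mem_filter.2 ⟨mem_product.2 ⟨mem_filter.2 ⟨ha, h5⟩,
        mem_filter.2 ⟨hb, h6⟩⟩, hz2⟩)
    · exact mem_union_right _ (mem_filter.2 ⟨mem_product.2 ⟨mem_filter.2 ⟨ha, h6⟩,
        mem_filter.2 ⟨hb, h5⟩⟩, hz2⟩)
  have hbound : ((P ×ˢ P).filter fun z => NearR r (dc P) z.1 z.2 ∧ Hp z.1 z.2 ∧
      Good P r (dc P) (ec P) K z.1 z.2).card ≤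
      ∑ i, t i * (((A i).card + (B i).card) * (4 * K * (Nat.clog 2 P.card + 2) ^ (D i))) := by
    refine (card_le_card hsub).trans (card_biUnion_le.trans (sum_le_sum fun i _ => ?_))
    refine (card_union_le _ _).trans ?_
    obtain ⟨b1, b2⟩ := block_tree htre r (dc P) (ec P) K hr hr1 hd hd' he hde P (t i) (D i)
      (A i) (B i) (hE i)
    refine (Nat.add_le_add b1 b2).trans (le_of_eq ?_)
    ring
  have hn3 : 3 ≤ P.card := by omega
  have hlog := Pool.Agent.H90.UD.clog_le hn3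
  have hb2 : (((P ×ˢ P).filter fun z => NearR r (dc P) z.1 z.2 ∧ Hp z.1 z.2 ∧
      Good P r (dc P) (ec P) K z.1 z.2).card : ℝ) ≤
      4 * K * ∑ i, (t i : ℝ) * (5 * Real.log P.card) ^ (D i) *
        (((A i).card : ℝ) + ((B i).card : ℝ)) := by
    have h4 : (((P ×ˢ P).filter fun z => NearR r (dc P) z.1 z.2 ∧ Hp z.1 z.2 ∧
      Good P r (dc P) (ec P) K z.1 z.2).card : ℝ) ≤
      ((∑ i, t i * (((A i).card + (B i).card) * (4 * K * (Nat.clog 2 P.card + 2) ^ (D i))) : ℕ) :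
        ℝ) := by exact_mod_cast hbound
    refine h4.trans ?_
    push_cast
    rw [mul_sum]
    refine sum_le_sum fun i _ => ?_
    have h5 : ((Nat.clog 2 P.card : ℝ) + 2) ^ (D i) ≤ (5 * Real.log P.card) ^ (D i) :=
      pow_le_pow_left₀ (by positivity) hlog _
    calc (t i : ℝ) * ((((A i).card : ℝ) + (B i).card) * (4 * K *
          ((Nat.clog 2 P.card : ℝ) + 2) ^ (D i)))
        = (4 * K * (t i : ℝ) * (((A i).card : ℝ) + (B i).card)) *
          ((Nat.clog 2 P.card : ℝ) + 2) ^ (D i) := by ring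
      _ ≤ (4 * K * (t i : ℝ) * (((A i).card : ℝ) + (B i).card)) *
          (5 * Real.log P.card) ^ (D i) := mul_le_mul_of_nonneg_left h5 (by positivity)
      _ = _ := by ring
  have hlog0 : 0 ≤ 5 * Real.log P.card := le_trans (by positivity) hlog
  have hS0 : 0 ≤ ∑ i, (t i : ℝ) * (5 * Real.log P.card) ^ (D i) *
      (((A i).card : ℝ) + ((B i).card : ℝ)) :=
    sum_nonneg fun i _ => by positivity
  rw [div_mul_eq_mul_div, div_le_iff₀ (by positivity)]
  calc c * (P.card : ℝ) ^ (4 / 3 : ℝ) ≤ _ := hcount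
    _ ≤ 4 * K * ∑ i, (t i : ℝ) * (5 * Real.log P.card) ^ (D i) *
        (((A i).card : ℝ) + ((B i).card : ℝ)) := hb2
    _ ≤ (∑ i, (t i : ℝ) * (5 * Real.log P.card) ^ (D i) *
        (((A i).card : ℝ) + ((B i).card : ℝ))) * (4 * K + 4) := by linarith

end Pool.Agent.H31.UE
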