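import Pool.Agent.H31.UE.Thr

/-!
# Fou: only the pairs at critical distance have to be covered (statements)
-/

set_option autoImplicit false

namespace Pool.Agent.H31.UE

open Finset

open Classical in
/-- the theorem for horizontal pairs; only the pairs with squared distance in `[r, r + n^(-2/3))`
have to be covered -/
def MainHv : Prop := ∀ (C0 : ℕ) (δ : ℝ), 0 < δ → ∃ c : ℝ, 0 < c ∧ ∀ P : Finset (ℝ × ℝ),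
  300 ≤ P.card → Spread C0 P →
  δ * (P.card : ℝ) ^ 2 ≤ ((P ×ˢ P).filter fun z => Hp z.1 z.2 ∧ 1 / 4 ≤ sq z.1 z.2 ∧
    sq z.1 z.2 ≤ 1).card →
  ∃ J : Finset ℕ, c * (P.card : ℝ) ^ (2 / 3 : ℝ) ≤ J.card ∧
    ∀ j ∈ J, 1 / 4 + j * dc P ≤ 1 ∧
    ∀ (m : ℕ) (t d : Fin m → ℕ) (A B : Fin m → Finset (ℝ × ℝ)),
    (∀ i, ConjT (1 / 4 + j * dc P) (t i) (d i) (A i) (B i)) →
    (∀ p ∈ P, ∀ q ∈ P, NearR (1 / 4 + j * dc P) (dc P) p q →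
      ∃ i, (p ∈ A i ∧ q ∈ B i) ∨ (q ∈ A i ∧ p ∈ B i)) →
    c * (P.card : ℝ) ^ (4 / 3 : ℝ) ≤
      ∑ i, (t i : ℝ) * (5 * Real.log P.card) ^ (d i) * (((A i).card : ℝ) + ((B i).card : ℝ))

open Classical in
/-- the theorem -/
def MainV : Prop := ∀ (C0 : ℕ) (δ : ℝ), 0 < δ → ∃ c : ℝ, 0 < c ∧ ∀ P : Finset (ℝ × ℝ),
  300 ≤ P.card → Spread C0 P →
  δ * (P.card : ℝ) ^ 2 ≤ ((P ×ˢ P).filter fun z => 1 / 4 ≤ sq z.1 z.2 ∧ sq z.1 z.2 ≤ 1).card →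
  ∃ J : Finset ℕ, c * (P.card : ℝ) ^ (2 / 3 : ℝ) ≤ J.card ∧
    ∀ j ∈ J, 1 / 4 + j * dc P ≤ 1 ∧
    ∀ (m : ℕ) (t d : Fin m → ℕ) (A B : Fin m → Finset (ℝ × ℝ)),
    (∀ i, ConjT (1 / 4 + j * dc P) (t i) (d i) (A i) (B i)) →
    (∀ p ∈ P, ∀ q ∈ P, NearR (1 / 4 + j * dc P) (dc P) p q →
      ∃ i, (p ∈ A i ∧ q ∈ B i) ∨ (q ∈ A i ∧ p ∈ B i)) →
    c * (P.card : ℝ) ^ (4 / 3 : ℝ) ≤
      ∑ i, (t i : ℝ) * (5 * Real.log P.card) ^ (d i) * (((A i).card : ℝ) + ((B i).card : ℝ))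

end Pool.Agent.H31.UE
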