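import Pool.Agent.H31.UE.Loc

set_option autoImplicit false

namespace Pool.Agent.H31.UE

namespace GeoAux

/-- the two bounds for `s + k` -/
private lemma ks (k s S : ℝ) (hS : 7 / 10 ≤ S)
    (hm1 : (k + s) * S ≤ 2614 / 10000) (hm2 : -(2614 / 10000) ≤ (k + s) * S) :
    24 / 25 ≤ 1 - s * k := by
  have hS0 : 0 ≤ S := by linarith
  have hks1 : k + s ≤ 38 / 100 := by
    by_contra hc
    push Not at hc
    have t : 38 / 100 * S ≤ (k + s) * S := mul_le_mul_of_nonneg_right hc.le hS0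
    linarith
  have hks2 : -(38 / 100) ≤ k + s := by
    by_contra hc
    push Not at hc
    have t : (k + s) * S ≤ -(38 / 100) * S := mul_le_mul_of_nonneg_right hc.le hS0
    linarith
  have e : 1 - s * k = 1 + k ^ 2 - k * (k + s) := by ring
  rw [e]
  have h8 : |k * (k + s)| ≤ |k| * (38 / 100) := by
    rw [abs_mul]
    exact mul_le_mul_of_nonneg_left (abs_le.mpr ⟨by linarith, by linarith⟩) (abs_nonneg _)
  have h9 := le_abs_self (k * (k + s))
  have h10 : |k| ^ 2 = k ^ 2 := sq_abs k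
  have h11 : 0 ≤ |k| ^ 2 - 38 / 100 * |k| + 361 / 10000 := by
    have h12 := sq_nonneg (|k| - 19 / 100)
    have h13 : (|k| - 19 / 100) ^ 2 = |k| ^ 2 - 38 / 100 * |k| + 361 / 10000 := by ring
    rw [← h13]
    exact h12
  linarith

/-- the last step -/
private lemma last (η l D E s k : ℝ) (hη : 0 ≤ η) (hl : 0 ≤ l) (hs : |s| ≤ 1)
    (hk : |k| ≤ 13 / 10) (hsk : 24 / 25 ≤ 1 - s * k) (hd : |k * D + E| ≤ η)
    (hann : |D + s * E| ≤ 10 / 7 * l) : |D| ≤ 2 * (l + η) ∧ |E| ≤ 3 * (l + η) := by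
  have hD1 : |D| * (24 / 25) ≤ 10 / 7 * l + η := by
    have e : D * (1 - s * k) = (D + s * E) - s * (k * D + E) := by ring
    have t1 : |(D + s * E) - s * (k * D + E)| ≤ |D + s * E| + |s * (k * D + E)| := abs_sub _ _
    have t2 : |s * (k * D + E)| ≤ 1 * η := by
      rw [abs_mul]
      exact mul_le_mul hs hd (abs_nonneg _) zero_le_one
    have e2 : |D * (1 - s * k)| = |D| * (1 - s * k) := by
      rw [abs_mul, abs_of_nonneg (by linarith : (0 : ℝ) ≤ 1 - s * k)]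
    have e3 : |D| * (24 / 25) ≤ |D| * (1 - s * k) :=
      mul_le_mul_of_nonneg_left hsk (abs_nonneg _)
    rw [← e, e2] at t1
    linarith
  have hE1 : |E| ≤ η + 13 / 10 * |D| := by
    have e : E = (k * D + E) - k * D := by ring
    have t1 : |(k * D + E) - k * D| ≤ |k * D + E| + |k * D| := abs_sub _ _
    have t2 : |k * D| ≤ 13 / 10 * |D| := by
      rw [abs_mul]
      exact mul_le_mul_of_nonneg_right hk (abs_nonneg _)
    rw [← e] at t1
    linarith
  constructor <;> linarith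

/-- the first coordinate of a horizontal vector -/
private lemma fst (a b : ℝ) (h1 : |b| ≤ a) (h3 : 1 / 4 ≤ a ^ 2 + b ^ 2) : 35 / 100 ≤ a := by
  have h0 : 0 ≤ a := (abs_nonneg _).trans h1
  have hb2 : b ^ 2 ≤ a ^ 2 := by
    rw [← sq_abs b]
    exact pow_le_pow_left₀ (abs_nonneg _) h1 2
  by_contra hc
  push Not at hc
  have : a ^ 2 < (35 / 100) ^ 2 := pow_lt_pow_left₀ hc h0 (by norm_num)
  norm_num at this
  linarith

/-- everything after the division by `y` -/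
private lemma core (η l a b a' b' k y : ℝ) (hη : 0 ≤ η) (hη1 : η ≤ 1 / 10) (hl : 0 ≤ l)
    (h1 : |b| ≤ a) (h2 : |b'| ≤ a') (h3 : 1 / 4 ≤ a ^ 2 + b ^ 2) (h4 : 1 / 4 ≤ a' ^ 2 + b' ^ 2)
    (h5 : |(a ^ 2 + b ^ 2) - (a' ^ 2 + b' ^ 2)| ≤ l)
    (hy : |y| ≤ 6 / 100) (hk : |k| ≤ 13 / 10)
    (h6 : |2 * (a * k + b) + y * (k ^ 2 + 1)| ≤ η)
    (h7 : |2 * (a' * k + b') + y * (k ^ 2 + 1)| ≤ η) :
    |a - a'| ≤ 2 * (l + η) ∧ |b - b'| ≤ 3 * (l + η) := by
  have ha := fst a b h1 h3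
  have ha' := fst a' b' h2 h4
  have hS7 : 7 / 10 ≤ a + a' := by linarith
  have hS0 : 0 < a + a' := by linarith
  obtain ⟨s, hs⟩ : ∃ s, s = (b + b') / (a + a') := ⟨_, rfl⟩
  have hsS : s * (a + a') = b + b' := by rw [hs]; exact div_mul_cancel₀ _ hS0.ne'
  have hs1 : |s| ≤ 1 := by
    rw [hs, abs_div, abs_of_pos hS0, div_le_one hS0]
    exact (abs_add_le _ _).trans (add_le_add h1 h2)
  have hk2 : k ^ 2 ≤ 169 / 100 := by
    rw [← sq_abs k]
    have := pow_le_pow_left₀ (abs_nonneg k) hk 2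
    norm_num at this ⊢
    exact this
  have hk20 : 0 ≤ k ^ 2 := sq_nonneg k
  have hyk : |y * (k ^ 2 + 1)| ≤ 1614 / 10000 := by
    rw [abs_mul, abs_of_nonneg (by linarith : (0 : ℝ) ≤ k ^ 2 + 1)]
    calc |y| * (k ^ 2 + 1) ≤ 6 / 100 * (k ^ 2 + 1) :=
          mul_le_mul_of_nonneg_right hy (by linarith)
      _ ≤ 1614 / 10000 := by linarith
  have e0 : (k + s) * (a + a') = a * k + b + (a' * k + b') := by
    calc (k + s) * (a + a') = k * (a + a') + s * (a + a') := by ring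
      _ = k * (a + a') + (b + b') := by rw [hsS]
      _ = _ := by ring
  have h6' := abs_le.mp h6
  have h7' := abs_le.mp h7
  have hyk' := abs_le.mp hyk
  have hsk : 24 / 25 ≤ 1 - s * k := by
    refine ks k s (a + a') hS7 ?_ ?_
    · rw [e0]; linarith [h6'.2, h7'.2, hyk'.1]
    · rw [e0]; linarith [h6'.1, h7'.1, hyk'.2]
  have hd : |k * (a - a') + (b - b')| ≤ η := by
    have : k * (a - a') + (b - b') = ((2 * (a * k + b) + y * (k ^ 2 + 1)) -
      (2 * (a' * k + b') + y * (k ^ 2 + 1))) / 2 := by ring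
    rw [this, abs_le]
    constructor
    · linarith [h6'.1, h7'.2]
    · linarith [h6'.2, h7'.1]
  have hann : |(a - a') + s * (b - b')| ≤ 10 / 7 * l := by
    have e : ((a - a') + s * (b - b')) * (a + a') = (a ^ 2 + b ^ 2) - (a' ^ 2 + b' ^ 2) := by
      calc ((a - a') + s * (b - b')) * (a + a') =
            (a - a') * (a + a') + (b - b') * (s * (a + a')) := by ring
        _ = (a - a') * (a + a') + (b - b') * (b + b') := by rw [hsS]
        _ = _ := by ring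
    have e2 : |(a - a') + s * (b - b')| * (a + a') ≤ l := by
      have : |(a - a') + s * (b - b')| * (a + a') = |((a - a') + s * (b - b')) * (a + a')| := by
        rw [abs_mul, abs_of_pos hS0]
      rw [this, e]
      exact h5
    have e3 : |(a - a') + s * (b - b')| * (7 / 10) ≤ |(a - a') + s * (b - b')| * (a + a') :=
      mul_le_mul_of_nonneg_left hS7 (abs_nonneg _)
    linarith
  exact last η l (a - a') (b - b') s k hη hl hs1 hk hsk hd hann

end GeoAux

theorem geo : GeoStmt := by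
  intro q l v v' w hq hq1 hl h1 h2 h3 h4 h5 hw1 hw2 hw3 h6 h7
  have hq3 : 0 < q ^ 3 := by positivity
  have hy0 : 0 < |w.2| := lt_trans hq3 hw1
  have hyne : w.2 ≠ 0 := abs_pos.mp hy0
  have hq4 : 0 < q ^ 4 := by positivity
  have hηq : q ^ 4 / |w.2| ≤ q := by
    rw [div_le_iff₀ hy0]
    calc q ^ 4 = q * q ^ 3 := by ring
      _ ≤ q * |w.2| := mul_le_mul_of_nonneg_left hw1.le hq.le
  obtain ⟨k, hk⟩ : ∃ k, k = w.1 / w.2 := ⟨_, rfl⟩
  have hkw : w.1 = k * w.2 := by rw [hk]; field_simp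
  have hkabs : |k| ≤ 13 / 10 := by
    rw [hk, abs_div, div_le_iff₀ hy0]
    have : q ^ 4 ≤ q * |w.2| := by
      calc q ^ 4 = q * q ^ 3 := by ring
        _ ≤ q * |w.2| := mul_le_mul_of_nonneg_left hw1.le hq.le
    nlinarith
  have hy6 : |w.2| ≤ 6 / 100 := by nlinarith
  have strip : ∀ a b : ℝ, |2 * (a * w.1 + b * w.2) + (w.1 ^ 2 + w.2 ^ 2)| < q ^ 4 →
      |2 * (a * k + b) + w.2 * (k ^ 2 + 1)| ≤ q ^ 4 / |w.2| := by
    intro a b h
    rw [le_div_iff₀ hy0, ← abs_mul]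
    have e : (2 * (a * k + b) + w.2 * (k ^ 2 + 1)) * w.2 =
        2 * (a * w.1 + b * w.2) + (w.1 ^ 2 + w.2 ^ 2) := by
      rw [hkw]; ring
    rw [e]
    exact h.le
  exact GeoAux.core (q ^ 4 / |w.2|) l v.1 v.2 v'.1 v'.2 k w.2 (by positivity)
    (hηq.trans hq1) hl h1 h2 h3 h4 h5 hy6 hkabs (strip _ _ h6) (strip _ _ h7)

end Pool.Agent.H31.UE
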