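import Pool.Agent.H31.UE.Def
import Pool.Agent.H31.UR.Key

/-!
# Key, rescaled
-/

set_option autoImplicit false

namespace Pool.Agent.H31.UE

theorem keyR (r d e : ℝ) (hr : 1 / 4 ≤ r) (_hr1 : r ≤ 1) (hd : 0 < d) (hd' : d ≤ 1 / 40)
    (he : 0 < e) (hde : 36 * d ≤ e ^ 2) (u v t : ℝ × ℝ) (hu : |u.2| ≤ u.1) (hv : |v.2| ≤ v.1)
    (ht : |t.2| ≤ t.1) (hu1 : r ≤ u.1 ^ 2 + u.2 ^ 2) (hu2 : u.1 ^ 2 + u.2 ^ 2 ≤ r + d)
    (hv1 : r ≤ v.1 ^ 2 + v.2 ^ 2) (hv2 : v.1 ^ 2 + v.2 ^ 2 ≤ r + d)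
    (ht1 : r ≤ t.1 ^ 2 + t.2 ^ 2) (ht2 : t.1 ^ 2 + t.2 ^ 2 ≤ r + d)
    (hvu : e ≤ v.2 - u.2) (hut : e ≤ u.2 - t.2) :
    (v.1 + t.1 - u.1) ^ 2 + (v.2 + t.2 - u.2) ^ 2 < r := by
  have hr0 : 0 < r := by linarith
  obtain ⟨q, hq⟩ : ∃ q : ℝ, q = √r := ⟨_, rfl⟩
  have hq0 : 0 < q := by rw [hq]; exact Real.sqrt_pos.2 hr0
  have hqr : q ^ 2 = r := by rw [hq]; exact Real.sq_sqrt hr0.le
  have hsc : ∀ x y : ℝ, (x / q) ^ 2 + (y / q) ^ 2 = (x ^ 2 + y ^ 2) / r := by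
    intro x y
    rw [← hqr]
    field_simp
  have hlow : ∀ x y : ℝ, r ≤ x ^ 2 + y ^ 2 → 1 ≤ (x / q) ^ 2 + (y / q) ^ 2 := by
    intro x y h
    rw [hsc, le_div_iff₀ hr0, one_mul]
    exact h
  have hup : ∀ x y : ℝ, x ^ 2 + y ^ 2 ≤ r + d → (x / q) ^ 2 + (y / q) ^ 2 ≤ 1 + d / r := by
    intro x y h
    rw [hsc, div_le_iff₀ hr0, add_mul, one_mul, div_mul_cancel₀ _ hr0.ne']
    exact h
  have habs : ∀ x y : ℝ, |y| ≤ x → |y / q| ≤ x / q := by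
    intro x y h
    rw [abs_div, abs_of_pos hq0]
    exact div_le_div_of_nonneg_right h hq0.le
  have h1 := Pool.Agent.H31.UR.key (d / r) (e / q) (by positivity)
    (by rw [div_le_iff₀ hr0]; linarith) (by positivity)
    (by
      rw [div_pow, hqr, mul_div_assoc']
      exact div_le_div_of_nonneg_right (by linarith) hr0.le)
    (u.1 / q, u.2 / q) (v.1 / q, v.2 / q) (t.1 / q, t.2 / q)
    (habs _ _ hu) (habs _ _ hv) (habs _ _ ht) (hlow _ _ hu1) (hup _ _ hu2) (hlow _ _ hv1)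
    (hup _ _ hv2) (hlow _ _ ht1) (hup _ _ ht2)
    (by
      change e / q ≤ v.2 / q - u.2 / q
      rw [← sub_div]
      exact div_le_div_of_nonneg_right hvu hq0.le)
    (by
      change e / q ≤ u.2 / q - t.2 / q
      rw [← sub_div]
      exact div_le_div_of_nonneg_right hut hq0.le)
  have h2 : (v.1 / q + t.1 / q - u.1 / q) ^ 2 + (v.2 / q + t.2 / q - u.2 / q) ^ 2 < 1 := h1
  rw [← add_div, ← sub_div, ← add_div, ← sub_div, hsc, div_lt_iff₀ hr0, one_mul] at h2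
  exact h2

end Pool.Agent.H31.UE
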