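import Pool.Agent.H31.UE.Loc

/-!
# The mirror image, for an interval of scales (MP_31a0d1_lc)
-/

set_option autoImplicit false

namespace Pool.Agent.H31.UE

open Finset

private theorem mil_sq (a b : ℝ × ℝ) : sq (-b) (-a) = sq a b := by
  unfold sq
  simp only [Prod.fst_neg, Prod.snd_neg]
  ring

private theorem mil_Hp {a b : ℝ × ℝ} (h : Hp a b) : Hp (-b) (-a) := by
  unfold Hp at h ⊢
  simp only [Prod.fst_neg, Prod.snd_neg]
  have h1 : -a.2 - -b.2 = b.2 - a.2 := by ring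
  have h2 : -a.1 - -b.1 = b.1 - a.1 := by ring
  rw [h1, h2]
  exact h

private theorem mil_neg_inj : Function.Injective (fun p : ℝ × ℝ => -p) := neg_injective

theorem mil (h : TrlStmt) : MilStmt := by
  classical
  intro C0
  obtain ⟨C, hC, hP⟩ := h C0
  refine ⟨C, hC, fun P hne hsp α β hα hβ hlen => ?_⟩
  set Q : Finset (ℝ × ℝ) := P.image (fun p => -p) with hQ
  have hcard : Q.card = P.card := card_image_of_injective _ mil_neg_inj
  have hsc : sc Q = sc P := by
    unfold sc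
    rw [hcard]
  have hdc : dc Q = dc P := by
    unfold dc
    rw [hcard]
  have hec : ec Q = ec P := by
    unfold ec
    rw [hcard]
  have hmem : ∀ p : ℝ × ℝ, p ∈ Q → -p ∈ P := by
    intro p hp
    obtain ⟨p', hp', rfl⟩ := mem_image.1 hp
    rwa [neg_neg]
  have hmem' : ∀ p : ℝ × ℝ, p ∈ P → -p ∈ Q := fun p hp => mem_image_of_mem _ hp
  have hQsp : Spread C0 Q := by
    intro x y
    refine le_trans ?_ (hsp (-x - sc P) (-y - sc P))
    refine card_le_card_of_injOn (fun p => -p) ?_ (mil_neg_inj.injOn)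
    intro p hp
    obtain ⟨hpQ, h1, h2, h3, h4⟩ := mem_filter.1 hp
    rw [hsc] at h2 h4
    refine mem_filter.2 ⟨hmem p hpQ, ?_, ?_, ?_, ?_⟩
    · show -x - sc P ≤ -p.1
      linarith
    · show -p.1 ≤ -x - sc P + sc P
      linarith
    · show -y - sc P ≤ -p.2
      linarith
    · show -p.2 ≤ -y - sc P + sc P
      linarith
  have key := hP Q (hne.image _) hQsp α β hα hβ (by rw [hsc]; exact hlen)
  rw [hcard, hdc, hec] at key
  refine le_trans ?_ key
  rw [Nat.cast_le]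
  refine card_le_card_of_injOn (fun z => (-z.1, -z.2.1, -z.2.2)) ?_ ?_
  · intro z hz
    obtain ⟨hzP, h1, h2, h3, h4, h5, h6⟩ := mem_filter.1 hz
    obtain ⟨hz1, hz2⟩ := mem_product.1 hzP
    obtain ⟨hz3, hz4⟩ := mem_product.1 hz2
    refine mem_filter.2 ⟨mem_product.2 ⟨hmem' _ hz1, mem_product.2 ⟨hmem' _ hz3, hmem' _ hz4⟩⟩,
      mil_Hp h1, mil_Hp h2, ?_, ?_, ?_, ?_⟩
    · show α ≤ sq (-z.1) (-z.2.1)
      rw [mil_sq]
      exact h3
    · show sq (-z.1) (-z.2.1) ≤ β
      rw [mil_sq]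
      exact h4
    · show |sq (-z.1) (-z.2.1) - sq (-z.1) (-z.2.2)| < dc P
      rw [mil_sq, mil_sq]
      exact h5
    · show |-z.2.2.2 - -z.2.1.2| < ec P
      have e : -z.2.2.2 - -z.2.1.2 = -(z.2.2.2 - z.2.1.2) := by ring
      rw [e, abs_neg]
      exact h6
  · intro z _ z' _ hzz
    simp only [Prod.mk.injEq, neg_inj] at hzz
    exact Prod.ext hzz.1 (Prod.ext hzz.2.1 hzz.2.2)

end Pool.Agent.H31.UE
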