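import Pool.Agent.H31.UE.Loc
import Pool.Agent.H31.UE.Strip

/-!
# The part of a strip in an annulus
-/

set_option autoImplicit false

namespace Pool.Agent.H31.UE

open Finset

namespace SlnAux

/-- points of a set of which the columns are short, with few points in every small square -/
theorem grid {S : Finset (ℝ × ℝ)} (X Y : ℝ × ℝ → ℝ) {s L M : ℝ} (C0 : ℕ) (hs : 0 < s)
    (hL0 : 0 ≤ L) (hM0 : 0 ≤ M) (hL : ∀ a ∈ S, ∀ a' ∈ S, X a - X a' ≤ L)
    (hM : ∀ a ∈ S, ∀ a' ∈ S, |X a - X a'| ≤ s → Y a - Y a' ≤ M)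
    (hcell : ∀ (x y : ℝ) (T : Finset (ℝ × ℝ)), T ⊆ S →
      (∀ a ∈ T, x ≤ X a ∧ X a ≤ x + s ∧ y ≤ Y a ∧ Y a ≤ y + s) → T.card ≤ C0) :
    (S.card : ℝ) ≤ C0 * (M / s + 1) * (L / s + 1) := by
  rcases S.eq_empty_or_nonempty with hE | hN
  · rw [hE, Finset.card_empty]
    push_cast
    positivity
  obtain ⟨am, ham, hm⟩ := Finset.exists_min_image S X hN
  obtain ⟨m, hmd⟩ : ∃ m, m = X am := ⟨_, rfl⟩
  have h0 : ∀ a ∈ S, 0 ≤ X a - m ∧ X a - m ≤ L := by
    intro a ha
    rw [hmd]
    exact ⟨by linarith [hm a ha], hL a ha am ham⟩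
  have hcols := StripAux.card_im (h := fun a => X a - m) hs hL0 h0
  have hcolcard : ∀ i : ℤ, ((S.filter fun a => ⌊(X a - m) / s⌋ = i).card : ℝ) ≤
      C0 * (M / s + 1) := by
    intro i
    obtain ⟨Si, hSi⟩ : ∃ Si, Si = S.filter fun a => ⌊(X a - m) / s⌋ = i := ⟨_, rfl⟩
    rw [← hSi]
    rcases Si.eq_empty_or_nonempty with hE | hN'
    · rw [hE, Finset.card_empty]
      push_cast
      positivity
    obtain ⟨a0, ha0, hmin⟩ := Finset.exists_min_image Si Y hN'
    have hcl : ∀ a ∈ Si, a ∈ S ∧ m + s * i ≤ X a ∧ X a ≤ m + s * i + s := by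
      intro a ha
      rw [hSi, Finset.mem_filter] at ha
      obtain ⟨h1, h2⟩ := ha
      rw [Int.floor_eq_iff] at h2
      obtain ⟨h2a, h2b⟩ := h2
      rw [le_div_iff₀ hs] at h2a
      rw [div_lt_iff₀ hs] at h2b
      exact ⟨h1, by linarith, by linarith⟩
    have hg0 : ∀ a ∈ Si, 0 ≤ Y a - Y a0 ∧ Y a - Y a0 ≤ M := by
      intro a ha
      refine ⟨by linarith [hmin a ha], ?_⟩
      obtain ⟨h1, h2, h3⟩ := hcl a ha
      obtain ⟨h4, h5, h6⟩ := hcl a0 ha0
      refine hM a h1 a0 h4 ?_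
      rw [abs_le]
      constructor <;> linarith
    have hrows := StripAux.card_im (h := fun a => Y a - Y a0) hs hM0 hg0
    have hc : ∀ j : ℤ, ((Si.filter fun a => ⌊(Y a - Y a0) / s⌋ = j).card : ℝ) ≤ C0 := by
      intro j
      have h1 := hcell (m + s * i) (Y a0 + s * j) (Si.filter fun a => ⌊(Y a - Y a0) / s⌋ = j)
        (fun a ha => (hcl a (Finset.mem_filter.mp ha).1).1) (by
          intro a ha
          obtain ⟨h3, h4⟩ := Finset.mem_filter.mp ha
          obtain ⟨h5, h6, h7⟩ := hcl a h3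
          rw [Int.floor_eq_iff] at h4
          obtain ⟨h4a, h4b⟩ := h4
          rw [le_div_iff₀ hs] at h4a
          rw [div_lt_iff₀ hs] at h4b
          exact ⟨h6, h7, by linarith, by linarith⟩)
      exact_mod_cast h1
    have h1 := StripAux.card_fib (T := Si) (fun a => ⌊(Y a - Y a0) / s⌋) C0 hc
    exact h1.trans (mul_le_mul_of_nonneg_left hrows (Nat.cast_nonneg _))
  have htot := StripAux.card_fib (T := S) (fun a => ⌊(X a - m) / s⌋) _ hcolcard
  exact htot.trans (mul_le_mul_of_nonneg_left hcols (by positivity))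

theorem row {x y x' y' l s : ℝ} (hl : 0 ≤ l) (hs : 0 ≤ s) (h1 : |y| ≤ x) (g1 : |y'| ≤ x')
    (h4 : |y' - y| ≤ s) (h2 : 1 / 4 ≤ x ^ 2 + y ^ 2) (g2 : 1 / 4 ≤ x' ^ 2 + y' ^ 2)
    (h3 : (x' ^ 2 + y' ^ 2) - (x ^ 2 + y ^ 2) ≤ l) : x' - x ≤ 10 / 7 * l + s := by
  have hx0 : 0 ≤ x := (abs_nonneg _).trans h1
  have hx0' : 0 ≤ x' := (abs_nonneg _).trans g1
  have hy2 : y ^ 2 ≤ x ^ 2 := by
    rw [← sq_abs y]
    exact pow_le_pow_left₀ (abs_nonneg _) h1 2
  have hy2' : y' ^ 2 ≤ x' ^ 2 := by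
    rw [← sq_abs y']
    exact pow_le_pow_left₀ (abs_nonneg _) g1 2
  have hx1 : 7 / 20 ≤ x := by
    by_contra hc
    push Not at hc
    have : x ^ 2 ≤ (7 / 20) ^ 2 := pow_le_pow_left₀ hx0 hc.le 2
    norm_num at this
    linarith
  have hx1' : 7 / 20 ≤ x' := by
    by_contra hc
    push Not at hc
    have : x' ^ 2 ≤ (7 / 20) ^ 2 := pow_le_pow_left₀ hx0' hc.le 2
    norm_num at this
    linarith
  rw [abs_le] at h1 g1 h4
  by_contra hcon
  push Not at hcon
  have h5 : (x' - x) * (x' + x) ≤ l + (y - y') * (y + y') := by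
    have e1 : (x' - x) * (x' + x) = (x' ^ 2 + y' ^ 2) - (x ^ 2 + y ^ 2) +
      (y - y') * (y + y') := by ring
    rw [e1]
    linarith
  have h6 : (y - y') * (y + y') ≤ s * (x' + x) := by
    have h7 : |(y - y') * (y + y')| ≤ s * (x' + x) := by
      rw [abs_mul]
      refine mul_le_mul ?_ ?_ (abs_nonneg _) hs
      · rw [abs_le]
        constructor <;> linarith [h4.1, h4.2]
      · rw [abs_le]
        constructor <;> linarith [h1.1, h1.2, g1.1, g1.2]
    exact (le_abs_self _).trans h7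
  have h8 : (10 / 7 * l + s) * (x' + x) < (x' - x) * (x' + x) :=
    mul_lt_mul_of_pos_right hcon (by linarith)
  have h9 : 10 / 7 * l * (7 / 10) ≤ 10 / 7 * l * (x' + x) :=
    mul_le_mul_of_nonneg_left (by linarith) (by positivity)
  have e2 : (10 / 7 * l + s) * (x' + x) = 10 / 7 * l * (x' + x) + s * (x' + x) := by ring
  rw [e2] at h8
  linarith

end SlnAux

open Classical in
theorem sln (hg : GeoStmt) : SlnStmt := by
  intro C0
  refine ⟨28 * C0 + 1000000, by positivity, ?_⟩
  intro P hP hS α β hα hβ hlen b b' hw1 hw2 hw3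
  have hn1 : (1 : ℝ) ≤ P.card := by exact_mod_cast hP.card_pos
  have hn0 : (0 : ℝ) < P.card := by linarith
  obtain ⟨n, hn⟩ : ∃ n : ℝ, n = P.card := ⟨_, rfl⟩
  rw [← hn] at hn1 hn0 ⊢
  have hs0 : 0 < sc P := by
    unfold sc
    rw [← hn]
    exact Real.rpow_pos_of_pos hn0 _
  have hd0 : 0 < dc P := by
    unfold dc
    rw [← hn]
    exact Real.rpow_pos_of_pos hn0 _
  have hss : n * (sc P * sc P) = 1 := by
    unfold sc
    rw [← hn, ← Real.rpow_add hn0]
    norm_num
    rw [Real.rpow_neg_one, mul_inv_cancel₀ hn0.ne']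
  obtain ⟨q, hq⟩ : ∃ q : ℝ, q = n ^ (-(1 / 6) : ℝ) := ⟨_, rfl⟩
  have hq0 : 0 < q := by
    rw [hq]
    exact Real.rpow_pos_of_pos hn0 _
  have hsq : sc P = q ^ 3 := by
    unfold sc
    rw [← hn, hq, ← Real.rpow_natCast, ← Real.rpow_mul hn0.le]
    norm_num
  have hdq : dc P = q ^ 4 := by
    unfold dc
    rw [← hn, hq, ← Real.rpow_natCast, ← Real.rpow_mul hn0.le]
    norm_num
  have heq : ec P = 6 * q ^ 2 := by
    unfold ec
    rw [← hn, hq, ← Real.rpow_natCast, ← Real.rpow_mul hn0.le]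
    norm_num
  have hC0 : (0 : ℝ) ≤ C0 := Nat.cast_nonneg _
  have hW : 0 < |b'.2 - b.2| := hs0.trans hw1
  obtain ⟨W, hWd⟩ : ∃ W, W = |b'.2 - b.2| := ⟨_, rfl⟩
  rw [← hWd] at hw1 hw2 hw3 hW ⊢
  obtain ⟨η, hη⟩ : ∃ η, η = dc P / W := ⟨_, rfl⟩
  have hη0 : 0 < η := by
    rw [hη]
    positivity
  rw [← hη]
  obtain ⟨l, hl⟩ : ∃ l, l = β - α := ⟨_, rfl⟩
  rw [← hl] at hlen ⊢
  have hl0 : 0 < l := hs0.trans_le hlen
  obtain ⟨S, hSd⟩ : ∃ S, S = P.filter fun a => Hp a b ∧ α ≤ sq a b ∧ sq a b ≤ β ∧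
    |sq a b - sq a b'| < dc P := ⟨_, rfl⟩
  rw [← hSd]
  have hSP : ∀ a ∈ S, a ∈ P ∧ Hp a b ∧ α ≤ sq a b ∧ sq a b ≤ β ∧ |sq a b - sq a b'| < dc P := by
    intro a ha
    rw [hSd, Finset.mem_filter] at ha
    exact ha
  rcases lt_or_ge n 1000000 with hsmall | hbig
  · have h1 : (S.card : ℝ) ≤ n := by
      rw [hn]
      have : S.card ≤ P.card := by
        rw [hSd]
        exact Finset.card_filter_le _ _
      exact_mod_cast this
    have h2 : sc P * sc P ≤ l * (η + sc P) :=
      mul_le_mul hlen (by linarith) hs0.le hl0.le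
    have h3 : 1 ≤ n * (l * (η + sc P)) := by
      rw [← hss]
      exact mul_le_mul_of_nonneg_left h2 hn0.le
    have h4 : (28 * (C0 : ℝ) + 1000000) * n * l * (η + sc P) =
        (28 * (C0 : ℝ) + 1000000) * (n * (l * (η + sc P))) := by ring
    rw [h4]
    nlinarith
  · have hq1 : q ≤ 1 / 10 := by
      rw [hq]
      have h1 : n ^ (-(1 / 6) : ℝ) ≤ (1000000 : ℝ) ^ (-(1 / 6) : ℝ) :=
        Real.rpow_le_rpow_of_nonpos (by norm_num) hbig (by norm_num)
      refine h1.trans (le_of_eq ?_)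
      have h2 : (1000000 : ℝ) = (10 : ℝ) ^ (6 : ℝ) := by norm_num
      rw [h2, ← Real.rpow_mul (by norm_num)]
      norm_num
    have hgeo : ∀ a ∈ S, ∀ a' ∈ S, |a.1 - a'.1| ≤ 2 * (l + η) ∧ |a.2 - a'.2| ≤ 3 * (l + η) := by
      intro a ha a' ha'
      obtain ⟨-, h1, h2, h3, h4⟩ := hSP a ha
      obtain ⟨-, g1, g2, g3, g4⟩ := hSP a' ha'
      have e1 : ∀ x : ℝ × ℝ, (b.1 - x.1) ^ 2 + (b.2 - x.2) ^ 2 = sq x b := by
        intro x
        unfold sq
        ring
      have e2 : ∀ x : ℝ × ℝ, 2 * ((b.1 - x.1) * (b'.1 - b.1) + (b.2 - x.2) * (b'.2 - b.2)) +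
          ((b'.1 - b.1) ^ 2 + (b'.2 - b.2) ^ 2) = -(sq x b - sq x b') := by
        intro x
        unfold sq
        ring
      have h := hg q l (b.1 - a.1, b.2 - a.2) (b.1 - a'.1, b.2 - a'.2)
        (b'.1 - b.1, b'.2 - b.2) hq0 hq1 hl0.le h1 g1
        (by
          change 1 / 4 ≤ (b.1 - a.1) ^ 2 + (b.2 - a.2) ^ 2
          rw [e1]
          linarith)
        (by
          change 1 / 4 ≤ (b.1 - a'.1) ^ 2 + (b.2 - a'.2) ^ 2
          rw [e1]
          linarith)
        (by
          change |((b.1 - a.1) ^ 2 + (b.2 - a.2) ^ 2) - ((b.1 - a'.1) ^ 2 + (b.2 - a'.2) ^ 2)| ≤ l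
          rw [e1, e1, abs_le, hl]
          constructor <;> linarith)
        (by
          change q ^ 3 < |b'.2 - b.2|
          rw [← hWd, ← hsq]
          exact hw1)
        (by
          change |b'.2 - b.2| < 6 * q ^ 2
          rw [← hWd, ← heq]
          exact hw2)
        (by
          change |b'.1 - b.1| ≤ |b'.2 - b.2| + 3 * q ^ 4
          rw [← hWd, ← hdq]
          exact hw3)
        (by
          change |2 * ((b.1 - a.1) * (b'.1 - b.1) + (b.2 - a.2) * (b'.2 - b.2)) +
            ((b'.1 - b.1) ^ 2 + (b'.2 - b.2) ^ 2)| < q ^ 4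
          rw [e2, abs_neg, ← hdq]
          exact h4)
        (by
          change |2 * ((b.1 - a'.1) * (b'.1 - b.1) + (b.2 - a'.2) * (b'.2 - b.2)) +
            ((b'.1 - b.1) ^ 2 + (b'.2 - b.2) ^ 2)| < q ^ 4
          rw [e2, abs_neg, ← hdq]
          exact g4)
      have h5 : |(b.1 - a.1) - (b.1 - a'.1)| ≤ 2 * (l + q ^ 4 / |b'.2 - b.2|) := h.1
      have h6 : |(b.2 - a.2) - (b.2 - a'.2)| ≤ 3 * (l + q ^ 4 / |b'.2 - b.2|) := h.2
      rw [← hWd, ← hdq, ← hη] at h5 h6
      have e3 : (b.1 - a.1) - (b.1 - a'.1) = -(a.1 - a'.1) := by ring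
      have e4 : (b.2 - a.2) - (b.2 - a'.2) = -(a.2 - a'.2) := by ring
      rw [e3, abs_neg] at h5
      rw [e4, abs_neg] at h6
      exact ⟨h5, h6⟩
    have hcell : ∀ (x y : ℝ) (T : Finset (ℝ × ℝ)), T ⊆ S →
        (∀ a ∈ T, x ≤ a.1 ∧ a.1 ≤ x + sc P ∧ y ≤ a.2 ∧ a.2 ≤ y + sc P) → T.card ≤ C0 := by
      intro x y T hT h
      refine (Finset.card_le_card ?_).trans (hS x y)
      intro a ha
      rw [Finset.mem_filter]
      exact ⟨(hSP a (hT ha)).1, h a ha⟩
    obtain ⟨s, hsd⟩ : ∃ s, s = sc P := ⟨_, rfl⟩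
    rw [← hsd] at hs0 hss hsq hlen hw1 hcell ⊢
    have hinv : 1 / s = n * s := by
      rw [div_eq_iff hs0.ne', mul_assoc]
      exact hss.symm
    rcases le_or_gt η l with hc | hc
    · -- columns
      have hwW : |b'.1 - b.1| ≤ 13 / 10 * W := by
        refine hw3.trans ?_
        have h1 : dc P = q * s := by
          rw [hdq, hsq]
          ring
        have h2 : q * s ≤ 1 / 10 * W := mul_le_mul hq1 hw1.le hs0.le (by norm_num)
        linarith
      have hcol : ∀ a ∈ S, ∀ a' ∈ S, |a.1 - a'.1| ≤ s → a.2 - a'.2 ≤ η + 13 / 10 * s := by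
        intro a ha a' ha' h
        obtain ⟨-, -, -, -, h1⟩ := hSP a ha
        obtain ⟨-, -, -, -, h2⟩ := hSP a' ha'
        have e : 2 * ((b'.2 - b.2) * (a.2 - a'.2)) = (sq a b - sq a b') - (sq a' b - sq a' b') -
            2 * ((b'.1 - b.1) * (a.1 - a'.1)) := by unfold sq; ring
        have h3 : |(b'.1 - b.1) * (a.1 - a'.1)| ≤ 13 / 10 * W * s := by
          rw [abs_mul]
          exact mul_le_mul hwW h (abs_nonneg _) (by positivity)
        have h4 : |(b'.2 - b.2) * (a.2 - a'.2)| ≤ dc P + 13 / 10 * W * s := by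
          rw [abs_lt] at h1 h2
          rw [abs_le] at h3 ⊢
          constructor
          · linarith [h1.1, h1.2, h2.1, h2.2, h3.1, h3.2]
          · linarith [h1.1, h1.2, h2.1, h2.2, h3.1, h3.2]
        rw [abs_mul, ← hWd] at h4
        have h6 : a.2 - a'.2 ≤ |a.2 - a'.2| := le_abs_self _
        have h7 : |a.2 - a'.2| ≤ (dc P + 13 / 10 * W * s) / W := by
          rw [le_div_iff₀ hW, mul_comm]
          exact h4
        have h8 : (dc P + 13 / 10 * W * s) / W = η + 13 / 10 * s := by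
          rw [hη]
          field_simp
        linarith
      have h1 := SlnAux.grid (S := S) (fun a => a.1) (fun a => a.2) C0 hs0
        (L := 4 * l) (M := η + 13 / 10 * s) (by positivity) (by positivity)
        (fun a ha a' ha' => by
          have h2 := (hgeo a ha a' ha').1
          have h3 := le_abs_self (a.1 - a'.1)
          change a.1 - a'.1 ≤ 4 * l
          linarith) hcol hcell
      refine h1.trans ?_
      have h2 : 4 * l / s + 1 ≤ 5 * l * (1 / s) := by
        have h3 : 1 ≤ l * (1 / s) := by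
          rw [mul_one_div, le_div_iff₀ hs0]
          linarith
        have h4 : 4 * l / s = 4 * (l * (1 / s)) := by ring
        rw [h4]
        linarith
      have h3 : (η + 13 / 10 * s) / s + 1 ≤ 3 * (η + s) * (1 / s) := by
        have h4 : (η + 13 / 10 * s) / s + 1 = (η + 23 / 10 * s) * (1 / s) := by
          field_simp
          ring
        rw [h4]
        exact mul_le_mul_of_nonneg_right (by linarith) (by positivity)
      calc (C0 : ℝ) * ((η + 13 / 10 * s) / s + 1) * (4 * l / s + 1) ≤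
          C0 * (3 * (η + s) * (1 / s)) * (5 * l * (1 / s)) := by
            refine mul_le_mul (mul_le_mul_of_nonneg_left h3 hC0) h2 (by positivity) (by positivity)
        _ = 15 * C0 * (n * (n * (s * s))) * l * (η + s) := by
            rw [hinv]
            ring
        _ = 15 * C0 * n * l * (η + s) := by
            rw [hss]
            ring
        _ ≤ (28 * C0 + 1000000) * n * l * (η + s) := by
            have h5 : 0 ≤ n * l * (η + s) := by positivity
            have h6 : 15 * (C0 : ℝ) * n * l * (η + s) = 15 * C0 * (n * l * (η + s)) := by ring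
            have h7 : (28 * (C0 : ℝ) + 1000000) * n * l * (η + s) =
              (28 * C0 + 1000000) * (n * l * (η + s)) := by ring
            rw [h6, h7]
            exact mul_le_mul_of_nonneg_right (by linarith) h5
    · -- rows
      have hrow : ∀ a ∈ S, ∀ a' ∈ S, |a.2 - a'.2| ≤ s → a.1 - a'.1 ≤ 10 / 7 * l + s := by
        intro a ha a' ha' h
        obtain ⟨-, h1, h2, h3, -⟩ := hSP a ha
        obtain ⟨-, g1, g2, g3, -⟩ := hSP a' ha'
        unfold Hp at h1 g1
        obtain ⟨x, hx⟩ : ∃ x, x = b.1 - a.1 := ⟨_, rfl⟩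
        obtain ⟨y, hy⟩ : ∃ y, y = b.2 - a.2 := ⟨_, rfl⟩
        obtain ⟨x', hx'⟩ : ∃ x', x' = b.1 - a'.1 := ⟨_, rfl⟩
        obtain ⟨y', hy'⟩ : ∃ y', y' = b.2 - a'.2 := ⟨_, rfl⟩
        rw [← hx, ← hy] at h1
        rw [← hx', ← hy'] at g1
        have e1 : sq a b = x ^ 2 + y ^ 2 := by
          rw [hx, hy]
          unfold sq
          ring
        have e2 : sq a' b = x' ^ 2 + y' ^ 2 := by
          rw [hx', hy']
          unfold sq
          ring
        rw [e1] at h2 h3
        rw [e2] at g2 g3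
        have h4 : |y' - y| ≤ s := by
          have e3 : y' - y = a.2 - a'.2 := by
            rw [hy, hy']
            ring
          rw [e3]
          exact h
        have e4 : a.1 - a'.1 = x' - x := by
          rw [hx, hx']
          ring
        rw [e4]
        refine SlnAux.row hl0.le hs0.le h1 g1 h4 ?_ ?_ ?_
        · linarith
        · linarith
        · rw [hl]
          linarith
      have h1 := SlnAux.grid (S := S) (fun a => a.2) (fun a => a.1) C0 hs0
        (L := 6 * η) (M := 10 / 7 * l + s) (by positivity) (by positivity)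
        (fun a ha a' ha' => by
          have h2 := (hgeo a ha a' ha').2
          have h3 := le_abs_self (a.2 - a'.2)
          change a.2 - a'.2 ≤ 6 * η
          linarith) hrow
        (fun x y T hT h => hcell y x T hT fun a ha =>
          ⟨(h a ha).2.2.1, (h a ha).2.2.2, (h a ha).1, (h a ha).2.1⟩)
      refine h1.trans ?_
      have h2 : 6 * η / s + 1 ≤ 7 * η * (1 / s) := by
        have h3 : 1 ≤ η * (1 / s) := by
          rw [mul_one_div, le_div_iff₀ hs0]
          linarith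
        have h4 : 6 * η / s = 6 * (η * (1 / s)) := by ring
        rw [h4]
        linarith
      have h3 : (10 / 7 * l + s) / s + 1 ≤ 4 * l * (1 / s) := by
        have h4 : (10 / 7 * l + s) / s + 1 = (10 / 7 * l + 2 * s) * (1 / s) := by
          field_simp
          ring
        rw [h4]
        exact mul_le_mul_of_nonneg_right (by linarith) (by positivity)
      calc (C0 : ℝ) * ((10 / 7 * l + s) / s + 1) * (6 * η / s + 1) ≤
          C0 * (4 * l * (1 / s)) * (7 * η * (1 / s)) := by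
            refine mul_le_mul (mul_le_mul_of_nonneg_left h3 hC0) h2 (by positivity) (by positivity)
        _ = 28 * C0 * (n * (n * (s * s))) * l * η := by
            rw [hinv]
            ring
        _ = 28 * C0 * (n * l * η) := by
            rw [hss]
            ring
        _ ≤ (28 * C0 + 1000000) * (n * l * (η + s)) := by
            refine mul_le_mul (by linarith) ?_ (by positivity) (by positivity)
            exact mul_le_mul_of_nonneg_left (by linarith) (by positivity)
        _ = (28 * C0 + 1000000) * n * l * (η + s) := by ring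

end Pool.Agent.H31.UE
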