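import Pool.Agent.H31.UE.Two

/-!
# Smt: sets of less than 300 points
-/

set_option autoImplicit false

namespace Pool.Agent.H31.UE

open Finset

open Classical in
theorem smallT (δ : ℝ) (hδ : 0 < δ) (P : Finset (ℝ × ℝ)) (hP : P.card < 300)
    (h : δ * (P.card : ℝ) ^ 2 ≤
      ((P ×ˢ P).filter fun z => 1 / 4 ≤ sq z.1 z.2 ∧ sq z.1 z.2 ≤ 1).card) :
    ∃ J : Finset ℕ, 1 / 90000 * (P.card : ℝ) ^ (2 / 3 : ℝ) ≤ J.card ∧
      ∀ j ∈ J, 1 / 4 + j * dc P ≤ 1 ∧
      ∀ (m : ℕ) (t : Fin m → ℕ) (A B : Fin m → Finset (ℝ × ℝ)),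
      (∀ i, ConjR (1 / 4 + j * dc P) (t i) (A i) (B i)) →
      (∀ p ∈ P, ∀ q ∈ P, p ≠ q → ∃ i, (p ∈ A i ∧ q ∈ B i) ∨ (q ∈ A i ∧ p ∈ B i)) →
      1 / 90000 * (P.card : ℝ) ^ (4 / 3 : ℝ) ≤
        ∑ i, (t i : ℝ) * (((A i).card : ℝ) + ((B i).card : ℝ)) := by
  rcases P.eq_empty_or_nonempty with h0 | h0
  · subst h0
    refine ⟨∅, ?_, fun j hj => absurd hj (notMem_empty j)⟩
    have h1 : ((∅ : Finset (ℝ × ℝ)).card : ℝ) ^ (2 / 3 : ℝ) = 0 := by
      rw [card_empty, Nat.cast_zero]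
      exact Real.zero_rpow (by norm_num)
    rw [h1, mul_zero, card_empty, Nat.cast_zero]
  · have hc : (0 : ℝ) < P.card := by exact_mod_cast h0.card_pos
    have hpos : (0 : ℝ) <
        ((P ×ˢ P).filter fun z => 1 / 4 ≤ sq z.1 z.2 ∧ sq z.1 z.2 ≤ 1).card :=
      lt_of_lt_of_le (by positivity) h
    have hpos2 : 0 < ((P ×ˢ P).filter fun z => 1 / 4 ≤ sq z.1 z.2 ∧ sq z.1 z.2 ≤ 1).card := by
      exact_mod_cast hpos
    obtain ⟨z, hz⟩ := card_pos.1 hpos2
    obtain ⟨hz1, hz2, hz3⟩ := mem_filter.1 hz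
    obtain ⟨ha, hb⟩ := mem_product.1 hz1
    have h90 : ∀ x : ℝ, 0 ≤ x → x ≤ 2 → (P.card : ℝ) ^ x ≤ 90000 := by
      intro x hx0 hx
      have h5 : (P.card : ℝ) ≤ 300 := by exact_mod_cast hP.le
      calc (P.card : ℝ) ^ x ≤ (300 : ℝ) ^ x :=
            Real.rpow_le_rpow hc.le h5 hx0
        _ ≤ (300 : ℝ) ^ (2 : ℝ) := Real.rpow_le_rpow_of_exponent_le (by norm_num) hx
        _ = 90000 := by
          rw [show (2 : ℝ) = ((2 : ℕ) : ℝ) by norm_num, Real.rpow_natCast]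
          norm_num
    refine ⟨{0}, ?_, fun j hj => ?_⟩
    · rw [card_singleton, Nat.cast_one]
      have := h90 (2 / 3) (by norm_num) (by norm_num)
      linarith
    rw [mem_singleton] at hj
    subst hj
    rw [Nat.cast_zero, zero_mul, add_zero]
    refine ⟨by norm_num, fun m t A B hE hcov => ?_⟩
    have hne : z.1 ≠ z.2 := by
      intro h1
      rw [h1] at hz2
      unfold sq at hz2
      norm_num at hz2
    obtain ⟨i, hi⟩ := hcov z.1 ha z.2 hb hne
    have hcomm : sq z.2 z.1 = sq z.1 z.2 := by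
      unfold sq
      ring
    have ht : 1 ≤ t i := by
      by_contra h1
      have h2 : t i = 0 := by omega
      obtain ⟨f, g, hfg⟩ := hE i
      rcases hi with hi | hi
      · have h3 := (hfg _ hi.1 _ hi.2).2 fun k => absurd k.2 (by omega)
        linarith
      · have h3 := (hfg _ hi.1 _ hi.2).2 fun k => absurd k.2 (by omega)
        rw [hcomm] at h3
        linarith
    have hA : 1 ≤ (A i).card := by
      rcases hi with hi | hi
      · exact card_pos.2 ⟨_, hi.1⟩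
      · exact card_pos.2 ⟨_, hi.1⟩
    have ht' : (1 : ℝ) ≤ t i := by exact_mod_cast ht
    have hA' : (1 : ℝ) ≤ (A i).card := by exact_mod_cast hA
    have h4 := h90 (4 / 3) (by norm_num) (by norm_num)
    have h5 : (t i : ℝ) * (((A i).card : ℝ) + ((B i).card : ℝ)) ≤
        ∑ i, (t i : ℝ) * (((A i).card : ℝ) + ((B i).card : ℝ)) :=
      single_le_sum (f := fun i => (t i : ℝ) * (((A i).card : ℝ) + ((B i).card : ℝ)))
        (fun j _ => by positivity) (mem_univ i)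
    have h6 : (1 : ℝ) ≤ (t i : ℝ) * (((A i).card : ℝ) + ((B i).card : ℝ)) := by
      have h7 : (0 : ℝ) ≤ (B i).card := by positivity
      nlinarith
    linarith

end Pool.Agent.H31.UE
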