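import Pool.Agent.H31.UE.Loc

/-!
# Smw: sets of less than 300 points, every interval of scales
-/

set_option autoImplicit false

namespace Pool.Agent.H31.UE

open Finset

open Classical in
theorem smallW (δ : ℝ) (hδ : 0 < δ) (P : Finset (ℝ × ℝ)) (hP : P.card < 300) (α β : ℝ)
    (hα : 1 / 4 ≤ α) (hβ : β ≤ 1) (hαβ : sc P ≤ β - α)
    (h : δ * (β - α) * (P.card : ℝ) ^ 2 ≤
      ((P ×ˢ P).filter fun z => α ≤ sq z.1 z.2 ∧ sq z.1 z.2 ≤ β).card) :
    ∃ J : Finset ℕ, 1 / 90000 * (β - α) * (P.card : ℝ) ^ (2 / 3 : ℝ) ≤ J.card ∧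
      ∀ j ∈ J, α + j * dc P ≤ β ∧
      ∀ (m : ℕ) (t d : Fin m → ℕ) (A B : Fin m → Finset (ℝ × ℝ)),
      (∀ i, ConjT (α + j * dc P) (t i) (d i) (A i) (B i)) →
      (∀ p ∈ P, ∀ q ∈ P, NearR (α + j * dc P) (dc P) p q →
        ∃ i, (p ∈ A i ∧ q ∈ B i) ∨ (q ∈ A i ∧ p ∈ B i)) →
      1 / 90000 * (P.card : ℝ) ^ (4 / 3 : ℝ) ≤
        ∑ i, (t i : ℝ) * (5 * Real.log P.card) ^ (d i) *
          (((A i).card : ℝ) + ((B i).card : ℝ)) := by
  rcases P.eq_empty_or_nonempty with h0 | h0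
  · subst h0
    refine ⟨∅, ?_, fun j hj => absurd hj (notMem_empty j)⟩
    have h1 : ((∅ : Finset (ℝ × ℝ)).card : ℝ) ^ (2 / 3 : ℝ) = 0 := by
      rw [card_empty, Nat.cast_zero]
      exact Real.zero_rpow (by norm_num)
    rw [h1, mul_zero, card_empty, Nat.cast_zero]
  · have hc : (0 : ℝ) < P.card := by exact_mod_cast h0.card_pos
    have hsc : 0 < sc P := Real.rpow_pos_of_pos hc _
    have hl : 0 < β - α := lt_of_lt_of_le hsc hαβ
    have hpos : (0 : ℝ) <
        ((P ×ˢ P).filter fun z => α ≤ sq z.1 z.2 ∧ sq z.1 z.2 ≤ β).card :=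
      lt_of_lt_of_le (by positivity) h
    have hpos2 : 0 < ((P ×ˢ P).filter fun z => α ≤ sq z.1 z.2 ∧ sq z.1 z.2 ≤ β).card := by
      exact_mod_cast hpos
    obtain ⟨z, hz⟩ := card_pos.1 hpos2
    obtain ⟨hz1, hz2, hz3⟩ := mem_filter.1 hz
    obtain ⟨ha, hb⟩ := mem_product.1 hz1
    have h90 : ∀ x : ℝ, 0 ≤ x → x ≤ 2 → (P.card : ℝ) ^ x ≤ 90000 := by
      intro x hx0 hx
      have h5 : (P.card : ℝ) ≤ 300 := by exact_mod_cast hP.le
      calc (P.card : ℝ) ^ x ≤ (300 : ℝ) ^ x :=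
            Real.rpow_le_rpow hc.le h5 hx0
        _ ≤ (300 : ℝ) ^ (2 : ℝ) := Real.rpow_le_rpow_of_exponent_le (by norm_num) hx
        _ = 90000 := by
          rw [show (2 : ℝ) = ((2 : ℕ) : ℝ) by norm_num, Real.rpow_natCast]
          norm_num
    have hd0 : 0 < dc P := Real.rpow_pos_of_pos hc _
    obtain ⟨j0, hj0⟩ : ∃ j0 : ℕ, j0 = ⌊(sq z.1 z.2 - α) / dc P⌋₊ := ⟨_, rfl⟩
    have hja : (j0 : ℝ) * dc P ≤ sq z.1 z.2 - α := by
      have h1 : (j0 : ℝ) ≤ (sq z.1 z.2 - α) / dc P := by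
        rw [hj0]
        exact Nat.floor_le (div_nonneg (by linarith) hd0.le)
      rwa [le_div_iff₀ hd0] at h1
    have hjb : sq z.1 z.2 - α < (j0 : ℝ) * dc P + dc P := by
      have h1 : (sq z.1 z.2 - α) / dc P < (j0 : ℝ) + 1 := by
        rw [hj0]
        exact Nat.lt_floor_add_one _
      rw [div_lt_iff₀ hd0] at h1
      linarith
    have hjc : 0 ≤ (j0 : ℝ) * dc P := by positivity
    refine ⟨{j0}, ?_, fun j hj => ?_⟩
    · rw [card_singleton, Nat.cast_one]
      have h1 := h90 (2 / 3) (by norm_num) (by norm_num)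
      have h2 : (0 : ℝ) ≤ (P.card : ℝ) ^ (2 / 3 : ℝ) := by positivity
      have h3 : β - α ≤ 1 := by linarith
      have h4 : (β - α) * (P.card : ℝ) ^ (2 / 3 : ℝ) ≤ 1 * 90000 :=
        mul_le_mul h3 h1 h2 (by norm_num)
      linarith
    rw [mem_singleton] at hj
    subst hj
    refine ⟨by linarith, fun m t d A B hE hcov => ?_⟩
    have hnear : NearR (α + (j : ℝ) * dc P) (dc P) z.1 z.2 :=
      ⟨by linarith, by linarith⟩
    have hne : z.1 ≠ z.2 := by
      intro h1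
      rw [h1] at hz2
      unfold sq at hz2
      simp only [sub_self] at hz2
      norm_num at hz2
      linarith
    have hlog : 1 ≤ 5 * Real.log P.card := by
      have h2 : 2 ≤ P.card := by
        have := one_lt_card.2 ⟨z.1, ha, z.2, hb, hne⟩
        omega
      have h3 : (2 : ℝ) ≤ P.card := by exact_mod_cast h2
      have h4 : Real.log 2 ≤ Real.log P.card := Real.log_le_log (by norm_num) h3
      have h5 := Real.log_two_gt_d9
      linarith
    obtain ⟨i, hi⟩ := hcov z.1 ha z.2 hb hnear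
    have hcomm : sq z.2 z.1 = sq z.1 z.2 := by
      unfold sq
      ring
    have ht : 1 ≤ t i := by
      by_contra h1
      have h2 : t i = 0 := by omega
      obtain ⟨Q, hQ, hfg⟩ := hE i
      rcases hi with hi | hi
      · have h3 := (hfg _ hi.1 _ hi.2).2 fun k => absurd k.2 (by omega)
        linarith
      · have h3 := (hfg _ hi.1 _ hi.2).2 fun k => absurd k.2 (by omega)
        rw [hcomm] at h3
        linarith
    have hA : 1 ≤ (A i).card := by
      rcases hi with hi | hi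
      · exact card_pos.2 ⟨_, hi.1⟩
      · exact card_pos.2 ⟨_, hi.1⟩
    have ht' : (1 : ℝ) ≤ t i := by exact_mod_cast ht
    have hA' : (1 : ℝ) ≤ (A i).card := by exact_mod_cast hA
    have h4 := h90 (4 / 3) (by norm_num) (by norm_num)
    have hl0 : 0 ≤ 5 * Real.log P.card := by linarith
    have h5 : (t i : ℝ) * (5 * Real.log P.card) ^ (d i) *
        (((A i).card : ℝ) + ((B i).card : ℝ)) ≤
        ∑ i, (t i : ℝ) * (5 * Real.log P.card) ^ (d i) *
          (((A i).card : ℝ) + ((B i).card : ℝ)) :=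
      single_le_sum (f := fun i => (t i : ℝ) * (5 * Real.log P.card) ^ (d i) *
        (((A i).card : ℝ) + ((B i).card : ℝ)))
        (fun j _ => by positivity) (mem_univ i)
    have h6 : (1 : ℝ) ≤ (t i : ℝ) * (5 * Real.log P.card) ^ (d i) :=
      one_le_mul_of_one_le_of_one_le ht' (one_le_pow₀ hlog)
    have h7 : (1 : ℝ) ≤ ((A i).card : ℝ) + ((B i).card : ℝ) := by
      have h8 : (0 : ℝ) ≤ (B i).card := by positivity
      linarith
    have h8 := one_le_mul_of_one_le_of_one_le h6 h7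
    linarith

end Pool.Agent.H31.UE
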