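import Pool.Agent.H31.UE.Def

/-!
# Module `Sum` (helper27)

`q = n^(-1/6)`, so `s = q^3`, `d = q^4`, `e = 6 q^2`. The points are grouped by `j = floor (|y| / s)`,
`y = b'.2 - b.2`: `j ≤ 6 / q`, at most `4 (j + 4) C0` points for each `j`, each term is at most `2` for
`j ≤ 1` and at most `q / j + q ^ 3` for `j ≥ 2`.
-/

set_option autoImplicit false

namespace Pool.Agent.H31.UE.SumAux

open Finset

open Classical in
/-- the points of one row -/
theorem row_card {C0 : ℕ} {P : Finset (ℝ × ℝ)} (hC : Spread C0 P) (hs : 0 < sc P) (b : ℝ × ℝ) (j : ℕ) :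
    (P.filter fun p => j * sc P ≤ |p.2 - b.2| ∧ |p.2 - b.2| < (j + 1) * sc P ∧
      |p.1 - b.1| < (j + 4) * sc P).card ≤ 4 * (j + 4) * C0 := by
  set s := sc P with hsdef
  have hsub : (P.filter fun p => j * s ≤ |p.2 - b.2| ∧ |p.2 - b.2| < (j + 1) * s ∧
      |p.1 - b.1| < (j + 4) * s) ⊆ (range (2 * (j + 4)) ×ˢ (range 2)).biUnion fun u =>
        P.filter fun p => b.1 - (j + 4) * s + u.1 * s ≤ p.1 ∧ p.1 ≤ b.1 - (j + 4) * s + u.1 * s + s ∧
          (if u.2 = 0 then b.2 + j * s else b.2 - (j + 1) * s) ≤ p.2 ∧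
          p.2 ≤ (if u.2 = 0 then b.2 + j * s else b.2 - (j + 1) * s) + s := by
    intro p hp
    rw [mem_filter] at hp
    obtain ⟨hpP, h1, h2, h3⟩ := hp
    rw [abs_lt] at h3
    have h4 : 0 ≤ (p.1 - b.1 + (j + 4) * s) / s := div_nonneg (by linarith [h3.1]) hs.le
    have h5 := Nat.floor_le h4
    have h6 := Nat.lt_floor_add_one ((p.1 - b.1 + (j + 4) * s) / s)
    set i := ⌊(p.1 - b.1 + (j + 4) * s) / s⌋₊ with hi
    rw [le_div_iff₀ hs] at h5
    rw [div_lt_iff₀ hs] at h6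
    have h7 : i < 2 * (j + 4) := by
      have h8 : (i : ℝ) * s < 2 * (j + 4) * s := by linarith [h3.2]
      have h9 : (i : ℝ) < 2 * (j + 4) := lt_of_mul_lt_mul_right h8 hs.le
      exact_mod_cast h9
    rw [mem_biUnion]
    rcases le_or_gt 0 (p.2 - b.2) with hy | hy
    · rw [abs_of_nonneg hy] at h1 h2
      refine ⟨(i, 0), mem_product.2 ⟨mem_range.2 h7, mem_range.2 (by norm_num)⟩, ?_⟩
      rw [mem_filter]
      simp only [if_true]
      exact ⟨hpP, by linarith, by linarith, by linarith, by linarith⟩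
    · rw [abs_of_neg hy] at h1 h2
      refine ⟨(i, 1), mem_product.2 ⟨mem_range.2 h7, mem_range.2 (by norm_num)⟩, ?_⟩
      rw [mem_filter]
      simp only [one_ne_zero, if_false]
      exact ⟨hpP, by linarith, by linarith, by linarith, by linarith⟩
  refine (card_le_card hsub).trans (card_biUnion_le.trans ?_)
  have h10 : ∑ u ∈ range (2 * (j + 4)) ×ˢ (range 2), (P.filter fun p =>
      b.1 - (j + 4) * s + u.1 * s ≤ p.1 ∧ p.1 ≤ b.1 - (j + 4) * s + u.1 * s + s ∧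
          (if u.2 = 0 then b.2 + j * s else b.2 - (j + 1) * s) ≤ p.2 ∧
          p.2 ≤ (if u.2 = 0 then b.2 + j * s else b.2 - (j + 1) * s) + s).card ≤
      ∑ _u ∈ range (2 * (j + 4)) ×ˢ (range 2), C0 :=
    sum_le_sum fun u _ => hC _ _
  refine h10.trans (le_of_eq ?_)
  rw [sum_const, card_product, card_range, card_range, smul_eq_mul]
  ring

theorem sum_bound {q : ℝ} (hq : 0 < q) (hq1 : q ≤ 1) {C0 : ℝ} (hC : 0 ≤ C0) (J : ℕ) (hJ : (J : ℝ) ≤ 6 / q) :
    ∑ j ∈ range (J + 1), (12 * C0 * (q + q ^ 3 * j) + if j ≤ 1 then 40 * C0 else 0) ≤ 668 * C0 := by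
  have h1 : ∀ j ∈ range (J + 1), 12 * C0 * (q + q ^ 3 * (j : ℝ)) ≤ 12 * C0 * (q + q ^ 3 * J) := by
    intro j hj
    have h2 : (j : ℝ) ≤ J := by exact_mod_cast Nat.lt_succ_iff.1 (mem_range.1 hj)
    have h3 : 0 ≤ q ^ 3 := by positivity
    exact mul_le_mul_of_nonneg_left (by linarith [mul_le_mul_of_nonneg_left h2 h3]) (by positivity)
  have h2 : ∑ j ∈ range (J + 1), (if j ≤ 1 then 40 * C0 else 0) ≤ 80 * C0 := by
    rw [← sum_filter]
    have h3 : ((range (J + 1)).filter fun j => j ≤ 1) ⊆ range 2 := fun j hj => by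
      rw [mem_filter] at hj
      rw [mem_range]
      omega
    refine (sum_le_sum_of_subset_of_nonneg h3 fun _ _ _ => by positivity).trans (le_of_eq ?_)
    rw [sum_const, card_range, nsmul_eq_mul]
    push_cast
    ring
  rw [sum_add_distrib]
  have h4 := sum_le_sum h1
  rw [sum_const, card_range, nsmul_eq_mul] at h4
  have h5 : (J : ℝ) * q ≤ 6 := by
    have := mul_le_mul_of_nonneg_right hJ hq.le
    rwa [div_mul_cancel₀ _ hq.ne'] at this
  have hJ0 : (0 : ℝ) ≤ J := Nat.cast_nonneg J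
  have h6 : ((J : ℝ) + 1) * q ≤ 7 := by nlinarith
  have h7 : ((J : ℝ) + 1) * (q + q ^ 3 * J) ≤ 49 := by
    have e : ((J : ℝ) + 1) * (q + q ^ 3 * J) = (((J : ℝ) + 1) * q) * (1 + q * (J * q)) := by ring
    rw [e]
    have h8 : q * (J * q) ≤ 6 := by
      have : 0 ≤ (J : ℝ) * q := by positivity
      nlinarith
    have h9 : 0 ≤ ((J : ℝ) + 1) * q := by positivity
    have h10 : 0 ≤ q * (J * q) := by positivity
    nlinarith
  have h11 : ((J + 1 : ℕ) : ℝ) * (12 * C0 * (q + q ^ 3 * J)) ≤ 588 * C0 := by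
    push_cast
    have e : ((J : ℝ) + 1) * (12 * C0 * (q + q ^ 3 * J)) = 12 * C0 * (((J : ℝ) + 1) * (q + q ^ 3 * J)) := by ring
    rw [e]
    have := mul_le_mul_of_nonneg_left h7 (by positivity : 0 ≤ 12 * C0)
    linarith
  linarith

theorem scales {P : Finset (ℝ × ℝ)} (hP : P.Nonempty) : ∃ q : ℝ, 0 < q ∧ q ≤ 1 ∧ sc P = q ^ 3 ∧
    dc P = q ^ 4 ∧ ec P = 6 * q ^ 2 := by
  have hn : (1 : ℝ) ≤ P.card := by exact_mod_cast hP.card_pos
  have hn0 : (0 : ℝ) ≤ P.card := by positivity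
  refine ⟨(P.card : ℝ) ^ (-(1 / 6) : ℝ), by positivity,
    Real.rpow_le_one_of_one_le_of_nonpos hn (by norm_num), ?_, ?_, ?_⟩
  · unfold sc
    rw [← Real.rpow_natCast, ← Real.rpow_mul hn0]
    norm_num
  · unfold dc
    rw [← Real.rpow_natCast, ← Real.rpow_mul hn0]
    norm_num
  · unfold ec
    rw [← Real.rpow_natCast, ← Real.rpow_mul hn0]
    norm_num

end Pool.Agent.H31.UE.SumAux

namespace Pool.Agent.H31.UE

open Finset

theorem sum_le : SumStmt := by
  classical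
  intro C0
  refine ⟨668 * C0 + 1, by positivity, fun P hP hC b => ?_⟩
  obtain ⟨q, hq, hq1, hsc, hdc, hec⟩ := SumAux.scales hP
  have hs : 0 < sc P := by
    rw [hsc]
    positivity
  have hrow := SumAux.row_card hC hs b
  rw [hsc] at hrow hs
  rw [hsc, hdc, hec]
  have hJ0 : (0 : ℝ) ≤ 6 / q := by positivity
  set J := ⌊6 / q⌋₊ with hJ
  have hJle : (J : ℝ) ≤ 6 / q := Nat.floor_le hJ0
  -- the index of the row
  have hmaps : ∀ b' ∈ P.filter (fun b' => |b'.2 - b.2| < 6 * q ^ 2 ∧ |b'.1 - b.1| ≤ |b'.2 - b.2| + 3 * q ^ 4),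
      ⌊|b'.2 - b.2| / q ^ 3⌋₊ ∈ range (J + 1) := by
    intro b' hb'
    rw [mem_filter] at hb'
    rw [mem_range, Nat.lt_succ_iff]
    refine Nat.floor_le_floor ?_
    rw [div_le_div_iff₀ hs hq]
    nlinarith [hb'.2.1]
  rw [← sum_fiberwise_of_maps_to hmaps]
  have hfib : ∀ j ∈ range (J + 1),
      ∑ b' ∈ (P.filter (fun b' => |b'.2 - b.2| < 6 * q ^ 2 ∧ |b'.1 - b.1| ≤ |b'.2 - b.2| + 3 * q ^ 4)).filter
        (fun b' => ⌊|b'.2 - b.2| / q ^ 3⌋₊ = j),
        (if |b'.2 - b.2| ≤ q ^ 3 then (1 : ℝ) else q ^ 4 / |b'.2 - b.2| + q ^ 3) ≤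
      12 * (C0 : ℝ) * (q + q ^ 3 * j) + if j ≤ 1 then 40 * (C0 : ℝ) else 0 := by
    intro j _
    set F := (P.filter (fun b' => |b'.2 - b.2| < 6 * q ^ 2 ∧ |b'.1 - b.1| ≤ |b'.2 - b.2| + 3 * q ^ 4)).filter
        (fun b' => ⌊|b'.2 - b.2| / q ^ 3⌋₊ = j) with hF
    have hq34 : q ^ 4 ≤ q ^ 3 := by
      have : q ^ 4 = q ^ 3 * q := by ring
      nlinarith
    have hmem : ∀ b' ∈ F, j * q ^ 3 ≤ |b'.2 - b.2| ∧ |b'.2 - b.2| < (j + 1) * q ^ 3 ∧
        |b'.1 - b.1| < (j + 4) * q ^ 3 := by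
      intro b' hb'
      rw [hF, mem_filter, mem_filter] at hb'
      obtain ⟨⟨-, -, h2⟩, h3⟩ := hb'
      have h4 : 0 ≤ |b'.2 - b.2| / q ^ 3 := by positivity
      have h5 := Nat.floor_le h4
      have h6 := Nat.lt_floor_add_one (|b'.2 - b.2| / q ^ 3)
      rw [h3] at h5 h6
      rw [le_div_iff₀ hs] at h5
      rw [div_lt_iff₀ hs] at h6
      refine ⟨h5, h6, ?_⟩
      nlinarith
    have hcard : (F.card : ℝ) ≤ 4 * (j + 4) * C0 := by
      have h1 : F.card ≤ 4 * (j + 4) * C0 := by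
        refine (card_le_card fun b' hb' => ?_).trans (hrow j)
        rw [mem_filter]
        have h2 := hb'
        rw [hF, mem_filter, mem_filter] at h2
        exact ⟨h2.1.1, hmem b' hb'⟩
      exact_mod_cast h1
    have hC0 : (0 : ℝ) ≤ C0 := Nat.cast_nonneg C0
    have hj0 : (0 : ℝ) ≤ j := Nat.cast_nonneg j
    rcases Nat.lt_or_ge 1 j with hj | hj
    · -- j ≥ 2
      rw [if_neg (by omega), add_zero]
      have hj2 : (2 : ℝ) ≤ j := by exact_mod_cast hj
      have hterm : ∀ b' ∈ F, (if |b'.2 - b.2| ≤ q ^ 3 then (1 : ℝ) else q ^ 4 / |b'.2 - b.2| + q ^ 3) ≤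
          q / j + q ^ 3 := by
        intro b' hb'
        obtain ⟨h1, -, -⟩ := hmem b' hb'
        have h2 : q ^ 3 < |b'.2 - b.2| := by nlinarith
        rw [if_neg (not_le.2 h2)]
        have h3 : q ^ 4 / |b'.2 - b.2| ≤ q / j := by
          rw [div_le_div_iff₀ (by linarith) (by linarith)]
          have e : q ^ 4 * (j : ℝ) = q * (j * q ^ 3) := by ring
          rw [e]
          exact mul_le_mul_of_nonneg_left h1 hq.le
        linarith
      have h1 := sum_le_card_nsmul F _ _ hterm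
      rw [nsmul_eq_mul] at h1
      refine h1.trans ((mul_le_mul_of_nonneg_right hcard (by positivity)).trans ?_)
      have h2 : (4 * (j + 4) * (C0 : ℝ)) * (q / j + q ^ 3) = 4 * C0 * (((j : ℝ) + 4) * (q / j + q ^ 3)) := by ring
      have h3 : ((j : ℝ) + 4) * (q / j + q ^ 3) ≤ 3 * (q + q ^ 3 * j) := by
        have h4 : ((j : ℝ) + 4) ≤ 3 * j := by linarith
        have h5 : 0 ≤ q / j + q ^ 3 := by positivity
        refine (mul_le_mul_of_nonneg_right h4 h5).trans (le_of_eq ?_)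
        field_simp
      rw [h2]
      have h6 := mul_le_mul_of_nonneg_left h3 (by positivity : 0 ≤ 4 * (C0 : ℝ))
      linarith
    · -- j ≤ 1
      rw [if_pos hj]
      have hj1 : (j : ℝ) ≤ 1 := by exact_mod_cast hj
      have hq3 : q ^ 3 ≤ 1 := pow_le_one₀ hq.le hq1
      have hterm : ∀ b' ∈ F, (if |b'.2 - b.2| ≤ q ^ 3 then (1 : ℝ) else q ^ 4 / |b'.2 - b.2| + q ^ 3) ≤ 2 := by
        intro b' _
        split_ifs with h
        · norm_num
        · push Not at h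
          have h3 : q ^ 4 / |b'.2 - b.2| ≤ 1 := by
            rw [div_le_one (by linarith)]
            linarith
          linarith
      have h1 := sum_le_card_nsmul F _ _ hterm
      rw [nsmul_eq_mul] at h1
      have h2 : (0 : ℝ) ≤ 12 * (C0 : ℝ) * (q + q ^ 3 * j) := by positivity
      nlinarith
  refine (sum_le_sum hfib).trans ?_
  have := SumAux.sum_bound hq hq1 (Nat.cast_nonneg C0 : (0 : ℝ) ≤ C0) J hJle
  linarith

end Pool.Agent.H31.UE
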