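import Pool.Agent.H31.UE.Def

/-!
# The exchange of the two coordinates (module Swp)
-/

set_option autoImplicit false

namespace Pool.Agent.H31.UE

open Finset

namespace Swp

theorem sq_swap (a b : ℝ × ℝ) : sq a.swap b.swap = sq a b := by
  simp only [sq, Prod.fst_swap, Prod.snd_swap]; ring

theorem sq_comm (a b : ℝ × ℝ) : sq a b = sq b a := by
  simp only [sq]; ring

/-- one of the four directions -/
theorem four (a b : ℝ × ℝ) : Hp a b ∨ Hp b a ∨ Hp a.swap b.swap ∨ Hp b.swap a.swap := by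
  simp only [Hp, Prod.fst_swap, Prod.snd_swap]
  rcases le_total |b.2 - a.2| |b.1 - a.1| with h | h
  · rcases le_total 0 (b.1 - a.1) with h1 | h1
    · left; rwa [abs_of_nonneg h1] at h
    · right; left
      rw [abs_of_nonpos h1] at h
      rw [abs_sub_comm]; linarith
  · rcases le_total 0 (b.2 - a.2) with h1 | h1
    · right; right; left; rwa [abs_of_nonneg h1] at h
    · right; right; right
      rw [abs_of_nonpos h1] at h
      rw [abs_sub_comm]; linarith

theorem mem_swap (P : Finset (ℝ × ℝ)) (p : ℝ × ℝ) :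
    p ∈ P.image Prod.swap ↔ p.swap ∈ P := by
  classical
  simp only [mem_image]
  constructor
  · rintro ⟨a, ha, rfl⟩; simpa using ha
  · intro h; exact ⟨p.swap, h, by simp⟩

theorem card_swap (P : Finset (ℝ × ℝ)) : (P.image Prod.swap).card = P.card :=
  card_image_of_injective _ Prod.swap_injective

theorem sc_swap (P : Finset (ℝ × ℝ)) : sc (P.image Prod.swap) = sc P := by
  simp only [sc, card_swap]

theorem spread_swap {C0 : ℕ} {P : Finset (ℝ × ℝ)} (h : Spread C0 P) :
    Spread C0 (P.image Prod.swap) := by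
  classical
  intro x y
  have h1 := h y x
  rw [sc_swap]
  refine le_trans ?_ h1
  apply card_le_card_of_injOn Prod.swap
  · intro p hp
    simp only [coe_filter, Set.mem_ofPred_eq, mem_swap] at hp ⊢
    simp only [Prod.fst_swap, Prod.snd_swap]
    tauto
  · exact Prod.swap_injective.injOn

theorem conj_swap {r : ℝ} {t : ℕ} {A B : Finset (ℝ × ℝ)} (h : ConjR r t A B) :
    ConjR r t (A.image Prod.swap) (B.image Prod.swap) := by
  obtain ⟨f, g, hfg⟩ := h
  refine ⟨fun k p => f k p.swap, fun k p => g k p.swap, ?_⟩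
  intro a ha b hb
  rw [mem_swap] at ha hb
  rw [← sq_swap a b]
  exact hfg _ ha _ hb

end Swp

open Swp in
theorem swp (h : MainH) : MainStmt := by
  classical
  intro C0 δ hδ
  obtain ⟨c, hc, H⟩ := h C0 (δ / 4) (by linarith)
  refine ⟨c, hc, ?_⟩
  intro P hP hS hN
  set F0 := (P ×ˢ P).filter fun z => Hp z.1 z.2 ∧ 1 / 4 ≤ sq z.1 z.2 ∧ sq z.1 z.2 ≤ 1 with hF0
  set F1 := (P ×ˢ P).filter fun z => Hp z.2 z.1 ∧ 1 / 4 ≤ sq z.1 z.2 ∧ sq z.1 z.2 ≤ 1 with hF1
  set F2 := (P ×ˢ P).filter fun z => Hp z.1.swap z.2.swap ∧ 1 / 4 ≤ sq z.1 z.2 ∧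
    sq z.1 z.2 ≤ 1 with hF2
  set F3 := (P ×ˢ P).filter fun z => Hp z.2.swap z.1.swap ∧ 1 / 4 ≤ sq z.1 z.2 ∧
    sq z.1 z.2 ≤ 1 with hF3
  have h1 : F1.card ≤ F0.card := by
    apply card_le_card_of_injOn Prod.swap
    · intro z hz
      rw [hF1] at hz
      rw [hF0]
      simp only [coe_filter, Set.mem_ofPred_eq, mem_product, Prod.fst_swap, Prod.snd_swap] at hz ⊢
      rw [sq_comm z.2 z.1]
      tauto
    · exact Prod.swap_injective.injOn
  have h3 : F3.card ≤ F2.card := by
    apply card_le_card_of_injOn Prod.swap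
    · intro z hz
      rw [hF3] at hz
      rw [hF2]
      simp only [coe_filter, Set.mem_ofPred_eq, mem_product, Prod.fst_swap, Prod.snd_swap] at hz ⊢
      rw [sq_comm z.2 z.1]
      tauto
    · exact Prod.swap_injective.injOn
  have hsub : ((P ×ˢ P).filter fun z => 1 / 4 ≤ sq z.1 z.2 ∧ sq z.1 z.2 ≤ 1) ⊆
      (F0 ∪ F1) ∪ (F2 ∪ F3) := by
    intro z hz
    rw [mem_filter] at hz
    simp only [hF0, hF1, hF2, hF3, mem_union, mem_filter]
    rcases four z.1 z.2 with h | h | h | h <;> tauto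
  have hcard : (((P ×ˢ P).filter fun z => 1 / 4 ≤ sq z.1 z.2 ∧ sq z.1 z.2 ≤ 1).card : ℝ) ≤
      2 * F0.card + 2 * F2.card := by
    have a1 := card_le_card hsub
    have a2 := card_union_le (F0 ∪ F1) (F2 ∪ F3)
    have a3 := card_union_le F0 F1
    have a4 := card_union_le F2 F3
    have a5 : ((P ×ˢ P).filter fun z => 1 / 4 ≤ sq z.1 z.2 ∧ sq z.1 z.2 ≤ 1).card ≤
      2 * F0.card + 2 * F2.card := by omega
    exact_mod_cast a5
  rcases le_or_gt (δ / 4 * (P.card : ℝ) ^ 2) (F0.card : ℝ) with h0 | h0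
  · exact H P hP hS h0
  · have h2 : δ / 4 * (P.card : ℝ) ^ 2 ≤ (F2.card : ℝ) := by linarith
    have hQ : δ / 4 * ((P.image Prod.swap).card : ℝ) ^ 2 ≤
        (((P.image Prod.swap) ×ˢ (P.image Prod.swap)).filter fun z =>
          Hp z.1 z.2 ∧ 1 / 4 ≤ sq z.1 z.2 ∧ sq z.1 z.2 ≤ 1).card := by
      rw [card_swap]
      refine le_trans h2 ?_
      norm_cast
      apply card_le_card_of_injOn (fun z => (z.1.swap, z.2.swap))
      · intro z hz
        rw [hF2] at hz
        simp only [coe_filter, Set.mem_ofPred_eq, mem_product, mem_swap, Prod.swap_swap,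
          sq_swap] at hz ⊢
        tauto
      · intro z _ w _ hzw
        simp only [Prod.mk.injEq] at hzw
        exact Prod.ext (Prod.swap_injective hzw.1) (Prod.swap_injective hzw.2)
    obtain ⟨r, hr1, hr2, hr⟩ := H (P.image Prod.swap) (by rw [card_swap]; exact hP)
      (spread_swap hS) hQ
    refine ⟨r, hr1, hr2, ?_⟩
    intro m t A B hAB hcov
    have := hr m t (fun i => (A i).image Prod.swap) (fun i => (B i).image Prod.swap)
      (fun i => conj_swap (hAB i)) ?_
    · simpa only [card_swap] using this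
    · intro p hp q hq hpq
      rw [mem_swap] at hp hq
      obtain ⟨i, hi⟩ := hcov p.swap hp q.swap hq (fun h => hpq (Prod.swap_injective h))
      refine ⟨i, ?_⟩
      simp only [mem_swap]
      exact hi

end Pool.Agent.H31.UE
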