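import Pool.Agent.H31.UE.Two
import Pool.Agent.H31.UE.Swp

/-!
# The exchange of the two coordinates, for many scales (module Swt)
-/

set_option autoImplicit false

namespace Pool.Agent.H31.UE

open Finset

namespace Swt

theorem dc_swap (P : Finset (ℝ × ℝ)) : dc (P.image Prod.swap) = dc P := by
  simp only [dc, Swp.card_swap]

end Swt

open Swp in
theorem swt (h : MainHt) : MainT := by
  classical
  intro C0 δ hδ
  obtain ⟨c, hc, H⟩ := h C0 (δ / 4) (by linarith)
  refine ⟨c, hc, ?_⟩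
  intro P hP hS hN
  set F0 := (P ×ˢ P).filter fun z => Hp z.1 z.2 ∧ 1 / 4 ≤ sq z.1 z.2 ∧ sq z.1 z.2 ≤ 1 with hF0
  set F1 := (P ×ˢ P).filter fun z => Hp z.2 z.1 ∧ 1 / 4 ≤ sq z.1 z.2 ∧ sq z.1 z.2 ≤ 1 with hF1
  set F2 := (P ×ˢ P).filter fun z => Hp z.1.swap z.2.swap ∧ 1 / 4 ≤ sq z.1 z.2 ∧
    sq z.1 z.2 ≤ 1 with hF2
  set F3 := (P ×ˢ P).filter fun z => Hp z.2.swap z.1.swap ∧ 1 / 4 ≤ sq z.1 z.2 ∧
    sq z.1 z.2 ≤ 1 with hF3
  have h1 : F1.card ≤ F0.card := by
    apply card_le_card_of_injOn Prod.swap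
    · intro z hz
      rw [hF1] at hz
      rw [hF0]
      simp only [coe_filter, Set.mem_ofPred_eq, mem_product, Prod.fst_swap, Prod.snd_swap] at hz ⊢
      rw [sq_comm z.2 z.1]
      tauto
    · exact Prod.swap_injective.injOn
  have h3 : F3.card ≤ F2.card := by
    apply card_le_card_of_injOn Prod.swap
    · intro z hz
      rw [hF3] at hz
      rw [hF2]
      simp only [coe_filter, Set.mem_ofPred_eq, mem_product, Prod.fst_swap, Prod.snd_swap] at hz ⊢
      rw [sq_comm z.2 z.1]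
      tauto
    · exact Prod.swap_injective.injOn
  have hsub : ((P ×ˢ P).filter fun z => 1 / 4 ≤ sq z.1 z.2 ∧ sq z.1 z.2 ≤ 1) ⊆
      (F0 ∪ F1) ∪ (F2 ∪ F3) := by
    intro z hz
    rw [mem_filter] at hz
    simp only [hF0, hF1, hF2, hF3, mem_union, mem_filter]
    rcases four z.1 z.2 with h | h | h | h <;> tauto
  have hcard : (((P ×ˢ P).filter fun z => 1 / 4 ≤ sq z.1 z.2 ∧ sq z.1 z.2 ≤ 1).card : ℝ) ≤
      2 * F0.card + 2 * F2.card := by
    have a1 := card_le_card hsub
    have a2 := card_union_le (F0 ∪ F1) (F2 ∪ F3)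
    have a3 := card_union_le F0 F1
    have a4 := card_union_le F2 F3
    have a5 : ((P ×ˢ P).filter fun z => 1 / 4 ≤ sq z.1 z.2 ∧ sq z.1 z.2 ≤ 1).card ≤
      2 * F0.card + 2 * F2.card := by omega
    exact_mod_cast a5
  rcases le_or_gt (δ / 4 * (P.card : ℝ) ^ 2) (F0.card : ℝ) with h0 | h0
  · exact H P hP hS h0
  · have h2 : δ / 4 * (P.card : ℝ) ^ 2 ≤ (F2.card : ℝ) := by linarith
    have hQ : δ / 4 * ((P.image Prod.swap).card : ℝ) ^ 2 ≤
        (((P.image Prod.swap) ×ˢ (P.image Prod.swap)).filter fun z =>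
          Hp z.1 z.2 ∧ 1 / 4 ≤ sq z.1 z.2 ∧ sq z.1 z.2 ≤ 1).card := by
      rw [card_swap]
      refine le_trans h2 ?_
      norm_cast
      apply card_le_card_of_injOn (fun z => (z.1.swap, z.2.swap))
      · intro z hz
        rw [hF2] at hz
        simp only [coe_filter, Set.mem_ofPred_eq, mem_product, mem_swap, Prod.swap_swap,
          sq_swap] at hz ⊢
        tauto
      · intro z _ w _ hzw
        simp only [Prod.mk.injEq] at hzw
        exact Prod.ext (Prod.swap_injective hzw.1) (Prod.swap_injective hzw.2)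
    obtain ⟨J, hJ, hr⟩ := H (P.image Prod.swap) (by rw [card_swap]; exact hP)
      (spread_swap hS) hQ
    rw [card_swap] at hJ
    refine ⟨J, hJ, fun j hj => ?_⟩
    have hr1 := hr j hj
    rw [Swt.dc_swap, card_swap] at hr1
    refine ⟨hr1.1, ?_⟩
    intro m t A B hAB hcov
    have := hr1.2 m t (fun i => (A i).image Prod.swap) (fun i => (B i).image Prod.swap)
      (fun i => conj_swap (hAB i)) ?_
    · simpa only [card_swap] using this
    · intro p hp q hq hpq
      rw [mem_swap] at hp hq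
      obtain ⟨i, hi⟩ := hcov p.swap hp q.swap hq (fun h => hpq (Prod.swap_injective h))
      refine ⟨i, ?_⟩
      simp only [mem_swap]
      exact hi

end Pool.Agent.H31.UE
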