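import Pool.Agent.H31.UE.Thr
import Pool.Agent.H31.UE.Swp

/-!
# The exchange of the two coordinates, for conjunctions of decision trees (module Swu)
-/

set_option autoImplicit false

namespace Pool.Agent.H31.UE

open Finset

namespace Swu

theorem dc_swap (P : Finset (ℝ × ℝ)) : dc (P.image Prod.swap) = dc P := by
  simp only [dc, Swp.card_swap]

/-- decision trees after the exchange of the coordinates -/
theorem dec_swap : ∀ (d : ℕ) (Q : ℝ × ℝ → ℝ × ℝ → Prop) (S : Set ((ℝ × ℝ) × (ℝ × ℝ))),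
    Dec d Q S → Dec d (fun a b => Q a.swap b.swap) {z | (z.1.swap, z.2.swap) ∈ S} := by
  intro d
  induction d with
  | zero =>
    intro Q S h z hz z' hz'
    exact h _ hz _ hz'
  | succ d ih =>
    rintro Q S ⟨f, g, h1, h2⟩
    exact ⟨fun a => f a.swap, fun b => g b.swap, ih Q _ h1, ih Q _ h2⟩

theorem conjT_swap {r : ℝ} {t d : ℕ} {A B : Finset (ℝ × ℝ)} (h : ConjT r t d A B) :
    ConjT r t d (A.image Prod.swap) (B.image Prod.swap) := by
  obtain ⟨Q, h1, h2⟩ := h
  refine ⟨fun k a b => Q k a.swap b.swap, fun k => ?_, ?_⟩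
  · have e : {z : (ℝ × ℝ) × (ℝ × ℝ) | z.1 ∈ A.image Prod.swap ∧ z.2 ∈ B.image Prod.swap} =
        {z | (z.1.swap, z.2.swap) ∈ {z : (ℝ × ℝ) × (ℝ × ℝ) | z.1 ∈ A ∧ z.2 ∈ B}} := by
      ext z
      simp only [Set.mem_ofPred_eq, Swp.mem_swap]
    rw [e]
    exact dec_swap (d + 1) (Q k) _ (h1 k)
  · intro a ha b hb
    rw [Swp.mem_swap] at ha hb
    rw [← h2 _ ha _ hb, Swp.sq_swap]

end Swu

open Swp in
theorem swu (h : MainHu) : MainU := by
  classical
  intro C0 δ hδ
  obtain ⟨c, hc, H⟩ := h C0 (δ / 4) (by linarith)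
  refine ⟨c, hc, ?_⟩
  intro P hP hS hN
  set F0 := (P ×ˢ P).filter fun z => Hp z.1 z.2 ∧ 1 / 4 ≤ sq z.1 z.2 ∧ sq z.1 z.2 ≤ 1 with hF0
  set F1 := (P ×ˢ P).filter fun z => Hp z.2 z.1 ∧ 1 / 4 ≤ sq z.1 z.2 ∧ sq z.1 z.2 ≤ 1 with hF1
  set F2 := (P ×ˢ P).filter fun z => Hp z.1.swap z.2.swap ∧ 1 / 4 ≤ sq z.1 z.2 ∧
    sq z.1 z.2 ≤ 1 with hF2
  set F3 := (P ×ˢ P).filter fun z => Hp z.2.swap z.1.swap ∧ 1 / 4 ≤ sq z.1 z.2 ∧
    sq z.1 z.2 ≤ 1 with hF3
  have h1 : F1.card ≤ F0.card := by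
    apply card_le_card_of_injOn Prod.swap
    · intro z hz
      rw [hF1] at hz
      rw [hF0]
      simp only [coe_filter, Set.mem_ofPred_eq, mem_product, Prod.fst_swap, Prod.snd_swap] at hz ⊢
      rw [sq_comm z.2 z.1]
      tauto
    · exact Prod.swap_injective.injOn
  have h3 : F3.card ≤ F2.card := by
    apply card_le_card_of_injOn Prod.swap
    · intro z hz
      rw [hF3] at hz
      rw [hF2]
      simp only [coe_filter, Set.mem_ofPred_eq, mem_product, Prod.fst_swap, Prod.snd_swap] at hz ⊢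
      rw [sq_comm z.2 z.1]
      tauto
    · exact Prod.swap_injective.injOn
  have hsub : ((P ×ˢ P).filter fun z => 1 / 4 ≤ sq z.1 z.2 ∧ sq z.1 z.2 ≤ 1) ⊆
      (F0 ∪ F1) ∪ (F2 ∪ F3) := by
    intro z hz
    rw [mem_filter] at hz
    simp only [hF0, hF1, hF2, hF3, mem_union, mem_filter]
    rcases four z.1 z.2 with h | h | h | h <;> tauto
  have hcard : (((P ×ˢ P).filter fun z => 1 / 4 ≤ sq z.1 z.2 ∧ sq z.1 z.2 ≤ 1).card : ℝ) ≤
      2 * F0.card + 2 * F2.card := by
    have a1 := card_le_card hsub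
    have a2 := card_union_le (F0 ∪ F1) (F2 ∪ F3)
    have a3 := card_union_le F0 F1
    have a4 := card_union_le F2 F3
    have a5 : ((P ×ˢ P).filter fun z => 1 / 4 ≤ sq z.1 z.2 ∧ sq z.1 z.2 ≤ 1).card ≤
      2 * F0.card + 2 * F2.card := by omega
    exact_mod_cast a5
  rcases le_or_gt (δ / 4 * (P.card : ℝ) ^ 2) (F0.card : ℝ) with h0 | h0
  · exact H P hP hS h0
  · have h2 : δ / 4 * (P.card : ℝ) ^ 2 ≤ (F2.card : ℝ) := by linarith
    have hQ : δ / 4 * ((P.image Prod.swap).card : ℝ) ^ 2 ≤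
        (((P.image Prod.swap) ×ˢ (P.image Prod.swap)).filter fun z =>
          Hp z.1 z.2 ∧ 1 / 4 ≤ sq z.1 z.2 ∧ sq z.1 z.2 ≤ 1).card := by
      rw [card_swap]
      refine le_trans h2 ?_
      norm_cast
      apply card_le_card_of_injOn (fun z => (z.1.swap, z.2.swap))
      · intro z hz
        rw [hF2] at hz
        simp only [coe_filter, Set.mem_ofPred_eq, mem_product, mem_swap, Prod.swap_swap,
          sq_swap] at hz ⊢
        tauto
      · intro z _ w _ hzw
        simp only [Prod.mk.injEq] at hzw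
        exact Prod.ext (Prod.swap_injective hzw.1) (Prod.swap_injective hzw.2)
    obtain ⟨J, hJ, hr⟩ := H (P.image Prod.swap) (by rw [card_swap]; exact hP)
      (spread_swap hS) hQ
    rw [card_swap] at hJ
    refine ⟨J, hJ, fun j hj => ?_⟩
    have hr1 := hr j hj
    rw [Swu.dc_swap, card_swap] at hr1
    refine ⟨hr1.1, ?_⟩
    intro m t d A B hAB hcov
    have := hr1.2 m t d (fun i => (A i).image Prod.swap) (fun i => (B i).image Prod.swap)
      (fun i => Swu.conjT_swap (hAB i)) ?_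
    · simpa only [card_swap] using this
    · intro p hp q hq hpq
      rw [mem_swap] at hp hq
      obtain ⟨i, hi⟩ := hcov p.swap hp q.swap hq (fun h => hpq (Prod.swap_injective h))
      refine ⟨i, ?_⟩
      simp only [mem_swap]
      exact hi

end Pool.Agent.H31.UE
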