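import Pool.Agent.H31.UE.Two

/-!
# Thr: conjunctions of decision trees (statements)

The blocks are now more general: `dist < √r` is a conjunction of `t` relations, each of them decided
by a decision tree of depth `d + 1` with nodes `f a < g b`; the cost of such a block is
`t (5 log n)^d (|A| + |B|)`.
-/

set_option autoImplicit false

namespace Pool.Agent.H31.UE

open Finset

/-- On the set `S` of pairs the relation `Q` is decided by a decision tree of depth `d`, whose nodes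
compare a real function of the first point with a real function of the second one. -/
def Dec : ℕ → (ℝ × ℝ → ℝ × ℝ → Prop) → Set ((ℝ × ℝ) × (ℝ × ℝ)) → Prop
  | 0, Q, S => ∀ z ∈ S, ∀ z' ∈ S, (Q z.1 z.2 ↔ Q z'.1 z'.2)
  | d + 1, Q, S => ∃ f g : ℝ × ℝ → ℝ, Dec d Q {z | z ∈ S ∧ f z.1 < g z.2} ∧
      Dec d Q {z | z ∈ S ∧ ¬ f z.1 < g z.2}

/-- On `A × B` the relation `dist < √r` is a conjunction of `t` relations, each decided by a decision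
tree of depth `d + 1`. -/
def ConjT (r : ℝ) (t d : ℕ) (A B : Finset (ℝ × ℝ)) : Prop :=
  ∃ Q : Fin t → ℝ × ℝ → ℝ × ℝ → Prop,
    (∀ k, Dec (d + 1) (Q k) {z | z.1 ∈ A ∧ z.2 ∈ B}) ∧
    ∀ a ∈ A, ∀ b ∈ B, (sq a b < r ↔ ∀ k, Q k a b)

open Classical in
/-- module `Tre` (uses `Con`) -/
def TreStmt : Prop := ∀ (r d e : ℝ) (K D : ℕ), 1 / 4 ≤ r → r ≤ 1 → 0 < d → d ≤ 1 / 40 → 0 < e →
  36 * d ≤ e ^ 2 → ∀ P A B : Finset (ℝ × ℝ), A ⊆ P → B ⊆ P → ∀ Q : ℝ × ℝ → ℝ × ℝ → Prop,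
  Dec (D + 1) Q {z | z.1 ∈ A ∧ z.2 ∈ B} → (∀ a ∈ A, ∀ b ∈ B, sq a b < r → Q a b) →
  ((A ×ˢ B).filter fun z => NearR r d z.1 z.2 ∧ Hp z.1 z.2 ∧ Good P r d e K z.1 z.2 ∧
    ¬ Q z.1 z.2).card ≤ (A.card + B.card) * (2 * K * (Nat.clog 2 P.card + 2) ^ D)

open Classical in
/-- the theorem for horizontal pairs -/
def MainHu : Prop := ∀ (C0 : ℕ) (δ : ℝ), 0 < δ → ∃ c : ℝ, 0 < c ∧ ∀ P : Finset (ℝ × ℝ),
  300 ≤ P.card → Spread C0 P →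
  δ * (P.card : ℝ) ^ 2 ≤ ((P ×ˢ P).filter fun z => Hp z.1 z.2 ∧ 1 / 4 ≤ sq z.1 z.2 ∧
    sq z.1 z.2 ≤ 1).card →
  ∃ J : Finset ℕ, c * (P.card : ℝ) ^ (2 / 3 : ℝ) ≤ J.card ∧
    ∀ j ∈ J, 1 / 4 + j * dc P ≤ 1 ∧
    ∀ (m : ℕ) (t d : Fin m → ℕ) (A B : Fin m → Finset (ℝ × ℝ)),
    (∀ i, ConjT (1 / 4 + j * dc P) (t i) (d i) (A i) (B i)) →
    (∀ p ∈ P, ∀ q ∈ P, p ≠ q → ∃ i, (p ∈ A i ∧ q ∈ B i) ∨ (q ∈ A i ∧ p ∈ B i)) →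
    c * (P.card : ℝ) ^ (4 / 3 : ℝ) ≤
      ∑ i, (t i : ℝ) * (5 * Real.log P.card) ^ (d i) * (((A i).card : ℝ) + ((B i).card : ℝ))

open Classical in
/-- module `Swu`: `MainHu → MainU` -/
def MainU : Prop := ∀ (C0 : ℕ) (δ : ℝ), 0 < δ → ∃ c : ℝ, 0 < c ∧ ∀ P : Finset (ℝ × ℝ),
  300 ≤ P.card → Spread C0 P →
  δ * (P.card : ℝ) ^ 2 ≤ ((P ×ˢ P).filter fun z => 1 / 4 ≤ sq z.1 z.2 ∧ sq z.1 z.2 ≤ 1).card →
  ∃ J : Finset ℕ, c * (P.card : ℝ) ^ (2 / 3 : ℝ) ≤ J.card ∧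
    ∀ j ∈ J, 1 / 4 + j * dc P ≤ 1 ∧
    ∀ (m : ℕ) (t d : Fin m → ℕ) (A B : Fin m → Finset (ℝ × ℝ)),
    (∀ i, ConjT (1 / 4 + j * dc P) (t i) (d i) (A i) (B i)) →
    (∀ p ∈ P, ∀ q ∈ P, p ≠ q → ∃ i, (p ∈ A i ∧ q ∈ B i) ∨ (q ∈ A i ∧ p ∈ B i)) →
    c * (P.card : ℝ) ^ (4 / 3 : ℝ) ≤
      ∑ i, (t i : ℝ) * (5 * Real.log P.card) ^ (d i) * (((A i).card : ℝ) + ((B i).card : ℝ))

end Pool.Agent.H31.UE
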