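import Pool.Agent.H31.UE.Thr

/-!
# Tre: a block decided by a tree of depth `D + 1` (uses `Con`)

Induction on `D`; `stair` is that of `Pool.Agent.H31.UR.Bk` for an arbitrary type. (helper13)
-/

set_option autoImplicit false

namespace Pool.Agent.H31.UE

open Finset

namespace TreM

open Classical in
/-- the number of pairs of the relation -/
noncomputable def NI {α : Type} (R : α → α → Prop) (A B : Finset α) : ℕ :=
  ∑ p ∈ A, ∑ l ∈ B, if R p l then 1 else 0

theorem NI_split_left {α : Type} [DecidableEq α] (R : α → α → Prop) (A A' B : Finset α)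
    (h : A' ⊆ A) : NI R A B = NI R A' B + NI R (A \ A') B := by
  unfold NI
  rw [add_comm, sum_sdiff h]

theorem NI_split_right {α : Type} (R : α → α → Prop) (A B : Finset α)
    (P : α → Prop) [DecidablePred P] :
    NI R A B = NI R A (B.filter P) + NI R A (B.filter (fun l => ¬ P l)) := by
  unfold NI
  rw [← sum_add_distrib]
  exact sum_congr rfl fun p _ => (sum_filter_add_sum_filter_not B P _).symm

theorem cnt_eq {α : Type} (R : α → α → Prop) (A B : Finset α)
    [DecidablePred fun z : α × α => R z.1 z.2] :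
    ((A ×ˢ B).filter fun z => R z.1 z.2).card = NI R A B := by
  unfold NI
  rw [card_filter, sum_product]
  refine sum_congr rfl fun p _ => sum_congr rfl fun l _ => ?_
  by_cases hR : R p l <;> simp [hR]

/-- the lower part of a finite set with respect to a real function -/
theorem lower_part {α : Type} [DecidableEq α] (A : Finset α) (f : α → ℝ) (m : ℕ)
    (hm : m ≤ A.card) :
    ∃ A' ⊆ A, A'.card = m ∧ ∀ a ∈ A', ∀ a' ∈ A \ A', f a ≤ f a' := by
  induction m with
  | zero => exact ⟨∅, empty_subset _, card_empty, fun a ha => absurd ha (notMem_empty a)⟩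
  | succ m ih =>
    obtain ⟨A', hA', hc, hf⟩ := ih (by omega)
    have hne : (A \ A').Nonempty := by
      rw [← card_pos, card_sdiff_of_subset hA']
      omega
    obtain ⟨a₀, ha₀, hmin⟩ := exists_min_image (A \ A') f hne
    obtain ⟨ha₀A, ha₀A'⟩ := mem_sdiff.1 ha₀
    refine ⟨insert a₀ A', insert_subset ha₀A hA', ?_, ?_⟩
    · rw [card_insert_of_notMem ha₀A', hc]
    · intro a ha a' ha'
      obtain ⟨h1, h2⟩ := mem_sdiff.1 ha'
      have h3 : a' ∈ A \ A' := mem_sdiff.2 ⟨h1, fun h => h2 (mem_insert_of_mem h)⟩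
      rcases mem_insert.1 ha with rfl | ha
      · exact hmin a' h3
      · exact hf a ha a' h3

/-- one comparison costs a logarithm -/
theorem stair {α : Type} [DecidableEq α] (R : α → α → Prop) (f g : α → ℝ) (K : ℕ) :
    ∀ (N : ℕ) (A B : Finset α), A.card ≤ N →
    (∀ A' ⊆ A, ∀ B' ⊆ B, ((∀ p ∈ A', ∀ l ∈ B', f p < g l) ∨ (∀ p ∈ A', ∀ l ∈ B', ¬ f p < g l)) →
      NI R A' B' ≤ (A'.card + B'.card) * K) →
    NI R A B ≤ (A.card + B.card) * (K * (Nat.clog 2 A.card + 2)) := by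
  intro N
  induction N using Nat.strong_induction_on with
  | _ N ih =>
    intro A B hAN hyp
    rcases Nat.eq_zero_or_pos A.card with h0 | h0
    · have : A = ∅ := card_eq_zero.1 h0
      subst this
      simp [NI]
    rcases Nat.lt_or_ge A.card 2 with h1 | h1
    · have h2 : A.card = 1 := by omega
      obtain ⟨p, rfl⟩ := card_eq_one.1 h2
      rw [NI_split_right R {p} B (fun l => f p < g l)]
      have a1 := hyp {p} (Subset.refl _) (B.filter (fun l => f p < g l)) (filter_subset _ _)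
        (Or.inl fun q hq l hl => by
          rw [mem_singleton.1 hq]
          exact (mem_filter.1 hl).2)
      have a2 := hyp {p} (Subset.refl _) (B.filter (fun l => ¬ f p < g l)) (filter_subset _ _)
        (Or.inr fun q hq l hl => by
          rw [mem_singleton.1 hq]
          exact (mem_filter.1 hl).2)
      have a3 := card_filter_add_card_filter_not (s := B) (fun l => f p < g l)
      rw [card_singleton] at *
      have a4 : Nat.clog 2 1 = 0 := Nat.clog_one_right 2
      rw [a4]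
      set b1 := (B.filter (fun l => f p < g l)).card
      set b2 := (B.filter (fun l => ¬ f p < g l)).card
      calc _ ≤ (1 + b1) * K + (1 + b2) * K := Nat.add_le_add a1 a2
        _ = (2 + (b1 + b2)) * K := by ring
        _ = (2 + B.card) * K := by rw [a3]
        _ ≤ (1 + B.card) * (K * (0 + 2)) := by
            have : (2 + B.card) * K ≤ (2 * (1 + B.card)) * K := Nat.mul_le_mul_right K (by omega)
            calc (2 + B.card) * K ≤ (2 * (1 + B.card)) * K := this
              _ = (1 + B.card) * (K * (0 + 2)) := by ring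
    · obtain ⟨A1, hA1, hc1, hf1⟩ := lower_part A f (A.card / 2) (Nat.div_le_self _ _)
      set A2 := A \ A1 with hA2
      have hA2s : A2 ⊆ A := sdiff_subset
      have hc2 : A2.card = A.card - A.card / 2 := by
        rw [hA2, card_sdiff_of_subset hA1, hc1]
      have hne : A2.Nonempty := by
        rw [← card_pos, hc2]
        omega
      obtain ⟨a₀, ha₀, hmin⟩ := exists_min_image A2 f hne
      have hlog : Nat.clog 2 A.card = Nat.clog 2 ((A.card + 2 - 1) / 2) + 1 :=
        Nat.clog_of_two_le (by norm_num) h1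
      have hl1 : Nat.clog 2 A1.card ≤ Nat.clog 2 ((A.card + 2 - 1) / 2) :=
        Nat.clog_mono_right 2 (by omega)
      have hl2 : Nat.clog 2 A2.card ≤ Nat.clog 2 ((A.card + 2 - 1) / 2) :=
        Nat.clog_mono_right 2 (by omega)
      set c := Nat.clog 2 ((A.card + 2 - 1) / 2) with hc
      set B1 := B.filter (fun l => f a₀ < g l) with hB1
      set B2 := B.filter (fun l => ¬ f a₀ < g l) with hB2
      have hB1s : B1 ⊆ B := filter_subset _ _
      have hB2s : B2 ⊆ B := filter_subset _ _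
      have hb := card_filter_add_card_filter_not (s := B) (fun l => f a₀ < g l)
      have e1 : NI R A B = (NI R A1 B1 + NI R A1 B2) + (NI R A2 B1 + NI R A2 B2) := by
        rw [NI_split_left R A A1 B hA1, NI_split_right R A1 B (fun l => f a₀ < g l),
          NI_split_right R (A \ A1) B (fun l => f a₀ < g l)]
      have b11 : NI R A1 B1 ≤ (A1.card + B1.card) * K := by
        refine hyp A1 hA1 B1 hB1s (Or.inl fun p hp l hl => ?_)
        exact lt_of_le_of_lt (hf1 p hp a₀ ha₀) (mem_filter.1 hl).2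
      have b22 : NI R A2 B2 ≤ (A2.card + B2.card) * K := by
        refine hyp A2 hA2s B2 hB2s (Or.inr fun p hp l hl => ?_)
        have h3 := (mem_filter.1 hl).2
        have h4 := hmin p hp
        intro h5
        exact h3 (lt_of_le_of_lt h4 h5)
      have b12 : NI R A1 B2 ≤ (A1.card + B2.card) * (K * (c + 2)) := by
        have h3 := ih A1.card (by omega) A1 B2 le_rfl fun A' hA' B' hB' h =>
          hyp A' (hA'.trans hA1) B' (hB'.trans hB2s) h
        refine h3.trans (Nat.mul_le_mul_left _ (Nat.mul_le_mul_left _ (by omega)))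
      have b21 : NI R A2 B1 ≤ (A2.card + B1.card) * (K * (c + 2)) := by
        have h3 := ih A2.card (by omega) A2 B1 le_rfl fun A' hA' B' hB' h =>
          hyp A' (hA'.trans hA2s) B' (hB'.trans hB1s) h
        refine h3.trans (Nat.mul_le_mul_left _ (Nat.mul_le_mul_left _ (by omega)))
      have hac : A1.card + A2.card = A.card := by omega
      have hbc : B1.card + B2.card = B.card := hb
      rw [e1, hlog]
      calc (NI R A1 B1 + NI R A1 B2) + (NI R A2 B1 + NI R A2 B2)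
          ≤ ((A1.card + B1.card) * K + (A1.card + B2.card) * (K * (c + 2))) +
            ((A2.card + B1.card) * (K * (c + 2)) + (A2.card + B2.card) * K) :=
            Nat.add_le_add (Nat.add_le_add b11 b12) (Nat.add_le_add b21 b22)
        _ = ((A1.card + A2.card) + (B1.card + B2.card)) * (K * (c + 1 + 2)) := by ring
        _ = (A.card + B.card) * (K * (c + 1 + 2)) := by rw [hac, hbc]

theorem Dec_mono (Q : ℝ × ℝ → ℝ × ℝ → Prop) (r : ℕ) : ∀ S S' : Set ((ℝ × ℝ) × (ℝ × ℝ)), S' ⊆ S →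
    Dec r Q S → Dec r Q S' := by
  induction r with
  | zero =>
    intro S S' hS h z hz z' hz'
    exact h z (hS hz) z' (hS hz')
  | succ r ih =>
    rintro S S' hS ⟨f, g, h1, h2⟩
    exact ⟨f, g, ih _ _ (by rintro z ⟨hz, hz'⟩; exact ⟨hS hz, hz'⟩) h1,
      ih _ _ (by rintro z ⟨hz, hz'⟩; exact ⟨hS hz, hz'⟩) h2⟩

/-- a smallest positive difference -/
theorem exists_eps {α : Type} (A B : Finset α) (f g : α → ℝ) :
    ∃ ε : ℝ, 0 < ε ∧ ∀ a ∈ A, ∀ b ∈ B, f a < g b → ε ≤ g b - f a := by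
  classical
  let S := (A ×ˢ B).filter fun z => f z.1 < g z.2
  rcases S.eq_empty_or_nonempty with h | h
  · refine ⟨1, one_pos, fun a ha b hb hab => ?_⟩
    have h1 : (a, b) ∈ S := mem_filter.2 ⟨mem_product.2 ⟨ha, hb⟩, hab⟩
    rw [h] at h1
    exact absurd h1 (notMem_empty _)
  · obtain ⟨z, hz, hmin⟩ := exists_min_image S (fun z => g z.2 - f z.1) h
    refine ⟨g z.2 - f z.1, sub_pos.2 (mem_filter.1 hz).2, fun a ha b hb hab => ?_⟩
    exact hmin (a, b) (mem_filter.2 ⟨mem_product.2 ⟨ha, hb⟩, hab⟩)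

/-- the relation -/
def RR (P : Finset (ℝ × ℝ)) (r d e : ℝ) (K : ℕ) (Q : ℝ × ℝ → ℝ × ℝ → Prop) (a b : ℝ × ℝ) : Prop :=
  NearR r d a b ∧ Hp a b ∧ Good P r d e K a b ∧ ¬ Q a b

open Classical in
/-- one comparison, from `Con` -/
theorem one (hcon : ConStmt) {r d e : ℝ} {K : ℕ} (h1 : 1 / 4 ≤ r) (h2 : r ≤ 1) (h3 : 0 < d)
    (h4 : d ≤ 1 / 40) (h5 : 0 < e) (h6 : 36 * d ≤ e ^ 2) {P A B : Finset (ℝ × ℝ)} (hA : A ⊆ P)
    (hB : B ⊆ P) (Q : ℝ × ℝ → ℝ × ℝ → Prop) (f g : ℝ × ℝ → ℝ)
    (hf : ∀ a ∈ A, ∀ b ∈ B, sq a b < r → f a < g b)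
    (hQ : ∀ a ∈ A, ∀ b ∈ B, f a < g b → Q a b) :
    NI (RR P r d e K Q) A B ≤ (A.card + B.card) * (2 * K) := by
  rw [← cnt_eq]
  have h := hcon r d e K h1 h2 h3 h4 h5 h6 P A B hA hB f g hf
  refine (card_le_card ?_).trans (h.trans ?_)
  · intro z hz
    rw [mem_filter] at hz ⊢
    obtain ⟨hz1, hn, hp, hg, hq⟩ := hz
    refine ⟨hz1, hn, hp, hg, fun hh => hq ?_⟩
    exact hQ z.1 (mem_product.1 hz1).1 z.2 (mem_product.1 hz1).2 hh
  · calc K * (A.card + 2 * B.card) ≤ K * (2 * (A.card + B.card)) :=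
          Nat.mul_le_mul_left _ (by omega)
      _ = (A.card + B.card) * (2 * K) := by ring

theorem base (hcon : ConStmt) {r d e : ℝ} {K : ℕ} (h1 : 1 / 4 ≤ r) (h2 : r ≤ 1) (h3 : 0 < d)
    (h4 : d ≤ 1 / 40) (h5 : 0 < e) (h6 : 36 * d ≤ e ^ 2) {P A B : Finset (ℝ × ℝ)} (hA : A ⊆ P)
    (hB : B ⊆ P) (Q : ℝ × ℝ → ℝ × ℝ → Prop) (hD : Dec 1 Q {z | z.1 ∈ A ∧ z.2 ∈ B})
    (hQ : ∀ a ∈ A, ∀ b ∈ B, sq a b < r → Q a b) :
    NI (RR P r d e K Q) A B ≤ (A.card + B.card) * (2 * K) := by
  classical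
  obtain ⟨f, g, d1, d2⟩ := hD
  have c1 : (∀ a ∈ A, ∀ b ∈ B, f a < g b → Q a b) ∨ (∀ a ∈ A, ∀ b ∈ B, f a < g b → ¬ Q a b) := by
    by_cases hx : ∃ a ∈ A, ∃ b ∈ B, f a < g b ∧ Q a b
    · obtain ⟨a, ha, b, hb, hab, hq⟩ := hx
      left
      intro a' ha' b' hb' hab'
      exact (d1 (a, b) ⟨⟨ha, hb⟩, hab⟩ (a', b') ⟨⟨ha', hb'⟩, hab'⟩).1 hq
    · right
      intro a ha b hb hab hq
      exact hx ⟨a, ha, b, hb, hab, hq⟩
  have c2 : (∀ a ∈ A, ∀ b ∈ B, ¬ f a < g b → Q a b) ∨
      (∀ a ∈ A, ∀ b ∈ B, ¬ f a < g b → ¬ Q a b) := by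
    by_cases hx : ∃ a ∈ A, ∃ b ∈ B, ¬ f a < g b ∧ Q a b
    · obtain ⟨a, ha, b, hb, hab, hq⟩ := hx
      left
      intro a' ha' b' hb' hab'
      exact (d2 (a, b) ⟨⟨ha, hb⟩, hab⟩ (a', b') ⟨⟨ha', hb'⟩, hab'⟩).1 hq
    · right
      intro a ha b hb hab hq
      exact hx ⟨a, ha, b, hb, hab, hq⟩
  rcases c1 with c1 | c1 <;> rcases c2 with c2 | c2
  · -- all pairs are in `Q`
    have h0 : NI (RR P r d e K Q) A B = 0 := by
      unfold NI
      refine sum_eq_zero fun a ha => sum_eq_zero fun b hb => if_neg fun hR => ?_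
      by_cases hab : f a < g b
      · exact hR.2.2.2 (c1 a ha b hb hab)
      · exact hR.2.2.2 (c2 a ha b hb hab)
    rw [h0]
    exact Nat.zero_le _
  · refine one hcon h1 h2 h3 h4 h5 h6 hA hB Q f g ?_ c1
    intro a ha b hb hs
    by_contra hab
    exact c2 a ha b hb hab (hQ a ha b hb hs)
  · obtain ⟨ε, hε, he⟩ := exists_eps A B f g
    refine one hcon h1 h2 h3 h4 h5 h6 hA hB Q (fun a => -f a - ε) (fun b => -g b) ?_ ?_
    · intro a ha b hb hs
      have hab : ¬ f a < g b := fun hab => c1 a ha b hb hab (hQ a ha b hb hs)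
      show -f a - ε < -g b
      linarith
    · intro a ha b hb hab
      refine c2 a ha b hb fun hc => ?_
      have h7 := he a ha b hb hc
      have h8 : -f a - ε < -g b := hab
      linarith
  · refine one hcon h1 h2 h3 h4 h5 h6 hA hB Q (fun _ => 0) (fun _ => 0) ?_ ?_
    · intro a ha b hb hs
      exfalso
      by_cases hab : f a < g b
      · exact c1 a ha b hb hab (hQ a ha b hb hs)
      · exact c2 a ha b hb hab (hQ a ha b hb hs)
    · intro a _ b _ hab
      exact absurd hab (lt_irrefl _)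

theorem main (hcon : ConStmt) {r d e : ℝ} {K : ℕ} (h1 : 1 / 4 ≤ r) (h2 : r ≤ 1) (h3 : 0 < d)
    (h4 : d ≤ 1 / 40) (h5 : 0 < e) (h6 : 36 * d ≤ e ^ 2) {P : Finset (ℝ × ℝ)}
    (Q : ℝ × ℝ → ℝ × ℝ → Prop) (D : ℕ) : ∀ A B : Finset (ℝ × ℝ), A ⊆ P → B ⊆ P →
    Dec (D + 1) Q {z | z.1 ∈ A ∧ z.2 ∈ B} → (∀ a ∈ A, ∀ b ∈ B, sq a b < r → Q a b) →
    NI (RR P r d e K Q) A B ≤ (A.card + B.card) * (2 * K * (Nat.clog 2 P.card + 2) ^ D) := by
  classical
  induction D with
  | zero =>
    intro A B hA hB hD hQ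
    rw [pow_zero, mul_one]
    exact base hcon h1 h2 h3 h4 h5 h6 hA hB Q hD hQ
  | succ D ih =>
    intro A B hA hB hD hQ
    obtain ⟨f, g, d1, d2⟩ := hD
    have hs := stair (RR P r d e K Q) f g (2 * K * (Nat.clog 2 P.card + 2) ^ D) A.card A B le_rfl
      (fun A' hA' B' hB' hc => by
        refine ih A' B' (hA'.trans hA) (hB'.trans hB) ?_
          (fun a ha b hb => hQ a (hA' ha) b (hB' hb))
        rcases hc with hc | hc
        · exact Dec_mono Q _ _ _ (by
            rintro z ⟨hz1, hz2⟩; exact ⟨⟨hA' hz1, hB' hz2⟩, hc z.1 hz1 z.2 hz2⟩) d1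
        · exact Dec_mono Q _ _ _ (by
            rintro z ⟨hz1, hz2⟩; exact ⟨⟨hA' hz1, hB' hz2⟩, hc z.1 hz1 z.2 hz2⟩) d2)
    refine hs.trans (Nat.mul_le_mul_left _ ?_)
    rw [pow_succ, ← mul_assoc]
    refine Nat.mul_le_mul_left _ ?_
    have := Nat.clog_mono_right 2 (card_le_card hA)
    omega

end TreM

theorem tre (hcon : ConStmt) : TreStmt := by
  intro r d e K D h1 h2 h3 h4 h5 h6 P A B hA hB Q hD hQ
  have h := TreM.main hcon (K := K) h1 h2 h3 h4 h5 h6 (P := P) Q D A B hA hB hD hQ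
  classical
  rw [← TreM.cnt_eq] at h
  refine le_trans (le_of_eq (congrArg Finset.card ?_)) h
  ext z
  rw [mem_filter, mem_filter]
  rfl

end Pool.Agent.H31.UE
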