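import Pool.Agent.H31.UE.Def

/-!
# Triples of points at nearly the same distance
-/

set_option autoImplicit false

namespace Pool.Agent.H31.UE

open Finset

namespace Tri

/-- in the cone two points at nearly the same distance are not far apart in the first coordinate,
compared with the second one -/
theorem cone_real {d x y x' y' : ℝ} (hd : 0 < d) (h1 : |y| ≤ x) (h2 : |y'| ≤ x')
    (h3 : 1 / 4 ≤ x ^ 2 + y ^ 2) (h4 : |(x ^ 2 + y ^ 2) - (x' ^ 2 + y' ^ 2)| < d) :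
    |x' - x| ≤ |y' - y| + 3 * d := by
  have hx0 : 0 ≤ x := (abs_nonneg _).trans h1
  have hx0' : 0 ≤ x' := (abs_nonneg _).trans h2
  have hyx : y ^ 2 ≤ x ^ 2 := by
    rw [← sq_abs y]
    exact pow_le_pow_left₀ (abs_nonneg _) h1 2
  have hx : 7 / 20 ≤ x := by
    by_contra h
    push Not at h
    have h5 : x ^ 2 ≤ (7 / 20) ^ 2 := pow_le_pow_left₀ hx0 h.le 2
    norm_num at h5
    linarith
  have hw : |y' ^ 2 - y ^ 2| ≤ |y' - y| * (x + x') := by
    rw [show y' ^ 2 - y ^ 2 = (y' - y) * (y' + y) by ring, abs_mul]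
    refine mul_le_mul_of_nonneg_left ?_ (abs_nonneg _)
    refine (abs_add_le _ _).trans ?_
    linarith
  have hw0 : 0 ≤ |y' - y| := abs_nonneg _
  obtain ⟨h5, h6⟩ := abs_lt.1 h4
  obtain ⟨h7, h8⟩ := abs_le.1 hw
  have h9 : d * (7 / 20) ≤ d * (x + x') := mul_le_mul_of_nonneg_left (by linarith) hd.le
  rw [abs_le]
  constructor
  · by_contra h
    push Not at h
    have h10 : (|y' - y| + 3 * d) * (x + x') ≤ (x - x') * (x + x') :=
      mul_le_mul_of_nonneg_right (by linarith) (by linarith)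
    nlinarith
  · by_contra h
    push Not at h
    have h10 : (|y' - y| + 3 * d) * (x + x') ≤ (x' - x) * (x + x') :=
      mul_le_mul_of_nonneg_right (by linarith) (by linarith)
    nlinarith

theorem cone {d : ℝ} (hd : 0 < d) {a b b' : ℝ × ℝ} (h1 : Hp a b) (h2 : Hp a b')
    (h3 : 1 / 4 ≤ sq a b) (h4 : |sq a b - sq a b'| < d) :
    |b'.1 - b.1| ≤ |b'.2 - b.2| + 3 * d := by
  have e1 : sq a b = (b.1 - a.1) ^ 2 + (b.2 - a.2) ^ 2 := by unfold sq; ring
  have e2 : sq a b' = (b'.1 - a.1) ^ 2 + (b'.2 - a.2) ^ 2 := by unfold sq; ring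
  rw [e1] at h3
  rw [e1, e2] at h4
  have h := cone_real hd h1 h2 h3 h4
  have e3 : b'.1 - a.1 - (b.1 - a.1) = b'.1 - b.1 := by ring
  have e4 : b'.2 - a.2 - (b.2 - a.2) = b'.2 - b.2 := by ring
  rwa [e3, e4] at h

end Tri

theorem tri (h1 : StripStmt) (h2 : SumStmt) : TriStmt := by
  classical
  intro C0
  obtain ⟨C, hC, hstrip⟩ := h1 C0
  obtain ⟨C', hC', hsum⟩ := h2 C0
  have hM1 : (1 : ℝ) ≤ max 1 C := le_max_left _ _
  have hM2 : C ≤ max 1 C := le_max_right _ _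
  have hM0 : 0 < max 1 C := lt_of_lt_of_le one_pos hM1
  refine ⟨max 1 C * C', mul_pos hM0 hC', ?_⟩
  intro P hP hS
  have hn : 0 < (P.card : ℝ) := by exact_mod_cast hP.card_pos
  have hd : 0 < dc P := Real.rpow_pos_of_pos hn _
  have hs0 : 0 < sc P := Real.rpow_pos_of_pos hn _
  obtain ⟨g, hg⟩ : ∃ g : ℝ × ℝ → ℝ × ℝ → ℝ, ∀ b b', g b b' =
      if |b'.2 - b.2| ≤ sc P then (1 : ℝ) else dc P / |b'.2 - b.2| + sc P := ⟨_, fun _ _ => rfl⟩
  obtain ⟨F, hF⟩ : ∃ F : ℝ × ℝ → Finset (ℝ × ℝ), ∀ b, F b = P.filter (fun b' =>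
      |b'.2 - b.2| < ec P ∧ |b'.1 - b.1| ≤ |b'.2 - b.2| + 3 * dc P) := ⟨_, fun _ => rfl⟩
  have hsum' : ∀ b, ∑ b' ∈ F b, g b b' ≤ C' := by
    intro b
    have h := hsum P hP hS b
    rw [hF]
    simp only [hg]
    exact h
  have hcount : ∀ b b' : ℝ × ℝ, |b'.1 - b.1| ≤ |b'.2 - b.2| + 3 * dc P →
      ((P.filter fun a => sq a b ≤ 2 ∧ |sq a b - sq a b'| < dc P).card : ℝ) ≤
        max 1 C * P.card * g b b' := by
    intro b b' hbb
    rw [hg]
    split_ifs with hc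
    · have h3 : ((P.filter fun a => sq a b ≤ 2 ∧ |sq a b - sq a b'| < dc P).card : ℝ) ≤ P.card := by
        exact_mod_cast card_filter_le _ _
      nlinarith
    · push Not at hc
      have hne : b.2 ≠ b'.2 := by
        intro h
        rw [h, sub_self, abs_zero] at hc
        linarith
      have h3 := hstrip P hP hS b b' hne hbb
      refine h3.trans ?_
      have h4 : 0 ≤ dc P / |b'.2 - b.2| + sc P := by positivity
      have h5 : C * (P.card : ℝ) ≤ max 1 C * P.card := mul_le_mul_of_nonneg_right hM2 hn.le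
      exact mul_le_mul_of_nonneg_right h5 h4
  suffices hgen : ∀ T : Finset ((ℝ × ℝ) × (ℝ × ℝ) × (ℝ × ℝ)), (∀ z ∈ T, z.1 ∈ P ∧ z.2.1 ∈ P ∧
      z.2.2 ∈ P ∧ Hp z.1 z.2.1 ∧ Hp z.1 z.2.2 ∧
      1 / 4 ≤ sq z.1 z.2.1 ∧ sq z.1 z.2.1 ≤ 2 ∧ |sq z.1 z.2.1 - sq z.1 z.2.2| < dc P ∧
      |z.2.2.2 - z.2.1.2| < ec P) → (T.card : ℝ) ≤ max 1 C * C' * (P.card : ℝ) ^ 2 from
    hgen _ (fun z hz => by
      rw [mem_filter, mem_product, mem_product] at hz
      exact ⟨hz.1.1, hz.1.2.1, hz.1.2.2, hz.2⟩)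
  intro T hmem
  have hmaps : ∀ z ∈ T, (⟨z.2.1, z.2.2⟩ : Σ _ : ℝ × ℝ, ℝ × ℝ) ∈ P.sigma F := by
    intro z hz
    obtain ⟨m1, m2, m3, m4, m5, m6, m7, m8, m9⟩ := hmem z hz
    rw [mem_sigma, hF, mem_filter]
    exact ⟨m2, m3, m9, Tri.cone hd m4 m5 m6 m8⟩
  have hcard := card_eq_sum_card_fiberwise hmaps
  rw [hcard]
  push_cast
  have hfib : ∀ w ∈ P.sigma F, (((T.filter fun z => (⟨z.2.1, z.2.2⟩ : Σ _ : ℝ × ℝ, ℝ × ℝ) = w).card : ℕ)
      : ℝ) ≤ max 1 C * P.card * g w.1 w.2 := by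
    intro w hw
    rw [mem_sigma, hF, mem_filter] at hw
    refine le_trans ?_ (hcount w.1 w.2 hw.2.2.2)
    have h3 : (T.filter fun z => (⟨z.2.1, z.2.2⟩ : Σ _ : ℝ × ℝ, ℝ × ℝ) = w).card ≤
        (P.filter fun a => sq a w.1 ≤ 2 ∧ |sq a w.1 - sq a w.2| < dc P).card := by
      refine card_le_card_of_injOn (fun z => z.1) ?_ ?_
      · intro z hz
        have hz' := (mem_filter.1 hz)
        obtain ⟨m1, m2, m3, m4, m5, m6, m7, m8, m9⟩ := hmem z hz'.1
        have e1 : z.2.1 = w.1 := congrArg Sigma.fst hz'.2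
        have e2 : z.2.2 = w.2 := by
          rw [← hz'.2]
        refine mem_filter.2 ⟨m1, ?_, ?_⟩
        · rw [← e1]; exact m7
        · rw [← e1, ← e2]; exact m8
      · intro z hz z' hz' hzz
        have e1 := (mem_filter.1 hz).2
        have e2 := (mem_filter.1 hz').2
        rw [← e2] at e1
        have e3 : z.2.1 = z'.2.1 := congrArg Sigma.fst e1
        have e4 : z.2.2 = z'.2.2 := by
          have := (Sigma.mk.inj_iff.1 e1).2
          exact eq_of_heq this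
        exact Prod.ext hzz (Prod.ext e3 e4)
    exact_mod_cast h3
  refine (sum_le_sum hfib).trans ?_
  rw [sum_sigma]
  have h6 : ∀ b ∈ P, ∑ b' ∈ F b, max 1 C * P.card * g b b' ≤ max 1 C * P.card * C' := by
    intro b _
    rw [← mul_sum]
    exact mul_le_mul_of_nonneg_left (hsum' b) (by positivity)
  refine (sum_le_sum h6).trans (le_of_eq ?_)
  rw [sum_const, nsmul_eq_mul]
  ring

end Pool.Agent.H31.UE
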