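import Pool.Agent.H31.UE.Loc
import Pool.Agent.H31.UE.Tri

/-!
# Triples of points at nearly the same distance, in an interval of scales
-/

set_option autoImplicit false

namespace Pool.Agent.H31.UE

open Finset

theorem trl (h0 : AnnStmt) (h1 : SlnStmt) (h2 : SumStmt) : TrlStmt := by
  classical
  intro C0
  obtain ⟨C₁, hC₁, hann⟩ := h0 C0
  obtain ⟨C, hC, hsln⟩ := h1 C0
  obtain ⟨C', hC', hsum⟩ := h2 C0
  have hM1 : C₁ ≤ max C₁ C := le_max_left _ _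
  have hM2 : C ≤ max C₁ C := le_max_right _ _
  have hM0 : 0 < max C₁ C := lt_of_lt_of_le hC₁ hM1
  refine ⟨max C₁ C * C', mul_pos hM0 hC', ?_⟩
  intro P hP hS α β hα hβ hαβ
  have hn : 0 < (P.card : ℝ) := by exact_mod_cast hP.card_pos
  have hd : 0 < dc P := Real.rpow_pos_of_pos hn _
  have hs0 : 0 < sc P := Real.rpow_pos_of_pos hn _
  have hl : 0 < β - α := hs0.trans_le hαβ
  obtain ⟨g, hg⟩ : ∃ g : ℝ × ℝ → ℝ × ℝ → ℝ, ∀ b b', g b b' =
      if |b'.2 - b.2| ≤ sc P then (1 : ℝ) else dc P / |b'.2 - b.2| + sc P := ⟨_, fun _ _ => rfl⟩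
  obtain ⟨F, hF⟩ : ∃ F : ℝ × ℝ → Finset (ℝ × ℝ), ∀ b, F b = P.filter (fun b' =>
      |b'.2 - b.2| < ec P ∧ |b'.1 - b.1| ≤ |b'.2 - b.2| + 3 * dc P) := ⟨_, fun _ => rfl⟩
  have hsum' : ∀ b, ∑ b' ∈ F b, g b b' ≤ C' := by
    intro b
    have h := hsum P hP hS b
    rw [hF]
    simp only [hg]
    exact h
  have hcount : ∀ b b' : ℝ × ℝ, |b'.2 - b.2| < ec P → |b'.1 - b.1| ≤ |b'.2 - b.2| + 3 * dc P →
      ((P.filter fun a => Hp a b ∧ α ≤ sq a b ∧ sq a b ≤ β ∧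
        |sq a b - sq a b'| < dc P).card : ℝ) ≤ max C₁ C * P.card * (β - α) * g b b' := by
    intro b b' hbe hbb
    rw [hg]
    split_ifs with hc
    · have h3 : ((P.filter fun a => Hp a b ∧ α ≤ sq a b ∧ sq a b ≤ β ∧
          |sq a b - sq a b'| < dc P).card : ℝ) ≤
          ((P.filter fun a => Hp a b ∧ α ≤ sq a b ∧ sq a b ≤ β).card : ℝ) := by
        norm_cast
        refine card_le_card fun x hx => ?_
        rw [mem_filter] at hx ⊢
        exact ⟨hx.1, hx.2.1, hx.2.2.1, hx.2.2.2.1⟩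
      have h4 := hann P hP hS α β hα hβ hαβ b
      have h5 : C₁ * (P.card : ℝ) * (β - α) ≤ max C₁ C * P.card * (β - α) :=
        mul_le_mul_of_nonneg_right (mul_le_mul_of_nonneg_right hM1 hn.le) hl.le
      rw [mul_one]
      exact h3.trans (h4.trans h5)
    · push Not at hc
      have h3 := hsln P hP hS α β hα hβ hαβ b b' hc hbe hbb
      refine h3.trans ?_
      have h4 : 0 ≤ dc P / |b'.2 - b.2| + sc P := by positivity
      have h5 : C * (P.card : ℝ) * (β - α) ≤ max C₁ C * P.card * (β - α) :=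
        mul_le_mul_of_nonneg_right (mul_le_mul_of_nonneg_right hM2 hn.le) hl.le
      exact mul_le_mul_of_nonneg_right h5 h4
  suffices hgen : ∀ T : Finset ((ℝ × ℝ) × (ℝ × ℝ) × (ℝ × ℝ)), (∀ z ∈ T, z.1 ∈ P ∧ z.2.1 ∈ P ∧
      z.2.2 ∈ P ∧ Hp z.1 z.2.1 ∧ Hp z.1 z.2.2 ∧
      α ≤ sq z.1 z.2.1 ∧ sq z.1 z.2.1 ≤ β ∧ |sq z.1 z.2.1 - sq z.1 z.2.2| < dc P ∧
      |z.2.2.2 - z.2.1.2| < ec P) →
      (T.card : ℝ) ≤ max C₁ C * C' * (β - α) * (P.card : ℝ) ^ 2 from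
    hgen _ (fun z hz => by
      rw [mem_filter, mem_product, mem_product] at hz
      exact ⟨hz.1.1, hz.1.2.1, hz.1.2.2, hz.2⟩)
  intro T hmem
  have hmaps : ∀ z ∈ T, (⟨z.2.1, z.2.2⟩ : Σ _ : ℝ × ℝ, ℝ × ℝ) ∈ P.sigma F := by
    intro z hz
    obtain ⟨m1, m2, m3, m4, m5, m6, m7, m8, m9⟩ := hmem z hz
    rw [mem_sigma, hF, mem_filter]
    exact ⟨m2, m3, m9, Tri.cone hd m4 m5 (hα.trans m6) m8⟩
  have hcard := card_eq_sum_card_fiberwise hmaps
  rw [hcard]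
  push_cast
  have hfib : ∀ w ∈ P.sigma F, (((T.filter fun z => (⟨z.2.1, z.2.2⟩ : Σ _ : ℝ × ℝ, ℝ × ℝ) = w).card : ℕ)
      : ℝ) ≤ max C₁ C * P.card * (β - α) * g w.1 w.2 := by
    intro w hw
    rw [mem_sigma, hF, mem_filter] at hw
    refine le_trans ?_ (hcount w.1 w.2 hw.2.2.1 hw.2.2.2)
    have h3 : (T.filter fun z => (⟨z.2.1, z.2.2⟩ : Σ _ : ℝ × ℝ, ℝ × ℝ) = w).card ≤
        (P.filter fun a => Hp a w.1 ∧ α ≤ sq a w.1 ∧ sq a w.1 ≤ β ∧
          |sq a w.1 - sq a w.2| < dc P).card := by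
      refine card_le_card_of_injOn (fun z => z.1) ?_ ?_
      · intro z hz
        have hz' := (mem_filter.1 hz)
        obtain ⟨m1, m2, m3, m4, m5, m6, m7, m8, m9⟩ := hmem z hz'.1
        have e1 : z.2.1 = w.1 := congrArg Sigma.fst hz'.2
        have e2 : z.2.2 = w.2 := by
          rw [← hz'.2]
        refine mem_filter.2 ⟨m1, ?_, ?_, ?_, ?_⟩
        · rw [← e1]; exact m4
        · rw [← e1]; exact m6
        · rw [← e1]; exact m7
        · rw [← e1, ← e2]; exact m8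
      · intro z hz z' hz' hzz
        have e1 := (mem_filter.1 hz).2
        have e2 := (mem_filter.1 hz').2
        rw [← e2] at e1
        have e3 : z.2.1 = z'.2.1 := congrArg Sigma.fst e1
        have e4 : z.2.2 = z'.2.2 := by
          have := (Sigma.mk.inj_iff.1 e1).2
          exact eq_of_heq this
        exact Prod.ext hzz (Prod.ext e3 e4)
    exact_mod_cast h3
  refine (sum_le_sum hfib).trans ?_
  rw [sum_sigma]
  have h6 : ∀ b ∈ P, ∑ b' ∈ F b, max C₁ C * P.card * (β - α) * g b b' ≤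
      max C₁ C * P.card * (β - α) * C' := by
    intro b _
    rw [← mul_sum]
    exact mul_le_mul_of_nonneg_left (hsum' b) (by positivity)
  refine (sum_le_sum h6).trans (le_of_eq ?_)
  rw [sum_const, nsmul_eq_mul]
  ring

end Pool.Agent.H31.UE
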