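import Pool.Agent.H31.UE.Two
import Pool.Agent.H31.UE.Strip
import Pool.Agent.H31.UE.Fin

/-!
# Upp: at every scale there are at most `K n^(4/3)` good near pairs
-/

set_option autoImplicit false

namespace Pool.Agent.H31.UE

open Finset

namespace UppAux

/-- the heights of the near points -/
theorem height {a b : ℝ × ℝ} {r d : ℝ} (hr : r ≤ 1) (hd : d ≤ 1 / 40) (h1 : NearR r d a b)
    (h2 : Hp a b) : |b.2 - a.2| ≤ 18 / 25 := by
  obtain ⟨-, h3⟩ := h1
  unfold Hp at h2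
  unfold sq at h3
  apply abs_le_of_sq_le_sq _ (by norm_num)
  have h4 : (b.2 - a.2) ^ 2 ≤ (b.1 - a.1) ^ 2 := by
    rw [← sq_abs (b.2 - a.2)]
    exact pow_le_pow_left₀ (abs_nonneg _) h2 2
  nlinarith

open Classical in
/-- the near points seen from one point -/
theorem fib (P : Finset (ℝ × ℝ)) (hP : 300 ≤ P.card) (r : ℝ) (K : ℕ) (hr : r ≤ 1)
    (a : ℝ × ℝ) :
    ((P.filter fun b => NearR r (dc P) a b ∧ Hp a b ∧
      Good P r (dc P) (ec P) K a b).card : ℝ) ≤ K * (P.card : ℝ) ^ (1 / 3 : ℝ) := by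
  obtain ⟨-, hd, he, -⟩ := numb P hP
  set T := P.filter fun b => NearR r (dc P) a b ∧ Hp a b ∧ Good P r (dc P) (ec P) K a b with hT
  have h0 : ∀ b ∈ T, 0 ≤ b.2 - a.2 + 18 / 25 ∧ b.2 - a.2 + 18 / 25 ≤ 36 / 25 := by
    intro b hb
    obtain ⟨-, h1, h2, -⟩ := mem_filter.1 hb
    have h3 := height hr hd h1 h2
    rw [abs_le] at h3
    constructor <;> linarith [h3.1, h3.2]
  have hcell : ∀ i : ℤ,
      ((T.filter fun b => ⌊(b.2 - a.2 + 18 / 25) / ec P⌋ = i).card : ℝ) ≤ K := by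
    intro i
    rcases (T.filter fun b => ⌊(b.2 - a.2 + 18 / 25) / ec P⌋ = i).eq_empty_or_nonempty with
      hE | ⟨b0, hb0⟩
    · rw [hE, card_empty]
      push_cast
      positivity
    · obtain ⟨hb1, hb2⟩ := mem_filter.1 hb0
      obtain ⟨-, -, -, hg, -⟩ := mem_filter.1 hb1
      have hsub : (T.filter fun b => ⌊(b.2 - a.2 + 18 / 25) / ec P⌋ = i) ⊆
          P.filter fun b' => NearR r (dc P) a b' ∧ Hp a b' ∧ |b'.2 - b0.2| < ec P := by
        intro b hb
        obtain ⟨hb3, hb4⟩ := mem_filter.1 hb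
        obtain ⟨hb5, hb6, hb7, -⟩ := mem_filter.1 hb3
        refine mem_filter.2 ⟨hb5, hb6, hb7, ?_⟩
        rw [Int.floor_eq_iff] at hb2 hb4
        obtain ⟨h1, h2⟩ := hb2
        obtain ⟨h3, h4⟩ := hb4
        rw [le_div_iff₀ he] at h1 h3
        rw [div_lt_iff₀ he] at h2 h4
        rw [abs_lt]
        constructor <;> nlinarith
      exact_mod_cast (card_le_card hsub).trans hg
  have h1 := StripAux.card_fib (T := T) (fun b => ⌊(b.2 - a.2 + 18 / 25) / ec P⌋) K hcell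
  have h2 := StripAux.card_im (T := T) (h := fun b => b.2 - a.2 + 18 / 25) he
    (by norm_num : (0 : ℝ) ≤ 36 / 25) h0
  refine h1.trans (mul_le_mul_of_nonneg_left (h2.trans ?_) (Nat.cast_nonneg K))
  have hn : (300 : ℝ) ≤ P.card := by exact_mod_cast hP
  have hn0 : (0 : ℝ) < P.card := by linarith
  have h3 : (2 : ℝ) ≤ (P.card : ℝ) ^ (1 / 3 : ℝ) := by
    have h4 : ((8 : ℝ)) ^ (1 / 3 : ℝ) = 2 := by
      rw [show (8 : ℝ) = 2 ^ (3 : ℝ) by norm_num, ← Real.rpow_mul (by norm_num)]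
      norm_num
    rw [← h4]
    exact Real.rpow_le_rpow (by norm_num) (by linarith) (by norm_num)
  have h5 : (36 / 25 : ℝ) / ec P = 6 / 25 * (P.card : ℝ) ^ (1 / 3 : ℝ) := by
    unfold ec
    rw [Real.rpow_neg hn0.le]
    field_simp
    norm_num
  rw [h5]
  linarith

end UppAux

open Classical in
theorem upp : UppStmt := by
  intro P hP r K hr
  have hn : (300 : ℝ) ≤ P.card := by exact_mod_cast hP
  have hn0 : (0 : ℝ) < P.card := by linarith
  have h1 : ((P ×ˢ P).filter fun z => NearR r (dc P) z.1 z.2 ∧ Hp z.1 z.2 ∧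
      Good P r (dc P) (ec P) K z.1 z.2).card =
      ∑ a ∈ P, (P.filter fun b => NearR r (dc P) a b ∧ Hp a b ∧
        Good P r (dc P) (ec P) K a b).card := by
    rw [card_filter, sum_product]
    exact sum_congr rfl fun a _ => (card_filter _ _).symm
  rw [h1]
  push_cast
  calc ∑ a ∈ P, ((P.filter fun b => NearR r (dc P) a b ∧ Hp a b ∧
        Good P r (dc P) (ec P) K a b).card : ℝ)
      ≤ ∑ _a ∈ P, (K * (P.card : ℝ) ^ (1 / 3 : ℝ)) :=
        sum_le_sum fun a _ => UppAux.fib P hP r K hr a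
    _ = K * (P.card : ℝ) ^ (4 / 3 : ℝ) := by
      rw [sum_const, nsmul_eq_mul, show (4 / 3 : ℝ) = 1 + 1 / 3 by norm_num,
        Real.rpow_add hn0, Real.rpow_one]
      ring

end Pool.Agent.H31.UE
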